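import Mathlib
import Pool.Agent.H64.PM.CQ1

/-!
# Upper bound sieve for a polynomial in a residue class: a set of primes, uniform constants
-/

set_option autoImplicit false

namespace Pool.Agent.H64.QM

open Finset Pool.Agent.W262.RK Polynomial
open Pool.Agent.H373R2.T7 (nuB PerB pz mem_pz sys_fund)
open Pool.Agent.H64.PM (Zr rho dvd_congr one_sub_ge harm card_crt)

/-- the sifting conditions -/
def QP (f : ℤ[X]) (P : Finset ℕ) (r m : ℤ) (p n : ℕ) : Prop :=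
  p ∈ P ∧ ¬ (p : ℤ) ∣ m ∧ (p : ℤ) ∣ f.eval (r + m * ((n : ℤ) - 1))

lemma nu_QP (f : ℤ[X]) {P : Finset ℕ} {p : ℕ} (r m : ℤ) (hp : p ∈ P) (hpp : p.Prime)
    (hm : ¬ (p : ℤ) ∣ m) : nuB (QP f P r m) p = rho f p := by
  classical
  have : Fact p.Prime := ⟨hpp⟩
  have hm' : (m : ZMod p) ≠ 0 := fun h => hm ((ZMod.intCast_zmod_eq_zero_iff_dvd _ _).1 h)
  have key : ∀ a b : ℤ, (a : ZMod p) = (b : ZMod p) → (p : ℤ) ∣ a - b := by
    intro a b h
    rw [← ZMod.intCast_zmod_eq_zero_iff_dvd]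
    push_cast
    rw [h, sub_self]
  unfold nuB rho Zr
  refine card_nbij' (fun n : ℕ => (((r : ZMod p) + m * ((n : ZMod p) - 1))).val)
    (fun x : ℕ => ((1 : ZMod p) + (m : ZMod p)⁻¹ * ((x : ZMod p) - r)).val) ?_ ?_ ?_ ?_
  · intro n hn
    rw [mem_coe, mem_filter] at hn
    rw [mem_coe, mem_filter]
    refine ⟨mem_range.2 (ZMod.val_lt _), ?_⟩
    refine (dvd_congr f (key _ _ ?_)).1 hn.2.2.2
    push_cast
    rw [ZMod.natCast_zmod_val]
  · intro x hx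
    rw [mem_coe, mem_filter] at hx
    rw [mem_coe, mem_filter]
    refine ⟨mem_range.2 (ZMod.val_lt _), hp, hm, ?_⟩
    refine (dvd_congr f (key _ _ ?_)).1 hx.2
    push_cast
    rw [ZMod.natCast_zmod_val]
    field_simp
    ring
  · intro n hn
    rw [mem_coe, mem_filter, mem_range] at hn
    show ((1 : ZMod p) + (m : ZMod p)⁻¹ * (((((r : ZMod p) + m * ((n : ZMod p) - 1))).val : ZMod p)
      - r)).val = n
    rw [ZMod.natCast_zmod_val]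
    have : (1 : ZMod p) + (m : ZMod p)⁻¹ * ((r : ZMod p) + m * ((n : ZMod p) - 1) - r) = n := by
      field_simp
      ring
    rw [this]
    exact ZMod.val_natCast_of_lt hn.1
  · intro x hx
    rw [mem_coe, mem_filter, mem_range] at hx
    show ((r : ZMod p) + m * ((((1 : ZMod p) + (m : ZMod p)⁻¹ * ((x : ZMod p) - r)).val : ZMod p)
      - 1)).val = x
    rw [ZMod.natCast_zmod_val]
    have : (r : ZMod p) + m * ((1 : ZMod p) + (m : ZMod p)⁻¹ * ((x : ZMod p) - r) - 1) = x := by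
      field_simp
      ring
    rw [this]
    exact ZMod.val_natCast_of_lt hx.1

lemma nu_QP0 (f : ℤ[X]) {P : Finset ℕ} {p : ℕ} (r m : ℤ) (hp : ¬ (p ∈ P ∧ ¬ (p : ℤ) ∣ m)) :
    nuB (QP f P r m) p = 0 := by
  classical
  unfold nuB
  rw [card_eq_zero, filter_eq_empty_iff]
  intro n _ hn
  exact hp ⟨hn.1, hn.2.1⟩

lemma QP_per (f : ℤ[X]) (P : Finset ℕ) (r m : ℤ) (p n : ℕ) :
    QP f P r m p n ↔ QP f P r m p (n % p) := by
  unfold QP
  refine and_congr_right fun _ => and_congr_right fun _ => dvd_congr f ?_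
  have h : ((n % p : ℕ) : ℤ) = (n : ℤ) - p * (n / p : ℕ) := by
    have := Nat.mod_add_div n p
    zify at this ⊢
    linarith
  rw [h]
  exact ⟨m * (n / p : ℕ), by ring⟩

open Classical in
lemma count_QP (f : ℤ[X]) {P : Finset ℕ} (y X m r : ℕ) :
    ((Icc 1 X).filter (fun t : ℕ => t ≡ r [MOD m] ∧ ∀ p ∈ P, ¬ p ∣ m →
      ¬ (p : ℤ) ∣ f.eval (t : ℤ))).card ≤
      ((Icc 1 (X / m + 1)).filter
        (fun n : ℕ => ∀ p ∈ pz y, ¬ QP f P ((r % m : ℕ) : ℤ) m p n)).card := by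
  apply card_le_card_of_injOn (fun t => t / m + 1)
  · intro t ht
    have ht' := Finset.mem_coe.1 ht
    have htX := mem_Icc.1 (mem_filter.1 ht').1
    obtain ⟨hmod, hnd⟩ := (mem_filter.1 ht').2
    rw [Finset.mem_coe, mem_filter, mem_Icc]
    refine ⟨⟨Nat.le_add_left 1 _, Nat.succ_le_succ (Nat.div_le_div_right htX.2)⟩, fun p _ hQ => ?_⟩
    obtain ⟨hpPS, hpm, hj⟩ := hQ
    have e : ((r % m : ℕ) : ℤ) + (m : ℤ) * (((t / m + 1 : ℕ) : ℤ) - 1) = (t : ℤ) := by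
      have h1 : t % m = r % m := hmod
      rw [← h1]
      have := Nat.mod_add_div t m
      push_cast
      zify at this
      linarith
    rw [e] at hj
    exact hnd p hpPS (fun h => hpm (Int.natCast_dvd_natCast.2 h)) hj
  · intro a ha b hb hab
    have ha' : a % m = r % m := (mem_filter.1 (Finset.mem_coe.1 ha)).2.1
    have hb' : b % m = r % m := (mem_filter.1 (Finset.mem_coe.1 hb)).2.1
    simp only at hab
    have h1 : a / m = b / m := by omega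
    rw [← Nat.mod_add_div a m, ← Nat.mod_add_div b m, ha', hb', h1]

/-- the product over the primes is not too small -/
lemma prod_geP (f : ℤ[X]) {n z : ℕ} (hn : 2 * n + 2 ≤ z) {y : ℕ} (hy : 3 ≤ y) (S : Finset ℕ)
    (hS : S ⊆ PS z y) (hρ : ∀ p ∈ S, rho f p ≤ n) :
    ((y : ℝ) ^ (4 * n))⁻¹ ≤ ∏ p ∈ S, (1 - (rho f p : ℝ) / p) := by
  have hyr : (3 : ℝ) ≤ y := by exact_mod_cast hy
  have hl1 : 1 < Real.log y := by
    rw [Real.lt_log_iff_exp_lt (by linarith)]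
    have := Real.exp_one_lt_d9
    linarith
  have h1 : ∀ p ∈ S, Real.exp (-(2 * ((n : ℝ) / p))) ≤ 1 - (rho f p : ℝ) / p := by
    intro p hp
    have h2 := mem_PS.1 (hS hp)
    have hp0 : (0 : ℝ) < p := by exact_mod_cast h2.2.pos
    have h3 : (n : ℝ) / p ≤ 1 / 2 := by
      rw [div_le_div_iff₀ hp0 (by norm_num)]
      have : 2 * n ≤ p := by omega
      have h4 : (2 : ℝ) * n ≤ p := by exact_mod_cast this
      linarith
    refine (one_sub_ge (by positivity) h3).trans ?_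
    have h5 : (rho f p : ℝ) ≤ n := by exact_mod_cast hρ p hp
    have h6 : (rho f p : ℝ) / p ≤ n / p := div_le_div_of_nonneg_right h5 hp0.le
    linarith
  refine le_trans ?_ (prod_le_prod (fun p _ => (Real.exp_pos _).le) h1)
  rw [← Real.exp_sum]
  have h2 : ((y : ℝ) ^ (4 * n))⁻¹ = Real.exp (-(4 * n * Real.log y)) := by
    rw [Real.exp_neg]
    congr 1
    rw [← Real.exp_log (show (0 : ℝ) < y by linarith), ← Real.exp_nat_mul, Real.log_exp]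
    push_cast
    ring_nf
  rw [h2]
  apply Real.exp_le_exp.2
  rw [sum_neg_distrib, neg_le_neg_iff, ← mul_sum]
  have h3 : ∑ p ∈ S, (n : ℝ) / p = n * ∑ p ∈ S, 1 / (p : ℝ) := by
    rw [mul_sum]
    refine sum_congr rfl fun p _ => ?_
    rw [mul_one_div]
  have h4 : ∑ p ∈ S, 1 / (p : ℝ) ≤ 2 * Real.log y := by
    have h5 : ∑ p ∈ S, 1 / (p : ℝ) ≤ ∑ p ∈ PS z y, 1 / (p : ℝ) :=
      sum_le_sum_of_subset_of_nonneg hS fun _ _ _ => by positivity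
    have h6 := harm z y (by omega)
    linarith
  rw [h3]
  have hn0 : (0 : ℝ) ≤ n := Nat.cast_nonneg n
  nlinarith

set_option maxHeartbeats 1000000 in
/-- upper bound sieve in a residue class -/
theorem svP (n : ℕ) :
    ∃ (C : ℝ) (K y0 : ℕ), 0 ≤ C ∧ 1 ≤ K ∧ ∀ (f : ℤ[X]) (z : ℕ), 2 * n + 2 ≤ z →
    ∀ X y : ℕ, y0 ≤ y → z < y → y ^ K ≤ X →
    ∀ P : Finset ℕ, P ⊆ PS z y → (∀ p ∈ P, rho f p ≤ n) →
    ∀ m r : ℕ, 1 ≤ m → m ^ 4 ≤ X →
    (((Icc 1 X).filter (fun t : ℕ => t ≡ r [MOD m] ∧ ∀ p ∈ P, ¬ p ∣ m →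
      ¬ (p : ℤ) ∣ f.eval (t : ℤ))).card : ℝ) ≤
      C * (X / m) * ∏ p ∈ P.filter (fun p => ¬ p ∣ m), (1 - (rho f p : ℝ) / p) := by
  classical
  obtain ⟨K', x0', hK', hF⟩ := sys_fund (n + 1) (by omega) 1 one_pos
  refine ⟨5, 2 * (K' + 4 * n), max x0' 3, by norm_num, by omega,
    fun f z hn X y hy hzy hyX P hP hρ m r hm1 hmX4 => ?_⟩
  have hy0 : x0' ≤ y := (le_max_left _ _).trans hy
  have hy3 : 3 ≤ y := (le_max_right _ _).trans hy
  have hmpos : 0 < m := hm1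
  have hr := count_QP f (P := P) y X m r
  have hPp : ∀ p ∈ P, p.Prime := fun p hp => (mem_PS.1 (hP hp)).2
  have hPer : PerB (QP f P ((r % m : ℕ) : ℤ) m) (n + 1) := by
    refine ⟨fun p k => QP_per f P _ m p k, fun p _ => ?_⟩
    by_cases h : p ∈ P ∧ ¬ (p : ℤ) ∣ (m : ℤ)
    · rw [nu_QP f _ _ h.1 (hPp p h.1) h.2]
      exact (hρ p h.1).trans (Nat.le_succ n)
    · rw [nu_QP0 f _ _ h]
      exact Nat.zero_le _
  have hfund := hF (y ^ K') y hy0 le_rfl (QP f P ((r % m : ℕ) : ℤ) m) hPer (X / m + 1)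
  have hprod : ∏ p ∈ pz y,
      (1 - ((nuB (QP f P ((r % m : ℕ) : ℤ) m) p : ℕ) : ℝ) / p) =
      ∏ p ∈ P.filter (fun p => ¬ p ∣ m), (1 - (rho f p : ℝ) / p) := by
    have h1 : ∏ p ∈ P.filter (fun p => ¬ p ∣ m),
        (1 - ((nuB (QP f P ((r % m : ℕ) : ℤ) m) p : ℕ) : ℝ) / p) =
        ∏ p ∈ pz y, (1 - ((nuB (QP f P ((r % m : ℕ) : ℤ) m) p : ℕ) : ℝ) / p) := by
      apply prod_subset
      · intro p hp
        have h2 := mem_PS.1 (hP (mem_filter.1 hp).1)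
        exact mem_pz.2 ⟨h2.1.2, h2.2⟩
      · intro p _ hp
        rw [mem_filter] at hp
        rw [nu_QP0 f _ _ (fun h => hp ⟨h.1, fun h2 => h.2 (Int.natCast_dvd_natCast.2 h2)⟩)]
        simp
    rw [← h1]
    refine prod_congr rfl fun p hp => ?_
    rw [mem_filter] at hp
    rw [nu_QP f _ _ hp.1 (hPp p hp.1) (fun h => hp.2 (Int.natCast_dvd_natCast.1 h))]
  rw [hprod] at hfund
  obtain ⟨A, hA⟩ : ∃ A : ℝ, A = ∏ p ∈ P.filter (fun p => ¬ p ∣ m),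
      (1 - (rho f p : ℝ) / p) := ⟨_, rfl⟩
  rw [← hA] at hfund ⊢
  have hAge : ((y : ℝ) ^ (4 * n))⁻¹ ≤ A := by
    rw [hA]
    exact prod_geP f hn hy3 _ ((filter_subset _ _).trans hP) fun p hp =>
      hρ p (mem_filter.1 hp).1
  have hyr : (3 : ℝ) ≤ y := by exact_mod_cast hy3
  have hApos : 0 < A := lt_of_lt_of_le (by positivity) hAge
  have hmX : m * y ^ (K' + 4 * n) ≤ X := by
    have h1 : (m * y ^ (K' + 4 * n)) ^ 4 ≤ X ^ 4 := by
      calc (m * y ^ (K' + 4 * n)) ^ 4 = m ^ 4 * (y ^ (K' + 4 * n)) ^ 4 := by rw [mul_pow]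
        _ ≤ m ^ 4 * (y ^ (K' + 4 * n)) ^ 6 := by
          apply Nat.mul_le_mul_left
          exact Nat.pow_le_pow_right (pow_pos (by omega) _) (by norm_num)
        _ = m ^ 4 * (y ^ (2 * (K' + 4 * n))) ^ 3 := by ring
        _ ≤ X * X ^ 3 := Nat.mul_le_mul hmX4 (Nat.pow_le_pow_left hyX 3)
        _ = X ^ 4 := by ring
    exact (Nat.pow_le_pow_iff_left (by norm_num)).1 h1
  have hmX' : m ≤ X := by
    refine le_trans ?_ hmX
    exact Nat.le_mul_of_pos_right _ (pow_pos (by omega) _)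
  have hmr : (0 : ℝ) < m := by exact_mod_cast hmpos
  have hcnt : (((Icc 1 X).filter (fun t : ℕ => t ≡ r [MOD m] ∧ ∀ p ∈ P, ¬ p ∣ m →
      ¬ (p : ℤ) ∣ f.eval (t : ℤ))).card : ℝ) ≤
      2 * (((X / m + 1 : ℕ) : ℝ) * A) + √((y ^ K' : ℕ) : ℝ) := by
    have h1 : (((Icc 1 X).filter (fun t : ℕ => t ≡ r [MOD m] ∧ ∀ p ∈ P, ¬ p ∣ m →
        ¬ (p : ℤ) ∣ f.eval (t : ℤ))).card : ℝ) ≤
      (((Icc 1 (X / m + 1)).filter
        (fun k : ℕ => ∀ p ∈ pz y, ¬ QP f P ((r % m : ℕ) : ℤ) m p k)).card : ℝ) := by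
      exact_mod_cast hr
    have h2 := (abs_le.1 hfund).2
    rw [one_mul] at h2
    linarith
  have hX' : ((X / m + 1 : ℕ) : ℝ) ≤ 2 * (X / m) := by
    have h1 : (X / m + 1) * m ≤ 2 * X := by
      have := Nat.div_mul_le_self X m
      rw [add_mul, one_mul]
      omega
    have h2 : ((X / m + 1 : ℕ) : ℝ) * m ≤ 2 * X := by exact_mod_cast h1
    rw [← mul_div_assoc, le_div_iff₀ hmr]
    exact h2
  have hsq : √((y ^ K' : ℕ) : ℝ) ≤ (X / m) * A := by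
    have h1 : (1 : ℝ) ≤ ((y ^ K' : ℕ) : ℝ) := by
      exact_mod_cast Nat.one_le_iff_ne_zero.2 (pow_ne_zero _ (by omega))
    have h2 : √((y ^ K' : ℕ) : ℝ) ≤ ((y ^ K' : ℕ) : ℝ) := by
      rw [Real.sqrt_le_left (by linarith)]
      nlinarith
    refine h2.trans ?_
    have h4 : (m : ℝ) * (y : ℝ) ^ (K' + 4 * n) ≤ X := by exact_mod_cast hmX
    have h5 : (y : ℝ) ^ (K' + 4 * n) ≤ X / m := by
      rw [le_div_iff₀ hmr, mul_comm]
      exact h4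
    push_cast
    calc (y : ℝ) ^ K' = (y : ℝ) ^ (K' + 4 * n) * ((y : ℝ) ^ (4 * n))⁻¹ := by
          rw [pow_add, mul_assoc, mul_inv_cancel₀ (by positivity), mul_one]
      _ ≤ (X / m) * A := by gcongr
  calc (((Icc 1 X).filter (fun t : ℕ => t ≡ r [MOD m] ∧ ∀ p ∈ P, ¬ p ∣ m →
      ¬ (p : ℤ) ∣ f.eval (t : ℤ))).card : ℝ)
      ≤ 2 * (((X / m + 1 : ℕ) : ℝ) * A) + √((y ^ K' : ℕ) : ℝ) := hcnt
    _ ≤ 2 * ((2 * (X / m)) * A) + (X / m) * A := by gcongr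
    _ = 5 * (X / m) * A := by ring

/-- the count with prescribed residue classes -/
theorem cntP (n : ℕ) :
    ∃ (C : ℝ) (K y0 : ℕ), 0 ≤ C ∧ 1 ≤ K ∧ ∀ (f : ℤ[X]) (z : ℕ), 2 * n + 2 ≤ z →
    ∀ X y : ℕ, y0 ≤ y → z < y → y ^ K ≤ X →
    ∀ P : Finset ℕ, P ⊆ PS z y → (∀ p ∈ P, rho f p ≤ n) →
    ∀ (T : Finset ℕ) (e : ℕ → ℕ) (Ω : ℕ → Finset ℕ), (∀ p ∈ T, p.Prime) → (∀ p ∈ T, 1 ≤ e p) →
    (∏ p ∈ T, p ^ e p) ^ 4 ≤ X →
    (((Icc 1 X).filter (fun t : ℕ => (∀ p ∈ T, t % p ^ e p ∈ Ω p) ∧ ∀ p ∈ P, p ∉ T →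
      ¬ (p : ℤ) ∣ f.eval (t : ℤ))).card : ℝ) ≤
      C * X * (∏ p ∈ T, ((Ω p).card : ℝ) / (p : ℝ) ^ e p) *
        ∏ p ∈ P.filter (fun p => p ∉ T), (1 - (rho f p : ℝ) / p) := by
  classical
  obtain ⟨C, K, y0, hC, hK, h⟩ := svP n
  refine ⟨C, K, y0, hC, hK, fun f z hn X y hy hzy hyX P0 hP0S hρ T e Ω hT he hX4 => ?_⟩
  set m := ∏ p ∈ T, p ^ e p with hm
  have hm0 : m ≠ 0 := prod_ne_zero_iff.2 fun p hp => pow_ne_zero _ (hT p hp).ne_zero
  have hm1 : 1 ≤ m := Nat.one_le_iff_ne_zero.2 hm0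
  have hdiv : ∀ p : ℕ, p.Prime → (p ∣ m ↔ p ∈ T) := by
    intro p hp
    constructor
    · intro hd
      obtain ⟨q, hq, hpq⟩ := (hp.prime.dvd_finsetProd_iff _).1 hd
      have := hp.dvd_of_dvd_pow hpq
      rwa [(Nat.prime_dvd_prime_iff_eq hp (hT q hq)).1 this]
    · intro hpT
      exact (dvd_pow_self p (by have := he p hpT; omega)).trans
        (dvd_prod_of_mem (fun p => p ^ e p) hpT)
  set R := (range m).filter (fun r => ∀ p ∈ T, r % p ^ e p ∈ Ω p) with hR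
  set S := (Icc 1 X).filter (fun t : ℕ => (∀ p ∈ T, t % p ^ e p ∈ Ω p) ∧ ∀ p ∈ P0, p ∉ T →
      ¬ (p : ℤ) ∣ f.eval (t : ℤ)) with hS
  set P : ℝ := ∏ p ∈ P0.filter (fun p => p ∉ T), (1 - (rho f p : ℝ) / p) with hP
  have hPm : ∏ p ∈ P0.filter (fun p => ¬ p ∣ m), (1 - (rho f p : ℝ) / p) = P := by
    rw [hP]
    congr 1
    refine filter_congr fun p hp => ?_
    rw [hdiv p (mem_PS.1 (hP0S hp)).2]
  have hP0 : 0 ≤ P := by
    refine prod_nonneg fun p hp => ?_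
    have h1 := mem_PS.1 (hP0S (mem_filter.1 hp).1)
    have h2 := hρ p (mem_filter.1 hp).1
    have hp0 : (0 : ℝ) < p := by exact_mod_cast h1.2.pos
    rw [sub_nonneg, div_le_one hp0]
    exact_mod_cast (by omega : rho f p ≤ p)
  have h1 : (S.card : ℝ) ≤ ∑ r ∈ R, (((Icc 1 X).filter (fun t : ℕ => t ≡ r [MOD m] ∧
      ∀ p ∈ P0, ¬ p ∣ m → ¬ (p : ℤ) ∣ f.eval (t : ℤ))).card : ℝ) := by
    have hmaps : ∀ t ∈ S, t % m ∈ R := by
      intro t ht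
      rw [hS, mem_filter] at ht
      rw [hR, mem_filter, mem_range]
      refine ⟨Nat.mod_lt _ hm1, fun p hp => ?_⟩
      rw [Nat.mod_mod_of_dvd _ (dvd_prod_of_mem (fun p => p ^ e p) hp)]
      exact ht.2.1 p hp
    rw [card_eq_sum_card_fiberwise hmaps]
    push_cast
    refine sum_le_sum fun r hr => ?_
    have h2 : (S.filter (fun t => t % m = r)) ⊆ (Icc 1 X).filter (fun t : ℕ => t ≡ r [MOD m] ∧
      ∀ p ∈ P0, ¬ p ∣ m → ¬ (p : ℤ) ∣ f.eval (t : ℤ)) := by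
      intro t ht
      rw [mem_filter, hS, mem_filter] at ht
      rw [mem_filter]
      refine ⟨ht.1.1, ?_, fun p hp hpm => ht.1.2.2 p hp fun h3 => hpm ?_⟩
      · have h3 : r < m := mem_range.1 (mem_filter.1 hr).1
        show t % m = r % m
        rw [ht.2, Nat.mod_eq_of_lt h3]
      · exact (hdiv p (mem_PS.1 (hP0S hp)).2).2 h3
    exact_mod_cast card_le_card h2
  have h2 : ∀ r ∈ R, (((Icc 1 X).filter (fun t : ℕ => t ≡ r [MOD m] ∧
      ∀ p ∈ P0, ¬ p ∣ m → ¬ (p : ℤ) ∣ f.eval (t : ℤ))).card : ℝ) ≤ C * (X / m) * P := by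
    intro r _
    have h3 := h f z hn X y hy hzy hyX P0 hP0S hρ m r hm1 hX4
    rwa [hPm] at h3
  have h3 : (R.card : ℝ) ≤ ∏ p ∈ T, ((Ω p).card : ℝ) := by
    exact_mod_cast card_crt T e Ω hT
  have hmr : (0 : ℝ) < m := by exact_mod_cast hm1
  calc (S.card : ℝ) ≤ ∑ _r ∈ R, C * (X / m) * P := h1.trans (sum_le_sum h2)
    _ = R.card * (C * (X / m) * P) := by rw [sum_const, nsmul_eq_mul]
    _ ≤ (∏ p ∈ T, ((Ω p).card : ℝ)) * (C * (X / m) * P) := by gcongr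
    _ = C * X * (∏ p ∈ T, ((Ω p).card : ℝ) / (p : ℝ) ^ e p) * P := by
        rw [prod_div_distrib, hm]
        push_cast
        ring

end Pool.Agent.H64.QM
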