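import Mathlib
import Pool.Agent.H64.PM.CQ2
import Pool.Agent.H64.QM.S1

/-!
# The polynomial `w ^ deg f * f (m / w)` and its roots
-/

set_option autoImplicit false

namespace Pool.Agent.H64.QM

open Finset Pool.Agent.W262.RK Polynomial
open Pool.Agent.H64.PM (Zr rho dvd_congr ty Smp Om Om2)

/-- the form: `w ^ deg f * f (m / w)` -/
noncomputable def sc (f : ℤ[X]) (w : ℕ) : ℤ[X] := f.scaleRoots (w : ℤ)

lemma sc_eval_mul (f : ℤ[X]) (w : ℕ) (x : ℤ) :
    (sc f w).eval (w * x) = (w : ℤ) ^ f.natDegree * f.eval x :=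
  Polynomial.scaleRoots_eval_mul _ _ _

lemma sc_mul (f g : ℤ[X]) (w : ℕ) : sc (f * g) w = sc f w * sc g w :=
  Polynomial.mul_scaleRoots_of_noZeroDivisors _ _ _

lemma sc_sub (f g : ℤ[X]) (w : ℕ) (h : f.natDegree = g.natDegree)
    (h' : (f - g).natDegree = f.natDegree) : sc (f - g) w = sc f w - sc g w := by
  ext i
  unfold sc
  rw [coeff_sub, coeff_scaleRoots, coeff_scaleRoots, coeff_scaleRoots, h', h, coeff_sub]
  ring

lemma sc_natDegree (f : ℤ[X]) (w : ℕ) : (sc f w).natDegree = f.natDegree :=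
  Polynomial.natDegree_scaleRoots _ _

/-- the value as a rational number -/
lemma sc_eval_rat (f : ℤ[X]) (w : ℕ) (hw : w ≠ 0) (m : ℤ) :
    (((sc f w).eval m : ℤ) : ℚ) = (w : ℚ) ^ f.natDegree *
      (f.map (Int.castRingHom ℚ)).eval ((m : ℚ) / w) := by
  have h1 := scaleRoots_eval₂_mul (p := f) (Int.castRingHom ℚ) ((m : ℚ) / w) (w : ℤ)
  have hwq : (w : ℚ) ≠ 0 := by exact_mod_cast hw
  have h2 : (Int.castRingHom ℚ) (w : ℤ) = (w : ℚ) := by simp
  rw [h2, mul_div_cancel₀ _ hwq] at h1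
  rw [Polynomial.eval_map, ← h1]
  unfold sc
  have h3 : (m : ℚ) = (Int.castRingHom ℚ) m := rfl
  rw [h3, Polynomial.eval₂_at_apply]
  rfl

lemma exists_inv {p w : ℕ} (hp : p.Prime) (hw : ¬ p ∣ w) (k : ℕ) :
    ∃ w' : ℤ, (p : ℤ) ^ k ∣ (w : ℤ) * w' - 1 := by
  have h1 : IsCoprime (w : ℤ) ((p : ℤ) ^ k) := by
    apply IsCoprime.pow_right
    rw [Nat.isCoprime_iff_coprime]
    exact ((Nat.Prime.coprime_iff_not_dvd hp).2 hw).symm
  obtain ⟨a, b, hab⟩ := h1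
  exact ⟨a, ⟨-b, by linear_combination hab⟩⟩

/-- simple roots modulo one prime -/
def Sp (f : ℤ[X]) (p : ℕ) : Prop := ∀ x : ℤ, (p : ℤ) ∣ f.eval x → ¬ (p : ℤ) ∣ f.derivative.eval x

lemma Sp_of {f : ℤ[X]} {z p : ℕ} (h : Smp f z) (hp : p.Prime) (hz : z < p) : Sp f p :=
  fun x => h p hp hz x

lemma sc_deriv (f : ℤ[X]) (w : ℕ) (x : ℤ) :
    (w : ℤ) * (sc f w).derivative.eval (w * x) = (w : ℤ) ^ f.natDegree * f.derivative.eval x := by
  have h1 : (sc f w).comp (C (w : ℤ) * X) = C ((w : ℤ) ^ f.natDegree) * f := by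
    apply Polynomial.funext
    intro r
    rw [eval_comp, eval_mul, eval_C, eval_X, eval_mul, eval_C, sc_eval_mul]
  have h2 := congrArg (fun g : ℤ[X] => g.derivative.eval x) h1
  simp only [derivative_comp, derivative_mul, derivative_C, derivative_X, eval_mul, eval_comp,
    eval_C, eval_X, zero_mul, zero_add, mul_one] at h2
  exact h2

/-- the divisibility is preserved -/
lemma sc_dvd {f : ℤ[X]} {p w : ℕ} (hp : p.Prime) (hw : ¬ p ∣ w) (k : ℕ) {x y : ℤ}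
    (h : (p : ℤ) ^ k ∣ y - w * x) : (p : ℤ) ^ k ∣ (sc f w).eval y ↔ (p : ℤ) ^ k ∣ f.eval x := by
  rw [dvd_congr (sc f w) h, sc_eval_mul]
  have h1 : IsCoprime ((p : ℤ) ^ k) ((w : ℤ) ^ f.natDegree) := by
    apply IsCoprime.pow
    rw [Nat.isCoprime_iff_coprime]
    exact (Nat.Prime.coprime_iff_not_dvd hp).2 hw
  exact ⟨fun h2 => h1.dvd_of_dvd_mul_left h2, fun h2 => h2.mul_left _⟩

lemma Sp_sc {f : ℤ[X]} {p w : ℕ} (hf : Sp f p) (hp : p.Prime) (hw : ¬ p ∣ w) : Sp (sc f w) p := by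
  intro y hy hy'
  have hpi : Prime (p : ℤ) := Nat.prime_iff_prime_int.1 hp
  obtain ⟨w', hw'⟩ := exists_inv hp hw 1
  rw [pow_one] at hw'
  have h0 : (p : ℤ) ∣ y - w * (w' * y) := by
    obtain ⟨c, hc⟩ := hw'
    exact ⟨-(c * y), by linear_combination (-y) * hc⟩
  have h1 := (sc_dvd (f := f) hp hw 1 (x := w' * y) (y := y) (by rwa [pow_one])).1
    (by rwa [pow_one])
  rw [pow_one] at h1
  apply hf _ h1
  have h2 : (p : ℤ) ∣ (sc f w).derivative.eval (w * (w' * y)) := (dvd_congr _ h0).1 hy'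
  have h3 : (p : ℤ) ∣ (w : ℤ) ^ f.natDegree * f.derivative.eval (w' * y) := by
    rw [← sc_deriv]
    exact h2.mul_left _
  rcases hpi.dvd_or_dvd h3 with h4 | h4
  · exfalso
    exact hw (Int.natCast_dvd_natCast.1 (hpi.dvd_of_dvd_pow h4))
  · exact h4

lemma rho_sc {f : ℤ[X]} {p w : ℕ} (hp : p.Prime) (hw : ¬ p ∣ w) : rho (sc f w) p = rho f p := by
  classical
  have : Fact p.Prime := ⟨hp⟩
  have hw' : (w : ZMod p) ≠ 0 := fun h => hw ((ZMod.natCast_eq_zero_iff _ _).1 h)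
  have key : ∀ a b : ℤ, (a : ZMod p) = (b : ZMod p) → (p : ℤ) ^ 1 ∣ a - b := by
    intro a b h
    rw [pow_one, ← ZMod.intCast_zmod_eq_zero_iff_dvd]
    push_cast
    rw [h, sub_self]
  unfold rho Zr
  refine card_nbij' (fun n : ℕ => ((w : ZMod p)⁻¹ * (n : ZMod p)).val)
    (fun x : ℕ => ((w : ZMod p) * (x : ZMod p)).val) ?_ ?_ ?_ ?_
  · intro n hn
    rw [mem_coe, mem_filter] at hn
    rw [mem_coe, mem_filter]
    refine ⟨mem_range.2 (ZMod.val_lt _), ?_⟩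
    have h1 := (sc_dvd (f := f) hp hw 1 (x := ((((w : ZMod p)⁻¹ * (n : ZMod p)).val : ℕ) : ℤ))
      (y := (n : ℤ)) (key _ _ (by
        push_cast
        rw [ZMod.natCast_zmod_val]
        field_simp))).1 (by rw [pow_one]; exact hn.2)
    rwa [pow_one] at h1
  · intro x hx
    rw [mem_coe, mem_filter] at hx
    rw [mem_coe, mem_filter]
    refine ⟨mem_range.2 (ZMod.val_lt _), ?_⟩
    have h1 := (sc_dvd (f := f) hp hw 1 (x := (x : ℤ))
      (y := ((((w : ZMod p) * (x : ZMod p)).val : ℕ) : ℤ)) (key _ _ (by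
        push_cast
        rw [ZMod.natCast_zmod_val]))).2 (by rw [pow_one]; exact hx.2)
    rwa [pow_one] at h1
  · intro n hn
    rw [mem_coe, mem_filter, mem_range] at hn
    show ((w : ZMod p) * ((((w : ZMod p)⁻¹ * (n : ZMod p)).val : ℕ) : ZMod p)).val = n
    rw [ZMod.natCast_zmod_val]
    have : (w : ZMod p) * ((w : ZMod p)⁻¹ * (n : ZMod p)) = n := by field_simp
    rw [this]
    exact ZMod.val_natCast_of_lt hn.1
  · intro x hx
    rw [mem_coe, mem_filter, mem_range] at hx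
    show ((w : ZMod p)⁻¹ * ((((w : ZMod p) * (x : ZMod p)).val : ℕ) : ZMod p)).val = x
    rw [ZMod.natCast_zmod_val]
    have : (w : ZMod p)⁻¹ * ((w : ZMod p) * (x : ZMod p)) = x := by field_simp
    rw [this]
    exact ZMod.val_natCast_of_lt hx.1

/-- no common divisors with `w` -/
lemma sc_not_dvd {f : ℤ[X]} {p w m : ℕ} (hp : p.Prime) (hpw : p ∣ w) (hm : m.Coprime w)
    (hl : ¬ (p : ℤ) ∣ f.leadingCoeff) : ¬ (p : ℤ) ∣ (sc f w).eval (m : ℤ) := by
  have hpi : Prime (p : ℤ) := Nat.prime_iff_prime_int.1 hp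
  intro h
  rw [eval_eq_sum_range, sc_natDegree, sum_range_succ] at h
  have h1 : (p : ℤ) ∣ ∑ i ∈ range f.natDegree, (sc f w).coeff i * (m : ℤ) ^ i := by
    refine dvd_sum fun i hi => ?_
    have hi' := mem_range.1 hi
    unfold sc
    rw [coeff_scaleRoots]
    refine Dvd.dvd.mul_right (Dvd.dvd.mul_left ?_ _) _
    exact (Int.natCast_dvd_natCast.2 hpw).trans (dvd_pow_self _ (by omega))
  have h2 := (dvd_add_right h1).1 h
  unfold sc at h2
  rw [coeff_scaleRoots_natDegree] at h2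
  rcases hpi.dvd_or_dvd h2 with h3 | h3
  · exact hl h3
  · have h4 := Int.natCast_dvd_natCast.1 (hpi.dvd_of_dvd_pow h3)
    exact hp.one_lt.ne' (Nat.dvd_one.1 (hm ▸ Nat.dvd_gcd h4 hpw))

lemma lift_injS {f : ℤ[X]} {p : ℕ} (hf : Sp f p) (hp : p.Prime) {r r' : ℕ}
    (hr : r < p ^ 2) (hr' : r' < p ^ 2) (h1 : (p : ℤ) ∣ f.eval (r : ℤ)) (hm : r % p = r' % p)
    (h2 : (p : ℤ) ^ 2 ∣ f.eval (r' : ℤ) - f.eval (r : ℤ)) : r = r' := by
  have hpi : Prime (p : ℤ) := Nat.prime_iff_prime_int.1 hp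
  obtain ⟨k, hk⟩ := Polynomial.binomExpansion f (r : ℤ) ((r' : ℤ) - r)
  have hd : (p : ℤ) ∣ (r' : ℤ) - r := by
    have h3 : r ≡ r' [MOD p] := hm
    exact Nat.modEq_iff_dvd.1 h3
  obtain ⟨h, hh⟩ := hd
  have e1 : (r : ℤ) + ((r' : ℤ) - r) = r' := by ring
  rw [e1] at hk
  have h3 : (p : ℤ) ^ 2 ∣ f.derivative.eval (r : ℤ) * ((r' : ℤ) - r) := by
    have h4 : f.derivative.eval (r : ℤ) * ((r' : ℤ) - r) =
        (f.eval (r' : ℤ) - f.eval (r : ℤ)) - k * ((r' : ℤ) - r) ^ 2 := by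
      linear_combination -hk
    rw [h4]
    refine dvd_sub h2 ?_
    rw [hh, mul_pow]
    exact (dvd_mul_right _ _).mul_left _
  have h5 : IsCoprime ((p : ℤ) ^ 2) (f.derivative.eval (r : ℤ)) :=
    IsCoprime.pow_left ((Prime.coprime_iff_not_dvd hpi).2 (hf _ h1))
  have h6 : (p : ℤ) ^ 2 ∣ (r' : ℤ) - r := h5.dvd_of_dvd_mul_left h3
  have h7 : r ≡ r' [MOD p ^ 2] := by
    apply Nat.modEq_iff_dvd.2
    exact_mod_cast h6
  exact Nat.ModEq.eq_of_lt_of_lt h7 hr hr'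

lemma card_OmS {f : ℤ[X]} {p : ℕ} (hf : Sp f p) (hp : p.Prime) (hp2 : p ≠ 2)
    (τ : ℕ × Bool) : 2 * (Om f p τ).card ≤ p - 1 := by
  classical
  have hpi : Prime (p : ℤ) := Nat.prime_iff_prime_int.1 hp
  have hp0 : (p : ℤ) ≠ 0 := hpi.ne_zero
  have hppos : (0 : ℤ) < p := by exact_mod_cast hp.pos
  set e : ℤ := if τ.2 = true then -1 else 1 with he
  have he' : e = 1 ∨ e = -1 := by
    rw [he]
    split_ifs
    · exact Or.inr rfl
    · exact Or.inl rfl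
  rw [← Pool.Agent.W372.RK2.card_W hp hp2 e he']
  refine Nat.mul_le_mul_left 2 ?_
  refine card_le_card_of_injOn (fun r : ℕ => ((f.eval (r : ℤ) / p) % p).toNat) ?_ ?_
  · intro r hr
    rw [mem_coe, Om, mem_filter] at hr
    obtain ⟨_, h1, h2, h3⟩ := hr
    rw [mem_coe, mem_filter, mem_range]
    have h4 : 0 ≤ (f.eval (r : ℤ) / p) % p := Int.emod_nonneg _ hp0
    have h5 : (f.eval (r : ℤ) / p) % p < p := Int.emod_lt_of_pos _ hppos
    refine ⟨by show ((f.eval (r : ℤ) / p) % p).toNat < p; omega, ?_⟩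
    show jacobiSym (((((f.eval (r : ℤ) / p) % p).toNat : ℕ) : ℤ)) p = e
    rw [Int.toNat_of_nonneg h4, ← jacobiSym.mod_left]
    have h6 : decide (jacobiSym (f.eval (r : ℤ) / p) p = -1) = τ.2 := congrArg Prod.snd h3
    by_cases h7 : jacobiSym (f.eval (r : ℤ) / p) p = -1
    · rw [h7] at h6 ⊢
      rw [he, if_pos]
      rw [← h6]
      rfl
    · have h8 : τ.2 = false := by
        rw [← h6]
        exact decide_eq_false h7
      have h9 : (f.eval (r : ℤ) / p).gcd p = 1 := by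
        rw [← Int.isCoprime_iff_gcd_eq_one]
        refine IsCoprime.symm ((Prime.coprime_iff_not_dvd hpi).2 fun h8 => h2 ?_)
        obtain ⟨q, hq⟩ := h1
        rw [hq, Int.mul_ediv_cancel_left _ hp0] at h8
        rw [hq, pow_two]
        exact mul_dvd_mul_left _ h8
      rw [he, if_neg (by rw [h8]; decide)]
      exact (jacobiSym.eq_one_or_neg_one h9).resolve_right h7
  · intro r hr r' hr' hrr
    rw [mem_coe, Om, mem_filter, mem_range] at hr hr'
    obtain ⟨h0, h1, h2, h3⟩ := hr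
    obtain ⟨h0', h1', h2', h3'⟩ := hr'
    have h4 : 0 ≤ (f.eval (r : ℤ) / p) % p := Int.emod_nonneg _ hp0
    have h4' : 0 ≤ (f.eval (r' : ℤ) / p) % p := Int.emod_nonneg _ hp0
    have h5 : (f.eval (r : ℤ) / p) % p = (f.eval (r' : ℤ) / p) % p := by
      simp only at hrr
      omega
    have hm : r % p = r' % p := by
      have e1 : r % p = τ.1 := congrArg Prod.fst h3
      have e2 : r' % p = τ.1 := congrArg Prod.fst h3'
      rw [e1, e2]
    refine lift_injS hf hp h0 h0' h1 hm ?_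
    have h6 : (p : ℤ) ∣ f.eval (r' : ℤ) / p - f.eval (r : ℤ) / p := Int.ModEq.dvd h5
    obtain ⟨q, hq⟩ := h1
    obtain ⟨q', hq'⟩ := h1'
    rw [hq, hq', Int.mul_ediv_cancel_left _ hp0, Int.mul_ediv_cancel_left _ hp0] at h6
    rw [hq, hq', ← mul_sub, pow_two]
    exact mul_dvd_mul_left _ h6

lemma card_Om2S {f : ℤ[X]} {p : ℕ} (hf : Sp f p) (hp : p.Prime) :
    (Om2 f p).card ≤ rho f p := by
  unfold rho
  refine card_le_card_of_injOn (fun r => r % p) ?_ ?_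
  · intro r hr
    rw [mem_coe, Om2, mem_filter] at hr
    rw [mem_coe, Zr, mem_filter, mem_range]
    refine ⟨Nat.mod_lt _ hp.pos, ?_⟩
    have h1 : (p : ℤ) ∣ f.eval (r : ℤ) := (dvd_pow_self (p : ℤ) two_ne_zero).trans hr.2
    refine (dvd_congr f ?_).1 h1
    have h2 : ((r % p : ℕ) : ℤ) = (r : ℤ) - p * (r / p : ℕ) := by
      have := Nat.mod_add_div r p
      zify at this ⊢
      linarith
    show (p : ℤ) ∣ (r : ℤ) - ((r % p : ℕ) : ℤ)
    rw [h2]
    exact ⟨(r / p : ℕ), by ring⟩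
  · intro r hr r' hr' hrr
    rw [mem_coe, Om2, mem_filter, mem_range] at hr hr'
    exact lift_injS hf hp hr.1 hr'.1 ((dvd_pow_self (p : ℤ) two_ne_zero).trans hr.2) hrr
      (dvd_sub hr'.2 hr.2)

/-- the type of the pair `(m, w)` at `p`: the residue of `m / w` and the sign of the quotient -/
noncomputable def ty2 (f : ℤ[X]) (w p m : ℕ) : ℕ × Bool :=
  (((m : ZMod p) * (w : ZMod p)⁻¹).val,
    decide (jacobiSym ((sc f w).eval (m : ℤ) / p) p = -1))

lemma ty2_dvd {f : ℤ[X]} {w p m : ℕ} (hp : p.Prime) (hw : ¬ p ∣ w) :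
    (p : ℤ) ∣ (m : ℤ) - w * ((ty2 f w p m).1 : ℤ) := by
  have : Fact p.Prime := ⟨hp⟩
  have hw' : (w : ZMod p) ≠ 0 := fun h => hw ((ZMod.natCast_eq_zero_iff _ _).1 h)
  rw [← ZMod.intCast_zmod_eq_zero_iff_dvd]
  unfold ty2
  push_cast
  rw [ZMod.natCast_zmod_val]
  field_simp
  ring

lemma ty2_lt {f : ℤ[X]} {w p m : ℕ} (hp : p.Prime) : (ty2 f w p m).1 < p := by
  have : NeZero p := ⟨hp.ne_zero⟩
  exact ZMod.val_lt _

/-- the two notions of the type -/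
lemma ty_of_ty2 {f : ℤ[X]} {w p m : ℕ} (hp : p.Prime) (hw : ¬ p ∣ w) :
    ty (sc f w) p m = ((w * (ty2 f w p m).1) % p, (ty2 f w p m).2) := by
  have h1 := ty2_dvd (f := f) (m := m) hp hw
  refine Prod.ext ?_ rfl
  show m % p = (w * (ty2 f w p m).1) % p
  have h2 : (w * (ty2 f w p m).1 : ℕ) ≡ m [MOD p] := by
    rw [Nat.modEq_iff_dvd]
    push_cast
    exact h1
  exact h2.symm

end Pool.Agent.H64.QM
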