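import Mathlib
import Pool.Agent.H64.QM.S3

/-!
# The average of the factor at the primes that divide `w`
-/

set_option autoImplicit false

namespace Pool.Agent.H64.QM

open Finset Pool.Agent.W262.RK

lemma avg_prod (a : ℕ → ℝ) (ha : ∀ p, 0 ≤ a p) (X : ℕ) :
    ∑ w ∈ Icc 1 X, ∏ p ∈ w.primeFactors, (1 + a p) ≤
      X * ∏ p ∈ (range (X + 1)).filter Nat.Prime, (1 + a p / p) := by
  classical
  set Q := (range (X + 1)).filter Nat.Prime with hQ
  have h1 : ∀ w ∈ Icc 1 X, ∏ p ∈ w.primeFactors, (1 + a p) =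
      ∑ T ∈ Q.powerset, if T ⊆ w.primeFactors then ∏ p ∈ T, a p else 0 := by
    intro w hw
    rw [Finset.prod_one_add, ← sum_filter]
    congr 1
    ext T
    rw [mem_powerset, mem_filter, mem_powerset]
    refine ⟨fun h => ⟨h.trans ?_, h⟩, fun h => h.2⟩
    intro p hp
    have h2 := Nat.prime_of_mem_primeFactors hp
    have h3 := Nat.le_of_dvd (mem_Icc.1 hw).1 (Nat.dvd_of_mem_primeFactors hp)
    have h4 := (mem_Icc.1 hw).2
    rw [hQ, mem_filter, mem_range]
    exact ⟨by omega, h2⟩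
  rw [sum_congr rfl h1, sum_comm]
  have h2 : ∀ T ∈ Q.powerset, (∑ w ∈ Icc 1 X, if T ⊆ w.primeFactors then ∏ p ∈ T, a p else 0) ≤
      X * ∏ p ∈ T, (a p / p) := by
    intro T hT
    rw [mem_powerset] at hT
    have hTp : ∀ p ∈ T, p.Prime := fun p hp => (mem_filter.1 (hT hp)).2
    rw [← sum_filter, sum_const, nsmul_eq_mul]
    have h3 : ((Icc 1 X).filter (fun w => T ⊆ w.primeFactors)).card ≤ X / ∏ p ∈ T, p := by
      rw [← Nat.Ioc_filter_dvd_card_eq_div]
      refine card_le_card ?_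
      intro w hw
      rw [mem_filter, mem_Icc] at hw
      rw [mem_filter, mem_Ioc]
      refine ⟨⟨by omega, hw.1.2⟩, ?_⟩
      exact Finset.prod_primes_dvd w (fun p hp => (hTp p hp).prime)
        (fun p hp => Nat.dvd_of_mem_primeFactors (hw.2 hp))
    have h4 : (0 : ℝ) < ∏ p ∈ T, (p : ℝ) := prod_pos fun p hp => by
      exact_mod_cast (hTp p hp).pos
    have h5 : (((Icc 1 X).filter (fun w => T ⊆ w.primeFactors)).card : ℝ) ≤
        X / ∏ p ∈ T, (p : ℝ) := by
      have h6 : (((Icc 1 X).filter (fun w => T ⊆ w.primeFactors)).card : ℝ) ≤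
        ((X / ∏ p ∈ T, p : ℕ) : ℝ) := by exact_mod_cast h3
      refine h6.trans (le_trans Nat.cast_div_le ?_)
      push_cast
      exact le_rfl
    rw [prod_div_distrib, ← mul_div_assoc]
    calc (((Icc 1 X).filter (fun w => T ⊆ w.primeFactors)).card : ℝ) * ∏ p ∈ T, a p
        ≤ (X / ∏ p ∈ T, (p : ℝ)) * ∏ p ∈ T, a p :=
          mul_le_mul_of_nonneg_right h5 (prod_nonneg fun p _ => ha p)
      _ = _ := by ring
  refine (sum_le_sum h2).trans ?_
  rw [← mul_sum, Finset.prod_one_add]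

lemma sum_inv_sq' : ∃ C : ℝ, 0 ≤ C ∧ ∀ S : Finset ℕ, ∑ p ∈ S, 1 / (p : ℝ) ^ 2 ≤ C := by
  have h : Summable (fun n : ℕ => 1 / (n : ℝ) ^ 2) :=
    Real.summable_one_div_nat_pow.2 (by norm_num)
  exact ⟨∑' n : ℕ, 1 / (n : ℝ) ^ 2, tsum_nonneg fun n => by positivity,
    fun S => h.sum_le_tsum _ fun n _ => by positivity⟩

/-- the average of the factor -/
theorem avg_hw (n : ℕ) : ∃ C : ℝ, 0 ≤ C ∧ ∀ z X : ℕ, ∑ w ∈ Icc 1 X, hw n z w ≤ C * X := by
  obtain ⟨C, hC0, hC⟩ := sum_inv_sq'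
  refine ⟨Real.exp (2 * n * C), (Real.exp_pos _).le, fun z X => ?_⟩
  have h1 : ∀ w ∈ Icc 1 X, hw n z w ≤ ∏ p ∈ w.primeFactors, (1 + 2 * (n : ℝ) / p) := by
    intro w _
    unfold hw
    refine prod_le_subR (filter_subset _ _) fun p _ => ?_
    have : (0 : ℝ) ≤ 2 * (n : ℝ) / p := by positivity
    linarith
  refine (sum_le_sum h1).trans ((avg_prod _ (fun p => by positivity) X).trans ?_)
  rw [mul_comm]
  refine mul_le_mul_of_nonneg_right ?_ (Nat.cast_nonneg _)
  calc ∏ p ∈ (range (X + 1)).filter Nat.Prime, (1 + 2 * (n : ℝ) / p / p)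
      ≤ ∏ p ∈ (range (X + 1)).filter Nat.Prime, Real.exp (2 * (n : ℝ) / p / p) := by
        refine prod_le_prod (fun p _ => by positivity) fun p _ => ?_
        have := Real.add_one_le_exp (2 * (n : ℝ) / p / p)
        linarith
    _ = Real.exp (2 * n * ∑ p ∈ (range (X + 1)).filter Nat.Prime, 1 / (p : ℝ) ^ 2) := by
        rw [← Real.exp_sum, mul_sum]
        congr 1
        refine sum_congr rfl fun p _ => ?_
        ring
    _ ≤ _ := by
        apply Real.exp_le_exp.2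
        exact mul_le_mul_of_nonneg_left (hC _) (by positivity)

end Pool.Agent.H64.QM
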