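import Mathlib
import Pool.Agent.H64.PM.RKQ
import Pool.Agent.H64.QM.S2

/-!
# The bound for the rank at a rational number `m / w`
-/

set_option autoImplicit false

namespace Pool.Agent.H64.QM

open Finset Pool.Agent.W262.RK Pool.Agent.W762.RK2 Polynomial
open Pool.Agent.H64.PM (Zr rho dvd_congr ty Smp fT clq kpq LcQ nsq badQ XC_LcQ kpq_ne q1 q2 q1_mem
  q1_prime)

lemma jac_sq {p : ℕ} (hp : p.Prime) {a b u : ℤ} (h : b ≡ u ^ 2 * a [ZMOD p]) (hb : ¬ (p : ℤ) ∣ b) :
    jacobiSym (a * b) p = 1 := by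
  have hpi : Prime (p : ℤ) := Nat.prime_iff_prime_int.1 hp
  have h1 : a * b ≡ (u * a) ^ 2 [ZMOD p] := by
    have h2 := h.mul_left a
    have h3 : a * (u ^ 2 * a) = (u * a) ^ 2 := by ring
    rwa [h3] at h2
  rw [jacobiSym.mod_left' h1]
  apply jacobiSym.sq_one'
  rw [← Int.isCoprime_iff_gcd_eq_one]
  refine IsCoprime.symm ((Prime.coprime_iff_not_dvd hpi).2 fun h2 => hb ?_)
  have h3 : (p : ℤ) ∣ u ^ 2 * a := by
    have h4 : u ^ 2 * a = u * (u * a) := by ring
    rw [h4]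
    exact h2.mul_left _
  have h4 : (p : ℤ) ∣ u ^ 2 * a - b := h.dvd
  exact (dvd_sub_right h3).1 h4

lemma jac_mul_sq {p : ℕ} (hp : p.Prime) {a b u : ℤ} (h : b ≡ u ^ 2 * a [ZMOD p])
    (hu : ¬ (p : ℤ) ∣ u) : jacobiSym a p = jacobiSym b p := by
  have hpi : Prime (p : ℤ) := Nat.prime_iff_prime_int.1 hp
  rw [jacobiSym.mod_left' h, jacobiSym.mul_left, jacobiSym.sq_one', one_mul]
  rw [← Int.isCoprime_iff_gcd_eq_one]
  exact IsCoprime.symm ((Prime.coprime_iff_not_dvd hpi).2 hu)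

lemma sc_congr (G : ℤ[X]) {w : ℕ} {p t x : ℤ} (h : p ∣ t - w * x) :
    (sc G w).eval t ≡ (w : ℤ) ^ G.natDegree * G.eval x [ZMOD p] := by
  rw [← sc_eval_mul]
  exact ((Int.modEq_iff_dvd).2 (h.trans (Polynomial.sub_dvd_eval_sub _ _ (sc G w)))).symm

variable {A B D : ℤ[X]} {z w : ℕ}

/-- the degrees -/
structure DH (A B D : ℤ[X]) : Prop where
  ab : A.natDegree = B.natDegree
  ac : (A - B).natDegree = A.natDegree
  ev : Even (A.natDegree + D.natDegree)

lemma sc_fT (h : DH A B D) (w : ℕ) : sc (fT A B D) w = fT (sc A w) (sc B w) (sc D w) := by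
  unfold fT
  rw [sc_mul, sc_mul, sc_mul, sc_sub A B w h.ab h.ac]

/-- the local hypotheses hold -/
lemma locHQ2 (hd : DH A B D) {p : ℕ} (hp : p.Prime) (hpw : ¬ p ∣ w) {t x : ℤ}
    (htx : (p : ℤ) ∣ t - w * x)
    (h1 : (p : ℤ) ∣ (sc (fT A B D) w).eval t) (h2 : ¬ (p : ℤ) ^ 2 ∣ (sc (fT A B D) w).eval t)
    {neg : Bool} (hneg : neg = decide (jacobiSym ((sc (fT A B D) w).eval t / p) p = -1)) :
    LocH (clq A B p x) (kpq A B D p x) neg p ((sc A w * sc D w).eval t)
      ((sc B w * sc D w).eval t) := by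
  have hpi : Prime (p : ℤ) := Nat.prime_iff_prime_int.1 hp
  have hp0 : (p : ℤ) ≠ 0 := hpi.ne_zero
  have hpwi : ¬ (p : ℤ) ∣ (w : ℤ) := fun h => hpw (Int.natCast_dvd_natCast.1 h)
  have hpwk : ∀ k : ℕ, ¬ (p : ℤ) ∣ (w : ℤ) ^ k := fun k h => hpwi (hpi.dvd_of_dvd_pow h)
  obtain ⟨k, hk⟩ := hd.ev
  set d := A.natDegree with hdd
  have hBd : B.natDegree = d := hd.ab.symm
  have hCd : (A - B).natDegree = d := hd.ac
  -- the values
  obtain ⟨a, ha⟩ : ∃ a, a = (sc A w).eval t := ⟨_, rfl⟩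
  obtain ⟨b, hb⟩ : ∃ b, b = (sc B w).eval t := ⟨_, rfl⟩
  obtain ⟨c, hc⟩ : ∃ c, c = (sc (A - B) w).eval t := ⟨_, rfl⟩
  obtain ⟨e, he⟩ : ∃ e, e = (sc D w).eval t := ⟨_, rfl⟩
  have hcab : a - b = c := by
    rw [ha, hb, hc, sc_sub A B w hd.ab hd.ac, eval_sub]
  have ca : a ≡ (w : ℤ) ^ d * A.eval x [ZMOD p] := by
    rw [ha]
    exact sc_congr A htx
  have cb : b ≡ (w : ℤ) ^ d * B.eval x [ZMOD p] := by
    rw [hb, ← hBd]
    exact sc_congr B htx
  have cc : c ≡ (w : ℤ) ^ d * (A - B).eval x [ZMOD p] := by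
    rw [hc, ← hCd]
    exact sc_congr (A - B) htx
  have ce : e ≡ (w : ℤ) ^ D.natDegree * D.eval x [ZMOD p] := by
    rw [he]
    exact sc_congr D htx
  have hdv : ∀ {k : ℕ} {u v : ℤ}, u ≡ (w : ℤ) ^ k * v [ZMOD p] → ((p : ℤ) ∣ v ↔ (p : ℤ) ∣ u) := by
    intro k u v h
    have h3 : (p : ℤ) ∣ (w : ℤ) ^ k * v - u := h.dvd
    constructor
    · intro h4
      exact (dvd_sub_right (h4.mul_left _)).1 h3
    · intro h4
      have h5 : (p : ℤ) ∣ (w : ℤ) ^ k * v := (dvd_sub_left h4).1 h3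
      exact (hpi.dvd_or_dvd h5).resolve_left (hpwk k)
  have hA := hdv ca
  have hB := hdv cb
  have hC := hdv cc
  have hE := hdv ce
  have hfe : (sc (fT A B D) w).eval t = a * (b * (c * e)) := by
    unfold fT
    rw [sc_mul, sc_mul, sc_mul, eval_mul, eval_mul, eval_mul, ← ha, ← hb, ← hc, ← he]
    ring
  have hAD : (sc A w * sc D w).eval t = a * e := by rw [eval_mul, ha, he]
  have hBD : (sc B w * sc D w).eval t = b * e := by rw [eval_mul, hb, he]
  rw [hfe] at h1 h2 hneg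
  rw [hAD, hBD]
  have hfe1 : a * (b * (c * e)) = b * (a * (c * e)) := by ring
  have hfe2 : a * (b * (c * e)) = c * (a * (b * e)) := by ring
  have hfe3 : a * (b * (c * e)) = e * (a * (b * c)) := by ring
  have hAB : a * e - b * e = c * e := by rw [← hcab]; ring
  have hsqw : ∀ v : ℤ, (w : ℤ) ^ d * v * ((w : ℤ) ^ D.natDegree) = ((w : ℤ) ^ k) ^ 2 * v := by
    intro v
    have h3 : (w : ℤ) ^ d * (w : ℤ) ^ D.natDegree = ((w : ℤ) ^ k) ^ 2 := by
      rw [← pow_add, hk, ← pow_mul]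
      congr 1
      ring
    rw [← h3]
    ring
  have hx1 : b * e ≡ ((w : ℤ) ^ k) ^ 2 * (B * D).eval x [ZMOD p] := by
    refine (cb.mul ce).trans (congrArg (fun u => u % (p : ℤ)) ?_)
    rw [eval_mul, ← hsqw]
    ring
  have hx2 : a * e ≡ ((w : ℤ) ^ k) ^ 2 * (A * D).eval x [ZMOD p] := by
    refine (ca.mul ce).trans (congrArg (fun u => u % (p : ℤ)) ?_)
    rw [eval_mul, ← hsqw]
    ring
  unfold clq kpq
  by_cases a0 : (p : ℤ) ∣ A.eval x
  · rw [if_pos a0, if_pos a0]
    have a1 := hA.1 a0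
    have n1 := nsq h2 a1
    have nB : ¬ (p : ℤ) ∣ b * e := by
      intro h
      apply n1
      have : b * (c * e) = c * (b * e) := by ring
      rw [this]
      exact h.mul_left _
    unfold LocH
    rw [if_pos rfl]
    refine ⟨a1.mul_right _, ?_, nB, ?_⟩
    · intro h
      apply h2
      have : a * (b * (c * e)) = a * e * (b * c) := by ring
      rw [this]
      exact h.mul_right _
    · show jacobiSym (-((B * D).eval x) * -(b * e)) p = 1
      rw [neg_mul_neg]
      exact jac_sq hp hx1 nB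
  rw [if_neg a0, if_neg a0]
  by_cases b0 : (p : ℤ) ∣ B.eval x
  · rw [if_pos b0, if_pos b0]
    have a1 := hB.1 b0
    have n1 := nsq (hfe1 ▸ h2) a1
    have nA : ¬ (p : ℤ) ∣ a * e := by
      intro h
      apply n1
      have : a * (c * e) = c * (a * e) := by ring
      rw [this]
      exact h.mul_left _
    unfold LocH
    rw [if_neg (by decide), if_pos rfl]
    refine ⟨a1.mul_right _, ?_, nA, ?_⟩
    · intro h
      apply h2
      have : a * (b * (c * e)) = b * e * (a * c) := by ring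
      rw [this]
      exact h.mul_right _
    · show jacobiSym (-((A * D).eval x) * -(a * e)) p = 1
      rw [neg_mul_neg]
      exact jac_sq hp hx2 nA
  rw [if_neg b0, if_neg b0]
  by_cases c0 : (p : ℤ) ∣ (A - B).eval x
  · rw [if_pos c0, if_pos c0]
    have a1 := hC.1 c0
    have n1 := nsq (hfe2 ▸ h2) a1
    have nA : ¬ (p : ℤ) ∣ a * e := by
      intro h
      apply n1
      have : a * (b * e) = b * (a * e) := by ring
      rw [this]
      exact h.mul_left _
    unfold LocH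
    rw [if_neg (by decide), if_neg (by decide), if_pos rfl, hAB]
    refine ⟨a1.mul_right _, ?_, nA, ?_⟩
    · intro h
      apply h2
      have : a * (b * (c * e)) = c * e * (a * b) := by ring
      rw [this]
      exact h.mul_right _
    · exact jac_sq hp hx2 nA
  rw [if_neg c0, if_neg c0]
  have nA : ¬ (p : ℤ) ∣ a := fun h => a0 (hA.2 h)
  have nB : ¬ (p : ℤ) ∣ b := fun h => b0 (hB.2 h)
  have nC : ¬ (p : ℤ) ∣ c := fun h => c0 (hC.2 h)
  have hD : (p : ℤ) ∣ e := by
    rcases hpi.dvd_or_dvd h1 with h | h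
    · exact absurd h nA
    · rcases hpi.dvd_or_dvd h with h | h
      · exact absurd h nB
      · exact (hpi.dvd_or_dvd h).resolve_left nC
  obtain ⟨q, hq⟩ := hD
  have eq : a * (b * (c * e)) / p = q * (a * (b * c)) := by
    rw [hfe3, hq, mul_assoc, Int.mul_ediv_cancel_left _ hp0]
  have e0 : a * e / p = q * a := by
    rw [hq]
    have : a * ((p : ℤ) * q) = p * (q * a) := by ring
    rw [this, Int.mul_ediv_cancel_left _ hp0]
  have e1 : b * e / p = q * b := by
    rw [hq]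
    have : b * ((p : ℤ) * q) = p * (q * b) := by ring
    rw [this, Int.mul_ediv_cancel_left _ hp0]
  have e2 : c * e / p = q * c := by
    rw [hq]
    have : c * ((p : ℤ) * q) = p * (q * c) := by ring
    rw [this, Int.mul_ediv_cancel_left _ hp0]
  have hJ : jacobiSym (a * (b * (c * e)) / p) p = if neg = true then -1 else 1 := by
    by_cases h3 : jacobiSym (a * (b * (c * e)) / p) p = -1
    · rw [hneg, h3]
      rfl
    · have h4 : neg = false := by
        rw [hneg]
        exact decide_eq_false h3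
      rw [h4, if_neg (by decide)]
      have h5 : (a * (b * (c * e)) / p).gcd p = 1 := by
        rw [← Int.isCoprime_iff_gcd_eq_one]
        refine IsCoprime.symm ((Prime.coprime_iff_not_dvd hpi).2 fun h8 => h2 ?_)
        obtain ⟨r, hr⟩ := h1
        rw [hr, Int.mul_ediv_cancel_left _ hp0] at h8
        rw [hr, pow_two]
        exact mul_dvd_mul_left _ h8
      exact (jacobiSym.eq_one_or_neg_one h5).resolve_right h3
  have hnsq : ∀ u v : ℤ, a * (b * (c * e)) = u * v → ¬ (p : ℤ) ^ 2 ∣ u := by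
    intro u v huv h
    apply h2
    rw [huv]
    exact h.mul_right _
  unfold LocH
  rw [if_neg (by decide), if_neg (by decide), if_neg (by decide), hAB, e0, e1, e2]
  refine ⟨?_, ?_, ?_, ?_, ?_, ?_, ?_, ?_⟩
  · rw [hq]
    exact ⟨a * q, by ring⟩
  · rw [hq]
    exact ⟨b * q, by ring⟩
  · exact hnsq _ (b * c) (by ring)
  · exact hnsq _ (a * c) (by ring)
  · exact hnsq _ (a * b) (by ring)
  · rw [← hJ, eq]
    refine jac_mul_sq hp (u := (w : ℤ) ^ d) ?_ (hpwk d)
    show q * (a * (b * c)) ≡ ((w : ℤ) ^ d) ^ 2 * (((B * (A - B)).eval x) * (q * a)) [ZMOD p]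
    have h3 := (cb.mul cc).mul_left (q * a)
    rw [eval_mul]
    have e3 : q * (a * (b * c)) = q * a * (b * c) := by ring
    rw [e3]
    exact h3.trans (congrArg (fun u => u % (p : ℤ)) (by ring))
  · rw [← hJ, eq]
    refine jac_mul_sq hp (u := (w : ℤ) ^ d) ?_ (hpwk d)
    show q * (a * (b * c)) ≡ ((w : ℤ) ^ d) ^ 2 * (((A * (A - B)).eval x) * (q * b)) [ZMOD p]
    have h3 := (ca.mul cc).mul_left (q * b)
    rw [eval_mul]
    have e3 : q * (a * (b * c)) = q * b * (a * c) := by ring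
    rw [e3]
    exact h3.trans (congrArg (fun u => u % (p : ℤ)) (by ring))
  · rw [← hJ, eq]
    refine jac_mul_sq hp (u := (w : ℤ) ^ d) ?_ (hpwk d)
    show q * (a * (b * c)) ≡ ((w : ℤ) ^ d) ^ 2 * (((A * B).eval x) * (q * c)) [ZMOD p]
    have h3 := (ca.mul cb).mul_left (q * c)
    rw [eval_mul]
    have e3 : q * (a * (b * c)) = q * c * (a * b) := by ring
    rw [e3]
    exact h3.trans (congrArg (fun u => u % (p : ℤ)) (by ring))

/-- the rank is bounded by the local count -/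
lemma rankQ2 {y X k m : ℕ} (hd : DH A B D) (hf : Smp (fT A B D) z) (hz2 : 2 ≤ z) (hy : 1 ≤ y)
    (hm : 1 ≤ m) (hlc : ∀ p : ℕ, p.Prime → z < p → ¬ (p : ℤ) ∣ (fT A B D).leadingCoeff)
    {t : ℕ} (htw : t.Coprime w) (h0 : (sc (fT A B D) w).eval (t : ℤ) ≠ 0)
    (hb : ((sc (fT A B D) w).eval (t : ℤ)).natAbs ≤ X ^ m)
    (hk : X < (y + 1) ^ k) :
    2 ^ Module.finrank ℤ (EAB ((sc A w * sc D w).eval (t : ℤ))
        ((sc B w * sc D w).eval (t : ℤ))).toAffine.Point ≤
      4 ^ (z + 2) * (4 ^ m) ^ k *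
        4 ^ (q2 z y ((sc (fT A B D) w).eval (t : ℤ))).primeFactors.card *
        NL (q1 z y ((sc (fT A B D) w).eval (t : ℤ)))
          (fun p => LcQ A B D p (ty2 (fT A B D) w p t)) := by
  set N := (sc (fT A B D) w).eval (t : ℤ) with hN
  set a := (sc A w * sc D w).eval (t : ℤ) with ha
  set b := (sc B w * sc D w).eval (t : ℤ) with hb'
  have hab : a - b = (sc A w - sc B w).eval (t : ℤ) * (sc D w).eval (t : ℤ) := by
    rw [ha, hb']
    simp only [eval_mul, eval_sub]
    ring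
  have hNe : N = (sc A w).eval (t : ℤ) * (sc B w).eval (t : ℤ) *
      (sc A w - sc B w).eval (t : ℤ) * (sc D w).eval (t : ℤ) := by
    rw [hN, sc_fT hd]
    unfold fT
    simp only [eval_mul]
  have hA0 : (sc A w).eval (t : ℤ) ≠ 0 := fun h => h0 (by rw [hNe, h]; ring)
  have hB0 : (sc B w).eval (t : ℤ) ≠ 0 := fun h => h0 (by rw [hNe, h]; ring)
  have hC0 : (sc A w - sc B w).eval (t : ℤ) ≠ 0 := fun h => h0 (by rw [hNe, h]; ring)
  have hD0 : (sc D w).eval (t : ℤ) ≠ 0 := fun h => h0 (by rw [hNe, h]; ring)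
  have ha0 : a ≠ 0 := by
    rw [ha, eval_mul]
    exact mul_ne_zero hA0 hD0
  have hb0 : b ≠ 0 := by
    rw [hb', eval_mul]
    exact mul_ne_zero hB0 hD0
  have hab0 : a - b ≠ 0 := by
    rw [hab]
    exact mul_ne_zero hC0 hD0
  set s := q1 z y N with hs
  have hmem : s ∈ (PP z y).divisors := q1_mem z y N
  have hodd : ∀ p : ℕ, p.Prime → p ∣ s → z < p ∧ p ≠ 2 := by
    intro p hp h
    have h1 := (dv_prime hmem hp h).1
    omega
  have hdd := Pool.Agent.W214.RK2.desc4 s (fun p => LcQ A B D p (ty2 (fT A B D) w p t)) a b ha0 hb0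
    (fun h => hab0 (by rw [h, sub_self]))
    (by
      rw [← Nat.not_even_iff_odd, even_iff_two_dvd]
      intro h
      exact (hodd 2 Nat.prime_two h).2 rfl)
    (dv_squarefree hmem)
    (fun p hp hpd => XC_LcQ hf hz2 hp (hodd p hp hpd).1 _)
    (fun p hp hpd x x' hx' hcurve e1 e2 he1 he2 hsq1 hsq2 => by
      have hpp : p.Prime := Fact.out
      have hjs := (q1_prime hpp).1 hpd
      have hzp := (hodd p hpp hpd).1
      have hpw : ¬ p ∣ w := fun h => sc_not_dvd hpp h htw (hlc p hpp hzp) hjs.2.1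
      exact Pool.Agent.W342.RK2.locl (clq A B p ((ty2 (fT A B D) w p t).1 : ℤ))
        (kpq A B D p ((ty2 (fT A B D) w p t).1 : ℤ)) (ty2 (fT A B D) w p t).2 p _ _
        (hodd p hpp hpd).2 (kpq_ne hf hpp hzp _)
        (locHQ2 hd hpp hpw (ty2_dvd hpp hpw) hjs.2.1 hjs.2.2 rfl) x x' hx' hcurve e1 e2 he1 he2
        hsq1 hsq2)
  refine hdd.trans (Nat.mul_le_mul_right _ ?_)
  have hM : ∀ q : ℕ, q.Prime → (q : ℤ) ∣ a * b * (a - b) → (q : ℤ) ∣ N := by
    intro q hq h
    have hqi : Prime (q : ℤ) := Nat.prime_iff_prime_int.1 hq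
    have hDN : (q : ℤ) ∣ (sc D w).eval (t : ℤ) → (q : ℤ) ∣ N := by
      intro h
      rw [hNe]
      exact h.mul_left _
    rcases hqi.dvd_or_dvd h with h1 | h1
    · rcases hqi.dvd_or_dvd h1 with h2 | h2
      · rw [ha, eval_mul] at h2
        rcases hqi.dvd_or_dvd h2 with h3 | h3
        · rw [hNe]
          exact ((h3.mul_right _).mul_right _).mul_right _
        · exact hDN h3
      · rw [hb', eval_mul] at h2
        rcases hqi.dvd_or_dvd h2 with h3 | h3
        · rw [hNe]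
          exact ((h3.mul_left _).mul_right _).mul_right _
        · exact hDN h3
    · rw [hab] at h1
      rcases hqi.dvd_or_dvd h1 with h3 | h3
      · rw [hNe]
        exact (h3.mul_left _).mul_right _
      · exact hDN h3
  have hc := badQ (z := z) (y := y) (K := k) hz2 hy hm h0 hb hk hM
  have e1 : 2 * a * b * (a - b) = 2 * (a * b * (a - b)) := by ring
  rw [e1]
  rw [← hs] at hc
  calc 4 ^ (((2 * (a * b * (a - b))).natAbs.primeFactors.filter (fun q => ¬ q ∣ s)).card + 2)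
      ≤ 4 ^ ((z + 2) + m * k + (q2 z y N).primeFactors.card) :=
        Nat.pow_le_pow_right (by norm_num) (by omega)
    _ = _ := by
        rw [pow_add, pow_add]
        congr 2
        rw [← pow_mul]

end Pool.Agent.H64.QM
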