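import Mathlib
import Pool.Agent.H64.PM.MNQ
import Pool.Agent.H64.QM.S4
import Pool.Agent.H64.QM.S5
import Pool.Agent.H64.QM.S6

/-!
# The moments of `2 ^ rank` over the pairs `(m, w)` from the average of the local counts
-/

set_option autoImplicit false

namespace Pool.Agent.H64.QM

open Finset Pool.Agent.W262.RK Pool.Agent.W762.RK2 Polynomial
open Pool.Agent.H64.PM

/-- the coprime pairs -/
def JJ (X : ℕ) : Finset (ℕ × ℕ) := ((Icc 1 X) ×ˢ (Icc 1 X)).filter (fun q => q.1.Coprime q.2)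

lemma mem_JJ {X : ℕ} {q : ℕ × ℕ} : q ∈ JJ X ↔ ((1 ≤ q.1 ∧ q.1 ≤ X) ∧ (1 ≤ q.2 ∧ q.2 ≤ X)) ∧
    q.1.Coprime q.2 := by
  unfold JJ
  rw [mem_filter, mem_product, mem_Icc, mem_Icc]

lemma JJ_mono : Monotone JJ := by
  intro a b hab q hq
  rw [mem_JJ] at hq ⊢
  exact ⟨⟨⟨hq.1.1.1, hq.1.1.2.trans hab⟩, ⟨hq.1.2.1, hq.1.2.2.trans hab⟩⟩, hq.2⟩

lemma eval_bound2 (f : ℤ[X]) (X t w : ℕ) (_hX : 1 ≤ X) (ht : t ≤ X) (hw : w ≤ X)
    (hc : ∑ i ∈ range (f.natDegree + 1), (f.coeff i).natAbs ≤ X) :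
    ((sc f w).eval (t : ℤ)).natAbs ≤ X ^ (f.natDegree + 1) := by
  rw [eval_eq_sum_range, sc_natDegree]
  refine (Int.natAbs_sum_le _ _).trans ?_
  have h1 : ∀ i ∈ range (f.natDegree + 1), ((sc f w).coeff i * (t : ℤ) ^ i).natAbs ≤
      (f.coeff i).natAbs * X ^ f.natDegree := by
    intro i hi
    unfold sc
    rw [coeff_scaleRoots, Int.natAbs_mul, Int.natAbs_mul, Int.natAbs_pow, Int.natAbs_natCast,
      Int.natAbs_pow, Int.natAbs_natCast, mul_assoc]
    refine Nat.mul_le_mul_left _ ?_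
    have hi' := mem_range.1 hi
    calc w ^ (f.natDegree - i) * t ^ i ≤ X ^ (f.natDegree - i) * X ^ i :=
          Nat.mul_le_mul (Nat.pow_le_pow_left hw _) (Nat.pow_le_pow_left ht i)
      _ = X ^ f.natDegree := by rw [← pow_add, Nat.sub_add_cancel (by omega)]
  refine (sum_le_sum h1).trans ?_
  rw [← sum_mul, pow_succ, mul_comm]
  exact Nat.mul_le_mul_left _ hc

/-- the moments -/
theorem mainq2 (k : ℕ) (A B D : ℤ[X]) (hd : DH A B D) (n z : ℕ) (hn : 2 * n + 2 ≤ z) (hn1 : 1 ≤ n)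
    (hρ : ∀ p : ℕ, p.Prime → z < p → rho (fT A B D) p ≤ n) (hf : Smp (fT A B D) z)
    (hlc : ∀ p : ℕ, p.Prime → z < p → ¬ (p : ℤ) ∣ (fT A B D).leadingCoeff) (C' : ℝ)
    (havg : ∀ y, z < y → ∑ s ∈ (PP z y).divisors,
      Gs (PhG k (TyF (fT A B D)) (Wt2 (fT A B D)) (LcQ A B D)) s ≤
      C' * Lam (fun p => (rho (fT A B D) p : ℝ) / p) z y) :
    ∃ C : ℝ, 0 ≤ C ∧ ∀ X : ℕ, 1 ≤ X →
      ∑ q ∈ (JJ X).filter (fun q : ℕ × ℕ => (sc (fT A B D) q.2).eval (q.1 : ℤ) ≠ 0),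
      ((2 : ℝ) ^ Module.finrank ℤ (EAB ((sc A q.2 * sc D q.2).eval (q.1 : ℤ))
        ((sc B q.2 * sc D q.2).eval (q.1 : ℤ))).toAffine.Point) ^ k ≤ C * (X : ℝ) ^ 2 := by
  classical
  set f := fT A B D with hfd
  obtain ⟨C, K1, y0, hC, hK1, hcell⟩ := cells2 n
  obtain ⟨Ch, hCh0, hCh⟩ := avg_hw n
  have hz2 : 2 ≤ z := by omega
  set m := f.natDegree + 1 with hm
  set A0 : ℝ := 4 ^ k * (2 * n) with hA0
  have hnr : (1 : ℝ) ≤ n := by exact_mod_cast hn1
  have h4k : (1 : ℝ) ≤ 4 ^ k := one_le_pow₀ (by norm_num)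
  have hA1 : 1 ≤ A0 := by
    rw [hA0]
    nlinarith
  set PG : LF k := PhG k (TyF f) (Wt2 f) (LcQ A B D) with hPG
  have hw : ∀ p : ℕ, p.Prime → z < p → 0 ≤ Wt2 f p := fun p hp hz =>
    (Wt2_facts hn hρ hp hz).1
  have hGnn : ∀ y, ∀ s ∈ (PP z y).divisors, |Gs PG s| = Gs PG s := fun y s hs =>
    abs_of_nonneg (Gs_nonneg hs hw)
  set csum := ∑ i ∈ range (f.natDegree + 1), (f.coeff i).natAbs with hcsum
  refine antT JJ (fun X => (X : ℝ) ^ 2) JJ_mono
    (fun X hX => one_le_pow₀ (by exact_mod_cast hX))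
    (fun q => (sc f q.2).eval (q.1 : ℤ)) z (fun s => |Gs PG s|)
    (fun q => ((2 : ℝ) ^ Module.finrank ℤ (EAB ((sc A q.2 * sc D q.2).eval (q.1 : ℤ))
        ((sc B q.2 * sc D q.2).eval (q.1 : ℤ))).toAffine.Point) ^ k)
    (Lam (fun p => (rho f p : ℝ) / p) z) (C * Ch * (4 ^ (z + 2)) ^ k) C' ((4 ^ m) ^ k) A0 (K1 + 1)
    (y0 + csum + 1) hz2 hA1 (fun s => abs_nonneg _) (fun t => by positivity) (by positivity)
    (one_le_pow₀ (one_le_pow₀ (by norm_num))) (fun y _ => Real.exp_pos _)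
    (fun y hy s e hse => ?_) (fun y hy => ?_) ?_
  · have hm1 : s * e ∈ (PP z y).divisors := Nat.mem_divisors.2 ⟨hse, PP_ne_zero z y⟩
    have hsm : s ∈ (PP z y).divisors :=
      Nat.mem_divisors.2 ⟨(Dvd.intro _ rfl).trans hse, PP_ne_zero z y⟩
    show |Gs PG (s * e)| ≤ bw A0 1 e * |Gs PG s|
    rw [hGnn y _ hm1, hGnn y _ hsm]
    refine Gs_growth hse hw (fun p hp hzp => ?_) (fun p hp hzp τ => XC_LcQ hf hz2 hp hzp τ)
    have h1 := (Wt2_facts hn hρ hp hzp).2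
    rw [hA0, mul_div_assoc]
    exact mul_le_mul_of_nonneg_left h1 (by positivity)
  · refine le_trans (le_of_eq (sum_congr rfl fun s hs => ?_)) (havg y hy)
    exact hGnn y s hs
  intro X y Y κ hy0 hzy hyK hXk s hs v hv u hu h8
  have hy1 : 1 ≤ y := by omega
  have hyX : y ≤ X := le_trans (Nat.le_self_pow (by omega) y) hyK
  have hX1 : 1 ≤ X := by omega
  have hyK' : y ^ K1 ≤ X := le_trans (Nat.pow_le_pow_right hy1 (Nat.le_succ _)) hyK
  set S := (JJ X).filter (fun q : ℕ × ℕ => (sc f q.2).eval (q.1 : ℤ) ≠ 0 ∧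
      q1 z y ((sc f q.2).eval (q.1 : ℤ)) = s ∧
      q2 z y ((sc f q.2).eval (q.1 : ℤ)) = v ∧ (u : ℤ) ∣ (sc f q.2).eval (q.1 : ℤ)) with hS
  set c : ℝ := 4 ^ (z + 2) * (4 ^ m) ^ κ * 4 ^ v.primeFactors.card with hc
  have hc0 : 0 ≤ c := by positivity
  set N : (Pr z y → ℕ × Bool) → ℝ := fun ε => (NL s (fun p => LcQ A B D p (exq ε p)) : ℝ) ^ k
    with hNdef
  have hN0 : ∀ ε, 0 ≤ N ε := fun ε => by positivity
  set et : ℕ × ℕ → (Pr z y → ℕ × Bool) := fun q p => if (p : ℕ) ∣ s then ty2 f q.2 p q.1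
    else (0, false) with het
  have hsp : ∀ t ∈ S, ∀ p ∈ s.primeFactors, (p : ℤ) ∣ (sc f t.2).eval (t.1 : ℤ) := by
    intro t ht p hp
    rw [hS, mem_filter] at ht
    have hpp := Nat.prime_of_mem_primeFactors hp
    exact ((q1_prime hpp).1 (by rw [ht.2.2.1]; exact Nat.dvd_of_mem_primeFactors hp)).2.1
  have hspw : ∀ t ∈ S, ∀ p ∈ s.primeFactors, ¬ p ∣ t.2 := by
    intro t ht p hp h
    have ht' := ht
    rw [hS, mem_filter, mem_JJ] at ht'
    have hpp := Nat.prime_of_mem_primeFactors hp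
    have hzp := (dv_prime hs hpp (Nat.dvd_of_mem_primeFactors hp)).1
    exact sc_not_dvd hpp h ht'.1.2 (hlc p hpp hzp) (hsp t ht p hp)
  have h1 : ∀ t ∈ S, ((2 : ℝ) ^ Module.finrank ℤ (EAB ((sc A t.2 * sc D t.2).eval (t.1 : ℤ))
        ((sc B t.2 * sc D t.2).eval (t.1 : ℤ))).toAffine.Point) ^ k ≤
      c ^ k * N (et t) := by
    intro t ht
    have ht' := ht
    rw [hS, mem_filter, mem_JJ] at ht'
    obtain ⟨⟨⟨ht1, ht2⟩, htc⟩, ht0, hts, htv, _⟩ := ht'
    have hr := rankQ2 (A := A) (B := B) (D := D) (y := y) (X := X) (k := κ) (m := m) hd hf hz2 hy1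
      (by omega) hlc (t := t.1) (w := t.2) htc ht0
      (eval_bound2 f X t.1 t.2 hX1 ht1.2 ht2.2 (by omega)) hXk
    rw [← hfd, hts, htv] at hr
    have hcong : NL s (fun p => LcQ A B D p (ty2 f t.2 p t.1)) =
        NL s (fun p => LcQ A B D p (exq (et t) p)) := by
      refine Pool.Agent.W125.RK2.NL_congr fun p hp => ?_
      have hpp := Nat.prime_of_mem_primeFactors hp
      have hps := Nat.dvd_of_mem_primeFactors hp
      have hPS : p ∈ PS z y := mem_PS.2 ⟨dv_prime hs hpp hps, hpp⟩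
      have : exq (et t) p = ty2 f t.2 p t.1 := by
        unfold exq
        rw [dif_pos hPS]
        simp only [het]
        rw [if_pos hps]
      rw [this]
    rw [hcong] at hr
    simp only [hNdef]
    rw [← mul_pow]
    refine pow_le_pow_left₀ (by positivity) ?_ k
    rw [hc]
    exact_mod_cast hr
  have hmaps : ∀ t ∈ S, et t ∈ CH (TyF f) z y s := by
    intro t ht
    unfold CH
    rw [Fintype.mem_piFinset]
    intro p
    simp only [het]
    by_cases hps : (p : ℕ) ∣ s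
    · rw [if_pos hps, if_pos hps]
      have hpp := (mem_PS.1 p.2).2
      have hpm : (p : ℕ) ∈ s.primeFactors := Nat.mem_primeFactors.2 ⟨hpp, hps, dv_ne_zero hs⟩
      unfold TyF Zr
      rw [mem_product, mem_filter, mem_range]
      refine ⟨⟨ty2_lt hpp, ?_⟩, mem_univ _⟩
      have h2 := hsp t ht p hpm
      have h3 := ty2_dvd (f := f) (m := t.1) hpp (hspw t ht p hpm)
      have h4 := (sc_dvd (f := f) hpp (hspw t ht p hpm) 1 (by rw [pow_one]; exact h3)).1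
        (by rw [pow_one]; exact h2)
      rwa [pow_one] at h4
    · rw [if_neg hps, if_neg hps]
      exact mem_singleton_self _
  set Q : ℝ := C * Ch * (X : ℝ) ^ 2 * (∏ p ∈ s.primeFactors, Wt2 f p) * bw (2 * n) 2 v *
      bw n 1 u / Lam (fun p => (rho f p : ℝ) / p) z y with hQ
  have hWp : 0 ≤ ∏ p ∈ s.primeFactors, Wt2 f p := prod_nonneg fun p hp => by
    have hpp := Nat.prime_of_mem_primeFactors hp
    exact hw p hpp (dv_prime hs hpp (Nat.dvd_of_mem_primeFactors hp)).1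
  have hbv0 : 0 ≤ bw (2 * n) 2 v := by unfold bw; positivity
  have hbu0 : 0 ≤ bw n 1 u := by unfold bw; positivity
  have hLam : 0 < Lam (fun p => (rho f p : ℝ) / p) z y := Real.exp_pos _
  have h2 : ∀ ε ∈ CH (TyF f) z y s, ((S.filter (fun t : ℕ × ℕ => et t = ε)).card : ℝ) ≤ Q := by
    intro ε _
    set S' := S.filter (fun t : ℕ × ℕ => et t = ε) with hS'
    have hm2 : ∀ t ∈ S', t.2 ∈ Icc 1 X := by
      intro t ht
      rw [hS', mem_filter, hS, mem_filter, mem_JJ] at ht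
      exact mem_Icc.2 ht.1.1.1.2
    rw [card_eq_sum_card_fiberwise hm2]
    push_cast
    have h3 : ∀ w ∈ Icc 1 X, ((S'.filter (fun t : ℕ × ℕ => t.2 = w)).card : ℝ) ≤
        C * X * (∏ p ∈ s.primeFactors, Wt2 f p) * bw (2 * n) 2 v * bw n 1 u /
        Lam (fun p => (rho f p : ℝ) / p) z y * QM.hw n z w := by
      intro w hwX
      refine le_trans ?_ (hcell f z hn hρ hf hlc w (mem_Icc.1 hwX).1 X y Y (by omega) hzy hyK' s hs
        v hv u hu h8 (exq ε))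
      have h4 : (S'.filter (fun t : ℕ × ℕ => t.2 = w)).card ≤ ((Icc 1 X).filter (fun t : ℕ =>
          t.Coprime w ∧ q1 z y ((sc f w).eval (t : ℤ)) = s ∧
          q2 z y ((sc f w).eval (t : ℤ)) = v ∧ (u : ℤ) ∣ (sc f w).eval (t : ℤ) ∧
          ∀ p ∈ s.primeFactors, ty2 f w p t = exq ε p)).card := by
        refine card_le_card_of_injOn Prod.fst ?_ ?_
        · intro t ht
          rw [mem_coe, mem_filter, hS', mem_filter, hS, mem_filter, mem_JJ] at ht
          obtain ⟨⟨⟨⟨⟨ht1, ht2⟩, htc⟩, ht0, hts, htv, htu⟩, hte⟩, htw⟩ := ht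
          rw [mem_coe, mem_filter, mem_Icc, ← htw]
          refine ⟨ht1, htc, hts, htv, htu, fun p hp => ?_⟩
          have hpp := Nat.prime_of_mem_primeFactors hp
          have hps := Nat.dvd_of_mem_primeFactors hp
          have hPS : p ∈ PS z y := mem_PS.2 ⟨dv_prime hs hpp hps, hpp⟩
          rw [← hte]
          unfold exq
          rw [dif_pos hPS]
          simp only [het]
          rw [if_pos hps]
        · intro t ht t' ht' htt
          rw [mem_coe, mem_filter] at ht ht'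
          exact Prod.ext htt (ht.2.trans ht'.2.symm)
      exact_mod_cast h4
    refine (sum_le_sum h3).trans ?_
    rw [← mul_sum]
    have h5 : 0 ≤ C * X * (∏ p ∈ s.primeFactors, Wt2 f p) * bw (2 * n) 2 v * bw n 1 u /
        Lam (fun p => (rho f p : ℝ) / p) z y := by positivity
    refine (mul_le_mul_of_nonneg_left (hCh z X) h5).trans (le_of_eq ?_)
    rw [hQ]
    ring
  have h3 : ∑ t ∈ S, N (et t) ≤ ∑ ε ∈ CH (TyF f) z y s, Q * N ε := by
    rw [← sum_fiberwise_of_maps_to hmaps]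
    refine sum_le_sum fun ε hε => ?_
    have h4 : ∑ t ∈ S.filter (fun t : ℕ × ℕ => et t = ε), N (et t) =
        (S.filter (fun t : ℕ × ℕ => et t = ε)).card * N ε := by
      rw [← nsmul_eq_mul, ← sum_const]
      refine sum_congr rfl fun t ht => ?_
      rw [(mem_filter.1 ht).2]
    rw [h4]
    exact mul_le_mul_of_nonneg_right (h2 ε hε) (hN0 ε)
  have hG : |Gs PG s| = ∑ ε ∈ CH (TyF f) z y s, (∏ p ∈ s.primeFactors, Wt2 f p) * N ε := by
    rw [hGnn y s hs, hPG, Gs_eq hs]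
  have hbu : bw n 1 u ≤ bw A0 1 u := by
    unfold bw
    refine div_le_div_of_nonneg_right (pow_le_pow_left₀ (by linarith) ?_ _) (by positivity)
    rw [hA0]
    nlinarith
  have hbv : (4 ^ v.primeFactors.card) ^ k * bw (2 * n) 2 v = bw A0 2 v := by
    unfold bw
    rw [hA0, mul_pow (4 ^ k : ℝ), pow_right_comm (4 : ℝ) k]
    ring
  have hbA0 : 0 ≤ bw A0 2 v := by unfold bw; positivity
  calc ∑ t ∈ S, ((2 : ℝ) ^ Module.finrank ℤ (EAB ((sc A t.2 * sc D t.2).eval (t.1 : ℤ))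
        ((sc B t.2 * sc D t.2).eval (t.1 : ℤ))).toAffine.Point) ^ k
      ≤ ∑ t ∈ S, c ^ k * N (et t) := sum_le_sum h1
    _ ≤ c ^ k * ∑ ε ∈ CH (TyF f) z y s, Q * N ε := by
        rw [← mul_sum]
        exact mul_le_mul_of_nonneg_left h3 (by positivity)
    _ = (4 ^ (z + 2)) ^ k * ((4 ^ m) ^ k) ^ κ * (C * Ch * (X : ℝ) ^ 2) * |Gs PG s| *
          bw A0 2 v * bw n 1 u / Lam (fun p => (rho f p : ℝ) / p) z y := by
        rw [hG, ← hbv, hc, hQ, mul_pow, mul_pow, pow_right_comm (4 ^ m : ℝ) κ k]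
        rw [mul_sum, mul_sum, sum_mul, sum_mul, sum_div]
        refine sum_congr rfl fun ε _ => ?_
        ring
    _ ≤ (4 ^ (z + 2)) ^ k * ((4 ^ m) ^ k) ^ κ * (C * Ch * (X : ℝ) ^ 2) * |Gs PG s| *
          bw A0 2 v * bw A0 1 u / Lam (fun p => (rho f p : ℝ) / p) z y := by
        refine div_le_div_of_nonneg_right (mul_le_mul_of_nonneg_left hbu ?_) hLam.le
        have := abs_nonneg (Gs PG s)
        positivity
    _ = _ := by ring

end Pool.Agent.H64.QM
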