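import Mathlib
import Pool.Agent.H64.QM.S5

/-!
# Summation of a function with a local majorant: one index set
-/

set_option autoImplicit false

namespace Pool.Agent.H64.QM

open Finset Pool.Agent.W262.RK
open Pool.Agent.H64.PM (q1 q2 q1_mul_q2 q1_mem q2_mem rp_mem' cast_ge_one gr_q bw bw_nonneg rs_q
  rv_q ru_q)

variable {τ : Type} [DecidableEq τ]

/-- the hypothesis about the cells -/
def CellX (S0 : Finset τ) (NX : ℝ) (X : ℕ) (F : τ → ℤ) (z : ℕ) (G : ℕ → ℝ) (R : τ → ℝ)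
    (K : ℕ → ℝ) (C D A : ℝ) (K1 y0 : ℕ) : Prop :=
  ∀ y Y k : ℕ, y0 ≤ y → z < y → y ^ K1 ≤ X → X < (y + 1) ^ k → ∀ s ∈ (PP z y).divisors,
    ∀ v ∈ (PP z y).divisors, ∀ u ∈ (PP y Y).divisors, (s * v * u) ^ 8 ≤ X →
    ∑ t ∈ S0.filter (fun t : τ => F t ≠ 0 ∧ q1 z y (F t) = s ∧
      q2 z y (F t) = v ∧ (u : ℤ) ∣ F t), R t ≤
      C * D ^ k * NX * G s * bw A 2 v * bw A 1 u / K y

variable {S0 : Finset τ} {NX : ℝ} {F : τ → ℤ} {z : ℕ} {G : ℕ → ℝ} {R : τ → ℝ} {K : ℕ → ℝ} {C D A1 A2 A3 lam A : ℝ} {K1 y0 : ℕ}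

/-- one level -/
lemma levX {X : ℕ} (hNX : 0 < NX) (hz : 2 ≤ z) (hA : 1 ≤ A) (hG : ∀ s, 0 ≤ G s) (hR : ∀ t, 0 ≤ R t)
    (hC : 0 ≤ C) (hD : 1 ≤ D) (hA2 : 0 ≤ A2) (hKp : ∀ y, z < y → 0 < K y)
    (hlam : lam = 16 * (Real.log D + 1))
    (h1 : ∀ y, z < y → ∑ s ∈ (PP z y).divisors, G s * (s : ℝ) ^ (lam / Real.log y) ≤ A1 * K y)
    (h2 : ∀ y, z < y → ∑ v ∈ (PP z y).divisors, bw A 2 v * (v : ℝ) ^ (lam / Real.log y) ≤ A2)
    (h3 : ∀ y Y : ℕ, 3 ≤ y → Y ≤ (y + 1) ^ 2 → ∑ u ∈ (PP y Y).divisors, bw A 1 u *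
      (u : ℝ) ^ (lam / Real.log y) ≤ A3)
    (hH : CellX S0 NX X F z G R K C D A K1 y0)
    {y Y k : ℕ} (hy0 : y0 ≤ y) (hzy : z < y) (hyK : y ^ K1 ≤ X) (hyk : y ^ k ≤ X)
    (hk : X < (y + 1) ^ k) (hyY : y ≤ Y) (hY : Y ≤ (y + 1) ^ 2) (hY16 : Y ^ 16 ≤ X) :
    ∑ t ∈ S0.filter (fun t : τ => F t ≠ 0 ∧
      (rp z y (F t)) ^ 8 ≤ X ∧ X < (rp z Y (F t)) ^ 8), R t ≤
      C * A1 * A2 * A3 * NX * Real.exp (-k) := by
  classical
  have hy3 : 3 ≤ y := by omega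
  have hX1 : 1 ≤ X := le_trans (Nat.one_le_pow _ _ (by omega)) hyk
  have hXr : (1 : ℝ) ≤ X := by exact_mod_cast hX1
  have hyr : (3 : ℝ) ≤ y := by exact_mod_cast hy3
  have hlogy : 0 < Real.log y := Real.log_pos (by linarith)
  have hlogD : 0 ≤ Real.log D := Real.log_nonneg hD
  have hlam0 : 0 < lam := by rw [hlam]; linarith
  have hKy := hKp y hzy
  set δ := lam / Real.log y with hδ
  have hδ0 : 0 < δ := div_pos hlam0 hlogy
  set AA := (((PP z y).divisors ×ˢ (PP z y).divisors) ×ˢ (PP y Y).divisors).filter (fun q =>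
    (q.1.1 * q.1.2 * q.2) ^ 8 ≤ X ∧ X < (q.1.1 * q.1.2 * q.2) ^ 16) with hAA
  set S : (ℕ × ℕ) × ℕ → Finset τ := fun q => S0.filter (fun t : τ =>
    F t ≠ 0 ∧ q1 z y (F t) = q.1.1 ∧ q2 z y (F t) = q.1.2 ∧ (q.2 : ℤ) ∣ F t) with hS
  have hcov : ∀ t ∈ S0.filter (fun t : τ => F t ≠ 0 ∧
      (rp z y (F t)) ^ 8 ≤ X ∧ X < (rp z Y (F t)) ^ 8), ∃ q ∈ AA, t ∈ S q := by
    intro t ht
    rw [mem_filter] at ht
    obtain ⟨ht1, ht0, ht2, ht3⟩ := ht
    obtain ⟨u, hu, hug, hu8, hu16⟩ := gr_q z y Y X hzy.le hyY hY16 (q1 z y (F t))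
      (q2 z y (F t)) (rp y Y (F t)) (rp_mem' _ _ _)
      (by rw [q1_mul_q2]; exact ht2)
      (by rw [q1_mul_q2, ← rp_mul hzy.le hyY]; exact ht3)
    refine ⟨((q1 z y (F t), q2 z y (F t)), u), ?_, ?_⟩
    · rw [hAA, mem_filter, mem_product, mem_product]
      exact ⟨⟨⟨q1_mem _ _ _, q2_mem _ _ _⟩, hu⟩, hu8, hu16⟩
    · rw [hS, mem_filter]
      refine ⟨ht1, ht0, rfl, rfl, ?_⟩
      have h4 : (rp y Y (F t) : ℤ) ∣ F t :=
        prodS_dvd (fun p hp => (mem_PS.1 (mem_filter.1 hp).1).2) (fun p hp => (mem_filter.1 hp).2)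
      exact (Int.natCast_dvd_natCast.2 hug).trans h4
  refine (split_sumT hR hcov).trans ?_
  set W : ℝ := C * D ^ k * NX / K y * (X : ℝ) ^ (-(δ / 16)) with hW
  have hW0 : 0 ≤ W := by positivity
  have hq : ∀ q ∈ AA, ∑ t ∈ S q, R t ≤ W *
      ((G q.1.1 * (q.1.1 : ℝ) ^ δ) * (bw A 2 q.1.2 * (q.1.2 : ℝ) ^ δ) *
        (bw A 1 q.2 * (q.2 : ℝ) ^ δ)) := by
    intro q hq
    rw [hAA, mem_filter, mem_product, mem_product] at hq
    obtain ⟨⟨⟨hs, hv⟩, hu⟩, hq8, hq16⟩ := hq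
    refine (hH y Y k hy0 hzy hyK hk q.1.1 hs q.1.2 hv q.2 hu hq8).trans ?_
    have ha : 0 ≤ G q.1.1 := hG _
    have hb : 0 ≤ bw A 2 q.1.2 := bw_nonneg hA _ _
    have hc : 0 ≤ bw A 1 q.2 := bw_nonneg hA _ _
    have hp1 := cast_ge_one hs
    have hp2 := cast_ge_one hv
    have hp3 := cast_ge_one hu
    have hfac : 1 ≤ (X : ℝ) ^ (-(δ / 16)) * ((q.1.1 : ℝ) ^ δ *
        (q.1.2 : ℝ) ^ δ * (q.2 : ℝ) ^ δ) := by
      rw [← Real.mul_rpow (by positivity) (by positivity),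
        ← Real.mul_rpow (by positivity) (by positivity)]
      set P : ℝ := (q.1.1 : ℝ) * (q.1.2 : ℝ) * (q.2 : ℝ) with hP
      have hP1 : 1 ≤ P := by
        rw [hP]
        exact one_le_mul_of_one_le_of_one_le (one_le_mul_of_one_le_of_one_le hp1 hp2) hp3
      have hPX : (X : ℝ) ≤ P ^ (16 : ℕ) := by
        have h5 : (X : ℝ) ≤ (((q.1.1 * q.1.2 * q.2) ^ 16 : ℕ) : ℝ) := by
          exact_mod_cast hq16.le
        push_cast at h5
        exact h5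
      have hPd : (X : ℝ) ^ (δ / 16) ≤ P ^ δ := by
        calc (X : ℝ) ^ (δ / 16) ≤ (P ^ (16 : ℕ)) ^ (δ / 16) :=
              Real.rpow_le_rpow (by positivity) hPX (by positivity)
          _ = P ^ δ := by
              rw [← Real.rpow_natCast, ← Real.rpow_mul (by positivity)]
              congr 1
              push_cast
              ring
      rw [Real.rpow_neg (by positivity)]
      have h6 : 0 < (X : ℝ) ^ (δ / 16) := by positivity
      rw [inv_mul_eq_div, one_le_div h6]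
      exact hPd
    have hbase : 0 ≤ C * D ^ k * NX / K y * (G q.1.1 * bw A 2 q.1.2 * bw A 1 q.2) :=
      mul_nonneg (by positivity) (mul_nonneg (mul_nonneg ha hb) hc)
    calc C * D ^ k * NX * G q.1.1 * bw A 2 q.1.2 * bw A 1 q.2 / K y
        = C * D ^ k * NX / K y * (G q.1.1 * bw A 2 q.1.2 * bw A 1 q.2) := by ring
      _ ≤ C * D ^ k * NX / K y * (G q.1.1 * bw A 2 q.1.2 * bw A 1 q.2) *
          ((X : ℝ) ^ (-(δ / 16)) * ((q.1.1 : ℝ) ^ δ * (q.1.2 : ℝ) ^ δ * (q.2 : ℝ) ^ δ)) :=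
          le_mul_of_one_le_right hbase hfac
      _ = _ := by rw [hW]; ring
  refine (sum_le_sum hq).trans ?_
  rw [← mul_sum]
  have hfull : ∑ q ∈ AA, ((G q.1.1 * (q.1.1 : ℝ) ^ δ) * (bw A 2 q.1.2 * (q.1.2 : ℝ) ^ δ) *
        (bw A 1 q.2 * (q.2 : ℝ) ^ δ)) ≤
      (∑ s ∈ (PP z y).divisors, G s * (s : ℝ) ^ δ) *
      (∑ v ∈ (PP z y).divisors, bw A 2 v * (v : ℝ) ^ δ) *
      (∑ u ∈ (PP y Y).divisors, bw A 1 u * (u : ℝ) ^ δ) := by
    rw [sum_mul_sum, ← sum_product', sum_mul_sum, ← sum_product']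
    refine sum_le_sum_of_subset_of_nonneg (filter_subset _ _) (fun q hq _ => ?_)
    have := hG q.1.1
    have := bw_nonneg hA 2 q.1.2
    have := bw_nonneg hA 1 q.2
    positivity
  have hs0 : 0 ≤ ∑ s ∈ (PP z y).divisors, G s * (s : ℝ) ^ δ :=
    sum_nonneg fun s _ => by have := hG s; positivity
  have hv0 : 0 ≤ ∑ v ∈ (PP z y).divisors, bw A 2 v * (v : ℝ) ^ δ :=
    sum_nonneg fun v _ => by have := bw_nonneg hA 2 v; positivity
  have hu0 : 0 ≤ ∑ u ∈ (PP y Y).divisors, bw A 1 u * (u : ℝ) ^ δ :=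
    sum_nonneg fun u _ => by have := bw_nonneg hA 1 u; positivity
  have hbd : (∑ s ∈ (PP z y).divisors, G s * (s : ℝ) ^ δ) *
      (∑ v ∈ (PP z y).divisors, bw A 2 v * (v : ℝ) ^ δ) *
      (∑ u ∈ (PP y Y).divisors, bw A 1 u * (u : ℝ) ^ δ) ≤ (A1 * K y) * A2 * A3 := by
    have e1 := h1 y hzy
    have e2 := h2 y hzy
    have e3 := h3 y Y hy3 hY
    exact mul_le_mul (mul_le_mul e1 e2 hv0 (hs0.trans e1)) e3 hu0
      (mul_nonneg (hs0.trans e1) hA2)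
  have hfin := mul_le_mul_of_nonneg_left (hfull.trans hbd) hW0
  refine hfin.trans ?_
  have hA1 : 0 ≤ A1 := by
    have e1 := hs0.trans (h1 y hzy)
    exact nonneg_of_mul_nonneg_left e1 hKy
  have hA3 : 0 ≤ A3 := hu0.trans (h3 y Y hy3 hY)
  -- the exponential saving
  have hexp : D ^ k * (X : ℝ) ^ (-(δ / 16)) ≤ Real.exp (-k) := by
    have hXpos : (0 : ℝ) < X := by linarith
    have hlX : k * Real.log y ≤ Real.log X := by
      rw [← Real.log_pow]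
      exact Real.log_le_log (by positivity) (by exact_mod_cast hyk)
    have e1 : D ^ k = Real.exp (k * Real.log D) := by
      rw [← Real.log_pow, Real.exp_log (by positivity)]
    have e2 : (X : ℝ) ^ (-(δ / 16)) = Real.exp (-(δ / 16) * Real.log X) := by
      rw [Real.rpow_def_of_pos hXpos, mul_comm]
    rw [e1, e2, ← Real.exp_add]
    apply Real.exp_le_exp.2
    have e3 : δ / 16 * (k * Real.log y) ≤ δ / 16 * Real.log X :=
      mul_le_mul_of_nonneg_left hlX (by positivity)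
    have e4 : δ / 16 * (k * Real.log y) = k * (Real.log D + 1) := by
      rw [hδ, hlam]
      field_simp
    rw [e4] at e3
    linarith
  calc W * (A1 * K y * A2 * A3)
      = (C * A1 * A2 * A3 * NX) * (D ^ k * (X : ℝ) ^ (-(δ / 16))) := by
        rw [hW]; field_simp
    _ ≤ (C * A1 * A2 * A3 * NX) * Real.exp (-k) :=
        mul_le_mul_of_nonneg_left hexp (by positivity)

/-- the first level -/
lemma levX0 {X : ℕ} (hNX : 0 < NX) (hz : 2 ≤ z) (hA : 1 ≤ A) (hG : ∀ s, 0 ≤ G s) (hR : ∀ t, 0 ≤ R t)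
    (hC : 0 ≤ C) (hD : 1 ≤ D) (hKp : ∀ y, z < y → 0 < K y) (hlam : 0 ≤ lam)
    (h1 : ∀ y, z < y → ∑ s ∈ (PP z y).divisors, G s * (s : ℝ) ^ (lam / Real.log y) ≤ A1 * K y)
    (h2 : ∀ y, z < y → ∑ v ∈ (PP z y).divisors, bw A 2 v * (v : ℝ) ^ (lam / Real.log y) ≤ A2)
    (hH : CellX S0 NX X F z G R K C D A K1 y0)
    {y k : ℕ} (hy0 : y0 ≤ y) (hzy : z < y) (hyK : y ^ K1 ≤ X)
    (hk : X < (y + 1) ^ k) :
    ∑ t ∈ S0.filter (fun t : τ => F t ≠ 0 ∧ (rp z y (F t)) ^ 8 ≤ X), R t ≤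
      C * D ^ k * A1 * A2 * NX := by
  classical
  have hX1 : 1 ≤ X := le_trans (Nat.one_le_pow _ _ (by omega)) hyK
  have hy3 : 3 ≤ y := by omega
  have hyr : (3 : ℝ) ≤ y := by exact_mod_cast hy3
  have hlogy : 0 < Real.log y := Real.log_pos (by linarith)
  have hKy := hKp y hzy
  set δ := lam / Real.log y with hδ
  have hδ0 : 0 ≤ δ := div_nonneg hlam hlogy.le
  set AA := ((PP z y).divisors ×ˢ (PP z y).divisors).filter (fun q => (q.1 * q.2) ^ 8 ≤ X)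
    with hAA
  set S : ℕ × ℕ → Finset τ := fun q => S0.filter (fun t : τ =>
    F t ≠ 0 ∧ q1 z y (F t) = q.1 ∧ q2 z y (F t) = q.2 ∧ ((1 : ℕ) : ℤ) ∣ F t) with hS
  have hcov : ∀ t ∈ S0.filter (fun t : τ => F t ≠ 0 ∧
      (rp z y (F t)) ^ 8 ≤ X), ∃ q ∈ AA, t ∈ S q := by
    intro t ht
    rw [mem_filter] at ht
    obtain ⟨ht1, ht0, ht2⟩ := ht
    refine ⟨(q1 z y (F t), q2 z y (F t)), ?_, ?_⟩
    · rw [hAA, mem_filter, mem_product]
      refine ⟨⟨q1_mem _ _ _, q2_mem _ _ _⟩, ?_⟩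
      rw [q1_mul_q2]
      exact ht2
    · rw [hS, mem_filter]
      exact ⟨ht1, ht0, rfl, rfl, by simp⟩
  refine (split_sumT hR hcov).trans ?_
  set W : ℝ := C * D ^ k * NX / K y with hW
  have hW0 : 0 ≤ W := by positivity
  have hq : ∀ q ∈ AA, ∑ t ∈ S q, R t ≤ W *
      ((G q.1 * (q.1 : ℝ) ^ δ) * (bw A 2 q.2 * (q.2 : ℝ) ^ δ)) := by
    intro q hq
    rw [hAA, mem_filter, mem_product] at hq
    obtain ⟨⟨hs, hv⟩, hq8⟩ := hq
    refine (hH y y k hy0 hzy hyK hk q.1 hs q.2 hv 1 (one_mem_dv _ _)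
      (by simpa using hq8)).trans ?_
    have ha : 0 ≤ G q.1 := hG _
    have hb : 0 ≤ bw A 2 q.2 := bw_nonneg hA _ _
    have hp1 := Real.one_le_rpow (cast_ge_one hs) hδ0
    have hp2 := Real.one_le_rpow (cast_ge_one hv) hδ0
    calc C * D ^ k * NX * G q.1 * bw A 2 q.2 * bw A 1 1 / K y
        = W * (G q.1 * bw A 2 q.2) := by
          rw [hW]; unfold bw; simp; ring
      _ ≤ W * ((G q.1 * (q.1 : ℝ) ^ δ) * (bw A 2 q.2 * (q.2 : ℝ) ^ δ)) :=
          mul_le_mul_of_nonneg_left (mul_le_mul (le_mul_of_one_le_right ha hp1)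
            (le_mul_of_one_le_right hb hp2) hb (mul_nonneg ha (by linarith))) hW0
  refine (sum_le_sum hq).trans ?_
  rw [← mul_sum]
  have hfull : ∑ q ∈ AA, ((G q.1 * (q.1 : ℝ) ^ δ) * (bw A 2 q.2 * (q.2 : ℝ) ^ δ)) ≤
      (∑ s ∈ (PP z y).divisors, G s * (s : ℝ) ^ δ) *
      (∑ v ∈ (PP z y).divisors, bw A 2 v * (v : ℝ) ^ δ) := by
    rw [sum_mul_sum, ← sum_product']
    refine sum_le_sum_of_subset_of_nonneg (filter_subset _ _) (fun q hq _ => ?_)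
    have := hG q.1
    have := bw_nonneg hA 2 q.2
    positivity
  have hs0 : 0 ≤ ∑ s ∈ (PP z y).divisors, G s * (s : ℝ) ^ δ :=
    sum_nonneg fun s _ => by have := hG s; positivity
  have hv0 : 0 ≤ ∑ v ∈ (PP z y).divisors, bw A 2 v * (v : ℝ) ^ δ :=
    sum_nonneg fun v _ => by have := bw_nonneg hA 2 v; positivity
  have hbd : (∑ s ∈ (PP z y).divisors, G s * (s : ℝ) ^ δ) *
      (∑ v ∈ (PP z y).divisors, bw A 2 v * (v : ℝ) ^ δ) ≤ (A1 * K y) * A2 :=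
    mul_le_mul (h1 y hzy) (h2 y hzy) hv0 (hs0.trans (h1 y hzy))
  refine (mul_le_mul_of_nonneg_left (hfull.trans hbd) hW0).trans (le_of_eq ?_)
  rw [hW]; field_simp

/-- **Summation of a function with a local majorant.** -/
theorem antX (z : ℕ) (G : ℕ → ℝ) (K : ℕ → ℝ) (C C' D A : ℝ) (K1 y0 : ℕ)
    (hz : 2 ≤ z) (hA : 1 ≤ A) (hG : ∀ s, 0 ≤ G s) (hC : 0 ≤ C) (hD : 1 ≤ D)
    (hKp : ∀ y, z < y → 0 < K y)
    (hsub : ∀ y, z < y → ∀ s e : ℕ, s * e ∣ PP z y → G (s * e) ≤ bw A 1 e * G s)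
    (havg : ∀ y, z < y → ∑ s ∈ (PP z y).divisors, G s ≤ C' * K y) :
    ∃ (X0 : ℕ) (C2 : ℝ), 0 ≤ C2 ∧ ∀ X : ℕ, X0 ≤ X → 1 ≤ X → ∀ (S0 : Finset τ) (NX : ℝ)
      (F : τ → ℤ) (R : τ → ℝ), 0 < NX → (∀ t, 0 ≤ R t) → CellX S0 NX X F z G R K C D A K1 y0 →
      ∑ t ∈ S0.filter (fun t : τ => F t ≠ 0), R t ≤ C2 * NX := by
  classical
  have hlogD : 0 ≤ Real.log D := Real.log_nonneg hD
  set lam : ℝ := 16 * (Real.log D + 1) with hlam
  have hlam0 : 0 ≤ lam := by rw [hlam]; linarith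
  obtain ⟨A1, hA1⟩ := rs_q z G K C' lam A hA hz hlam0 hG hsub havg
  obtain ⟨A2', hA2'⟩ := rv_q z lam A hA hz hlam0
  obtain ⟨A3', hA3'⟩ := ru_q lam A hA hlam0
  set A2 := max A2' 0 with hA2d
  set A3 := max A3' 0 with hA3d
  have hA2 : ∀ y, z < y → ∑ v ∈ (PP z y).divisors, bw A 2 v *
      (v : ℝ) ^ (lam / Real.log y) ≤ A2 := fun y hy =>
    (hA2' y hy).trans (le_max_left _ _)
  have hA3 : ∀ y Y : ℕ, 3 ≤ y → Y ≤ (y + 1) ^ 2 → ∑ u ∈ (PP y Y).divisors, bw A 1 u *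
      (u : ℝ) ^ (lam / Real.log y) ≤ A3 := fun y Y h1 h2 =>
    (hA3' y Y h1 h2).trans (le_max_left _ _)
  have hA20 : 0 ≤ A2 := le_max_right _ _
  have hA30 : 0 ≤ A3 := le_max_right _ _
  -- the constant `A1` is nonnegative
  have hA10 : 0 ≤ A1 := by
    have h1 := hA1 (z + 2) (by omega)
    have h2 : 0 ≤ ∑ s ∈ (PP z (z + 2)).divisors, G s *
        (s : ℝ) ^ (lam / Real.log ((z + 2 : ℕ) : ℝ)) := sum_nonneg fun s _ => by
      have := hG s
      positivity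
    exact nonneg_of_mul_nonneg_left (h2.trans h1) (hKp _ (by omega))
  set K0 : ℕ := K1 + 16 with hK0
  have hK01 : 1 ≤ K0 := by omega
  set Ys : ℕ := y0 + z + 3 with hYs
  set M : ℕ := PP z (Ys ^ 2) with hM
  set X0 : ℕ := Ys ^ K0 + M ^ 8 with hX0
  set B0 : ℝ := C * D ^ K0 * A1 * A2 with hB0
  set B1 : ℝ := C * A1 * A2 * A3 with hB1
  have hB00 : 0 ≤ B0 := by positivity
  have hB10 : 0 ≤ B1 := by positivity
  refine ⟨X0, B0 + B1 * 2, by positivity, fun X hXX hX S0 NX F R hNX hR hH => ?_⟩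
  -- the last level
  have hex : ∃ i, yy K0 X (i + 1) < Ys := by
    refine ⟨X, ?_⟩
    by_contra hcon
    have h1 : 2 ≤ yy K0 X (X + 1) := by omega
    have h2 := (yy_pow hK01 hX (X + 1)).2
    have h3 : 2 ^ X ≤ (yy K0 X (X + 1)) ^ (K0 * 2 ^ (X + 1)) := by
      refine (Nat.pow_le_pow_left h1 X).trans (Nat.pow_le_pow_right (by omega) ?_)
      have h4 : X < 2 ^ X := Nat.lt_two_pow_self
      have h5 : 2 ^ (X + 1) = 2 * 2 ^ X := by rw [pow_succ, mul_comm]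
      nlinarith
    have h4 : X < 2 ^ X := Nat.lt_two_pow_self
    exact absurd (h3.trans h2) (not_le.2 h4)
  set I := Nat.find hex with hI
  have hI1 : yy K0 X (I + 1) < Ys := Nat.find_spec hex
  have hIge : ∀ i, i ≤ I → Ys ≤ yy K0 X i := by
    intro i hi
    rcases Nat.eq_zero_or_pos i with h | h
    · subst h
      apply le_yy hK01
      rw [pow_zero, mul_one]
      exact le_trans (Nat.le_add_right _ _) hXX
    · have h2 := Nat.find_min hex (m := i - 1) (by omega)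
      rw [show i - 1 + 1 = i by omega] at h2
      omega
  -- the level sets
  set T0 := S0.filter (fun t : τ => F t ≠ 0 ∧ (rp z (yy K0 X 0) (F t)) ^ 8 ≤ X) with hT0
  set T : ℕ → Finset τ := fun i => S0.filter (fun t : τ => F t ≠ 0 ∧
      (rp z (yy K0 X (i + 1)) (F t)) ^ 8 ≤ X ∧
      X < (rp z (yy K0 X i) (F t)) ^ 8) with hT
  have hlast : ∀ t : τ, (rp z (yy K0 X I) (F t)) ^ 8 ≤ X := by
    intro t
    have h1 : rp z (yy K0 X I) (F t) ∣ PP z (yy K0 X I) := rp_dvd _ _ _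
    have h2 : yy K0 X I ≤ Ys ^ 2 :=
      (yy_sq hK01 hX I).le.trans (Nat.pow_le_pow_left (by omega) 2)
    have h3 : PP z (yy K0 X I) ∣ M := by
      apply prod_dvd_prod_of_subset
      intro p hp
      rw [mem_PS] at hp ⊢
      exact ⟨⟨hp.1.1, hp.1.2.trans h2⟩, hp.2⟩
    have h4 : rp z (yy K0 X I) (F t) ≤ M :=
      Nat.le_of_dvd (Nat.pos_of_ne_zero (PP_ne_zero _ _)) (h1.trans h3)
    have h5 := Nat.pow_le_pow_left h4 8
    exact h5.trans (le_trans (Nat.le_add_left _ _) hXX)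
  have hcov : S0.filter (fun t : τ => F t ≠ 0) ⊆
      T0 ∪ (range I).biUnion T := by
    intro t ht
    rw [mem_filter] at ht
    have hex2 : ∃ i, (rp z (yy K0 X i) (F t)) ^ 8 ≤ X := ⟨I, hlast t⟩
    have hle : Nat.find hex2 ≤ I := Nat.find_min' hex2 (hlast t)
    rw [mem_union]
    rcases Nat.eq_zero_or_pos (Nat.find hex2) with h | h
    · left
      rw [hT0, mem_filter]
      refine ⟨ht.1, ht.2, ?_⟩
      have := Nat.find_spec hex2
      rwa [h] at this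
    · right
      rw [mem_biUnion]
      refine ⟨Nat.find hex2 - 1, mem_range.2 (by omega), ?_⟩
      rw [hT, mem_filter, show Nat.find hex2 - 1 + 1 = Nat.find hex2 by omega]
      refine ⟨ht.1, ht.2, Nat.find_spec hex2, ?_⟩
      have := Nat.find_min hex2 (m := Nat.find hex2 - 1) (by omega)
      omega
  have hT0b : ∑ t ∈ T0, R t ≤ B0 * NX := by
    have hz0 := hIge 0 (Nat.zero_le _)
    have hp := yy_pow hK01 hX 0
    have hl := yy_lt (X := X) hK01 0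
    rw [pow_zero, mul_one] at hp hl
    have h1 := levX0 hNX hz hA hG hR hC hD hKp hlam0 hA1 hA2 hH (y := yy K0 X 0) (k := K0)
      (by omega) (by omega)
      (le_trans (Nat.pow_le_pow_right hp.1 (by omega)) hp.2) hl
    exact h1
  have hTb : ∀ i ∈ range I, ∑ t ∈ T i, R t ≤ B1 * NX * (1 / 2) ^ i := by
    intro i hi
    rw [mem_range] at hi
    have hz0 := hIge (i + 1) (by omega)
    have hp := yy_pow hK01 hX (i + 1)
    have hp' := yy_pow hK01 hX i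
    have hl := yy_lt (X := X) hK01 (i + 1)
    have hk1 : K0 ≤ K0 * 2 ^ (i + 1) := Nat.le_mul_of_pos_right _ (by positivity)
    have hk2 : K0 ≤ K0 * 2 ^ i := Nat.le_mul_of_pos_right _ (by positivity)
    have h1 := levX hNX hz hA hG hR hC hD hA20 hKp hlam hA1 hA2 hA3 hH
      (y := yy K0 X (i + 1)) (Y := yy K0 X i) (k := K0 * 2 ^ (i + 1))
      (by omega) (by omega)
      (le_trans (Nat.pow_le_pow_right hp.1 (by omega)) hp.2) hp.2 hl
      (yy_anti hK01 hX i) (yy_sq hK01 hX i).le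
      (le_trans (Nat.pow_le_pow_right hp'.1 (by omega)) hp'.2)
    refine h1.trans ?_
    refine mul_le_mul_of_nonneg_left ?_ (by positivity)
    have h2 : (i : ℝ) ≤ ((K0 * 2 ^ (i + 1) : ℕ) : ℝ) := by
      have h3 : i < 2 ^ i := Nat.lt_two_pow_self
      have h4 : 2 ^ (i + 1) = 2 * 2 ^ i := by rw [pow_succ, mul_comm]
      exact_mod_cast (by nlinarith : i ≤ K0 * 2 ^ (i + 1))
    calc Real.exp (-((K0 * 2 ^ (i + 1) : ℕ) : ℝ)) ≤ Real.exp (-(i : ℝ)) :=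
          Real.exp_le_exp.2 (by linarith)
      _ = (Real.exp (-1)) ^ i := by rw [← Real.exp_nat_mul]; congr 1; ring
      _ ≤ (1 / 2) ^ i := by
          apply pow_le_pow_left₀ (Real.exp_pos _).le
          rw [Real.exp_neg, ← one_div]
          apply one_div_le_one_div_of_le (by norm_num)
          have := Real.exp_one_gt_d9
          linarith
  have hgeo : ∑ i ∈ range I, ((1 : ℝ) / 2) ^ i ≤ 2 := by
    rw [geom_sum_eq (by norm_num)]
    have h1 : (0 : ℝ) ≤ (1 / 2 : ℝ) ^ I := by positivity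
    rw [div_le_iff_of_neg (by norm_num)]
    linarith
  calc ∑ t ∈ S0.filter (fun t : τ => F t ≠ 0), R t
      ≤ ∑ t ∈ T0 ∪ (range I).biUnion T, R t :=
        sum_le_sum_of_subset_of_nonneg hcov (fun t _ _ => hR t)
    _ ≤ ∑ t ∈ T0, R t + ∑ t ∈ (range I).biUnion T, R t := by
        rw [← sum_union_inter]
        exact le_add_of_nonneg_right (sum_nonneg fun t _ => hR t)
    _ ≤ ∑ t ∈ T0, R t + ∑ i ∈ range I, ∑ t ∈ T i, R t := by
        gcongr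
        apply split_sumT hR
        intro t ht
        rw [mem_biUnion] at ht
        exact ht
    _ ≤ B0 * NX + ∑ i ∈ range I, B1 * NX * (1 / 2) ^ i := add_le_add hT0b (sum_le_sum hTb)
    _ ≤ B0 * NX + B1 * NX * 2 := by
        rw [← mul_sum]
        gcongr
    _ = (B0 + B1 * 2) * NX := by ring

end Pool.Agent.H64.QM
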