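import Mathlib
import Pool.Agent.H64.QM.S3

/-!
# Types of the pairs `(m, w)` with `m` an integer; cells in short intervals
-/

set_option autoImplicit false

namespace Pool.Agent.H64.QM

open Finset Pool.Agent.W262.RK Polynomial
open Pool.Agent.H64.PM (Zr rho dvd_congr ty Smp Om Om2 Wt2 bw bw_eq Lam rho_half prod_le_K q1 q2
  q1_prime q2_prime)

/-- the type of the pair `(m, w)` at `p`: the residue of `m / w` and the sign of the quotient -/
noncomputable def ty3 (f : ℤ[X]) (w p : ℕ) (m : ℤ) : ℕ × Bool :=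
  (((m : ZMod p) * (w : ZMod p)⁻¹).val,
    decide (jacobiSym ((sc f w).eval m / p) p = -1))

lemma ty3_dvd {f : ℤ[X]} {w p : ℕ} {m : ℤ} (hp : p.Prime) (hw : ¬ p ∣ w) :
    (p : ℤ) ∣ m - w * ((ty3 f w p m).1 : ℤ) := by
  have : Fact p.Prime := ⟨hp⟩
  have hw' : (w : ZMod p) ≠ 0 := fun h => hw ((ZMod.natCast_eq_zero_iff _ _).1 h)
  rw [← ZMod.intCast_zmod_eq_zero_iff_dvd]
  unfold ty3
  push_cast
  rw [ZMod.natCast_zmod_val]
  field_simp
  ring

lemma ty3_lt {f : ℤ[X]} {w p : ℕ} {m : ℤ} (hp : p.Prime) : (ty3 f w p m).1 < p := by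
  have : NeZero p := ⟨hp.ne_zero⟩
  exact ZMod.val_lt _

/-- the shift -/
noncomputable def sh (f : ℤ[X]) (a : ℤ) : ℤ[X] := f.comp (X + C a)

lemma sh_eval (f : ℤ[X]) (a x : ℤ) : (sh f a).eval x = f.eval (x + a) := by
  unfold sh
  rw [eval_comp, eval_add, eval_X, eval_C]

lemma Sp_sh {f : ℤ[X]} {p : ℕ} (hf : Sp f p) (a : ℤ) : Sp (sh f a) p := by
  intro x hx hx'
  rw [sh_eval] at hx
  apply hf _ hx
  unfold sh at hx'
  rw [derivative_comp, eval_mul, eval_comp] at hx'
  simpa using hx'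

lemma rho_sh {f : ℤ[X]} {p : ℕ} (hp : p.Prime) (a : ℤ) : rho (sh f a) p = rho f p := by
  classical
  have : Fact p.Prime := ⟨hp⟩
  have key : ∀ a b : ℤ, (a : ZMod p) = (b : ZMod p) → (p : ℤ) ∣ a - b := by
    intro a b h
    rw [← ZMod.intCast_zmod_eq_zero_iff_dvd]
    push_cast
    rw [h, sub_self]
  unfold rho Zr
  refine card_nbij' (fun n : ℕ => ((n : ZMod p) + a).val)
    (fun x : ℕ => ((x : ZMod p) - a).val) ?_ ?_ ?_ ?_
  · intro n hn
    rw [mem_coe, mem_filter, sh_eval] at hn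
    rw [mem_coe, mem_filter]
    refine ⟨mem_range.2 (ZMod.val_lt _), (dvd_congr f (key _ _ ?_)).1 hn.2⟩
    push_cast
    rw [ZMod.natCast_zmod_val]
  · intro x hx
    rw [mem_coe, mem_filter] at hx
    rw [mem_coe, mem_filter, sh_eval]
    refine ⟨mem_range.2 (ZMod.val_lt _), (dvd_congr f (key _ _ ?_)).1 hx.2⟩
    push_cast
    rw [ZMod.natCast_zmod_val]
    ring
  · intro n hn
    rw [mem_coe, mem_filter, mem_range] at hn
    show ((((((n : ZMod p) + a).val : ℕ) : ZMod p)) - a).val = n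
    rw [ZMod.natCast_zmod_val, add_sub_cancel_right]
    exact ZMod.val_natCast_of_lt hn.1
  · intro x hx
    rw [mem_coe, mem_filter, mem_range] at hx
    show ((((((x : ZMod p) - a).val : ℕ) : ZMod p)) + a).val = x
    rw [ZMod.natCast_zmod_val, sub_add_cancel]
    exact ZMod.val_natCast_of_lt hx.1

/-- the two notions of the type -/
lemma ty_of_ty3 {f : ℤ[X]} {w p t : ℕ} {a : ℤ} (hp : p.Prime) (hw : ¬ p ∣ w) :
    ty (sh (sc f w) a) p t = ((((w : ZMod p) * ((ty3 f w p (t + a)).1 : ZMod p)) - (a : ZMod p)).val,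
      (ty3 f w p (t + a)).2) := by
  have : Fact p.Prime := ⟨hp⟩
  have h1 := ty3_dvd (f := f) (m := (t : ℤ) + a) hp hw
  refine Prod.ext ?_ ?_
  · show t % p = ((((w : ZMod p) * ((ty3 f w p (t + a)).1 : ZMod p)) - (a : ZMod p))).val
    rw [← ZMod.intCast_zmod_eq_zero_iff_dvd] at h1
    push_cast at h1
    have h2 : ((w : ZMod p) * ((ty3 f w p (t + a)).1 : ZMod p)) - (a : ZMod p) = (t : ZMod p) := by
      linear_combination -h1
    rw [h2, ZMod.val_natCast]
  · show decide (jacobiSym ((sh (sc f w) a).eval (t : ℤ) / p) p = -1) =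
      decide (jacobiSym ((sc f w).eval ((t : ℤ) + a) / p) p = -1)
    rw [sh_eval]

/-- no common divisors with `w` -/
lemma sc_not_dvd3 {f : ℤ[X]} {p w : ℕ} {m : ℤ} (hp : p.Prime) (hpw : p ∣ w)
    (hm : Int.gcd m w = 1)
    (hl : ¬ (p : ℤ) ∣ f.leadingCoeff) : ¬ (p : ℤ) ∣ (sc f w).eval m := by
  have hpi : Prime (p : ℤ) := Nat.prime_iff_prime_int.1 hp
  intro h
  rw [eval_eq_sum_range, sc_natDegree, sum_range_succ] at h
  have h1 : (p : ℤ) ∣ ∑ i ∈ range f.natDegree, (sc f w).coeff i * m ^ i := by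
    refine dvd_sum fun i hi => ?_
    have hi' := mem_range.1 hi
    unfold sc
    rw [coeff_scaleRoots]
    refine Dvd.dvd.mul_right (Dvd.dvd.mul_left ?_ _) _
    exact (Int.natCast_dvd_natCast.2 hpw).trans (dvd_pow_self _ (by omega))
  have h2 := (dvd_add_right h1).1 h
  unfold sc at h2
  rw [coeff_scaleRoots_natDegree] at h2
  rcases hpi.dvd_or_dvd h2 with h3 | h3
  · exact hl h3
  · have h4 := hpi.dvd_of_dvd_pow h3
    have h5 : (p : ℤ) ∣ ((Int.gcd m w : ℕ) : ℤ) :=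
      Int.dvd_coe_gcd h4 (Int.natCast_dvd_natCast.2 hpw)
    rw [hm] at h5
    exact hp.one_lt.ne' (Nat.dvd_one.1 (by exact_mod_cast h5))

set_option maxHeartbeats 1000000 in
/-- the number of `m` in the cells with given types -/
theorem cells3 (n : ℕ) :
    ∃ (C : ℝ) (K y0 : ℕ), 0 ≤ C ∧ 1 ≤ K ∧ ∀ (f : ℤ[X]) (z : ℕ), 2 * n + 2 ≤ z →
    (∀ p : ℕ, p.Prime → z < p → rho f p ≤ n) → Smp f z →
    (∀ p : ℕ, p.Prime → z < p → ¬ (p : ℤ) ∣ f.leadingCoeff) → ∀ w : ℕ, 1 ≤ w → ∀ a : ℤ,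
    ∀ X y Y : ℕ, y0 ≤ y → z < y → y ^ K ≤ X →
    ∀ s ∈ (PP z y).divisors, ∀ v ∈ (PP z y).divisors, ∀ u ∈ (PP y Y).divisors,
    (s * v * u) ^ 8 ≤ X → ∀ ε : ℕ → ℕ × Bool,
    (((Icc 1 X).filter (fun t : ℕ => Int.gcd (t + a) w = 1 ∧
      q1 z y ((sc f w).eval (t + a : ℤ)) = s ∧
      q2 z y ((sc f w).eval (t + a : ℤ)) = v ∧ (u : ℤ) ∣ (sc f w).eval (t + a : ℤ) ∧
      ∀ p ∈ s.primeFactors, ty3 f w p (t + a) = ε p)).card : ℝ) ≤
      C * X * (∏ p ∈ s.primeFactors, Wt2 f p) * bw (2 * n) 2 v * bw n 1 u /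
        Lam (fun p => (rho f p : ℝ) / p) z y * hw n z w := by
  classical
  obtain ⟨C, K, y0, hC, hK, h⟩ := cntP n
  refine ⟨C, K, y0, hC, hK, fun f z hn hρ hf hlc w hw1 a X y Y hy hzy hyX s hs v hv u hu h8 ε => ?_⟩
  set g := sh (sc f w) a with hg
  have hge : ∀ t : ℕ, (sc f w).eval (t + a : ℤ) = g.eval (t : ℤ) := fun t => by rw [hg, sh_eval]
  simp only [hge]
  set S := (Icc 1 X).filter (fun t : ℕ => Int.gcd (t + a) w = 1 ∧ q1 z y (g.eval (t : ℤ)) = s ∧
      q2 z y (g.eval (t : ℤ)) = v ∧ (u : ℤ) ∣ g.eval (t : ℤ) ∧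
      ∀ p ∈ s.primeFactors, ty3 f w p (t + a) = ε p) with hS
  have hLam : 0 < Lam (fun p => (rho f p : ℝ) / p) z y := Real.exp_pos _
  have hs0 := dv_ne_zero hs
  have hv0 := dv_ne_zero hv
  have hu0 := dv_ne_zero hu
  have hsz : ∀ p ∈ s.primeFactors, p.Prime ∧ z < p ∧ p ≤ y := fun p hp =>
    ⟨Nat.prime_of_mem_primeFactors hp, dv_prime hs (Nat.prime_of_mem_primeFactors hp)
      (Nat.dvd_of_mem_primeFactors hp)⟩
  have hvz : ∀ p ∈ v.primeFactors, p.Prime ∧ z < p ∧ p ≤ y := fun p hp =>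
    ⟨Nat.prime_of_mem_primeFactors hp, dv_prime hv (Nat.prime_of_mem_primeFactors hp)
      (Nat.dvd_of_mem_primeFactors hp)⟩
  have huz : ∀ p ∈ u.primeFactors, p.Prime ∧ y < p ∧ p ≤ Y := fun p hp =>
    ⟨Nat.prime_of_mem_primeFactors hp, dv_prime hu (Nat.prime_of_mem_primeFactors hp)
      (Nat.dvd_of_mem_primeFactors hp)⟩
  have hWpos : ∀ p ∈ s.primeFactors, 0 ≤ Wt2 f p := by
    intro p hp
    obtain ⟨hp1, hp2, _⟩ := hsz p hp
    obtain ⟨h0, h1, h2⟩ := rho_half hn hρ hp1 hp2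
    have h3 : 0 < 1 - (rho f p : ℝ) / p := by linarith
    rw [sub_pos, div_lt_one h0] at h3
    unfold Wt2
    have : 0 < (p : ℝ) - rho f p := by linarith
    positivity
  have hhw : 0 < hw n z w := lt_of_lt_of_le one_pos (one_le_hw n z w)
  have hRHS : 0 ≤ C * X * (∏ p ∈ s.primeFactors, Wt2 f p) * bw (2 * n) 2 v * bw n 1 u /
        Lam (fun p => (rho f p : ℝ) / p) z y * hw n z w := by
    have h1 : 0 ≤ ∏ p ∈ s.primeFactors, Wt2 f p := prod_nonneg hWpos
    have h2 : 0 ≤ bw (2 * n) 2 v := by unfold bw; positivity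
    have h3 : 0 ≤ bw n 1 u := by unfold bw; positivity
    positivity
  by_cases hne : S.Nonempty
  swap
  · rw [not_nonempty_iff_eq_empty] at hne
    rw [hne, card_empty, Nat.cast_zero]
    exact hRHS
  obtain ⟨t0, ht0⟩ := hne
  rw [hS, mem_filter] at ht0
  have hnw : ∀ p : ℕ, p.Prime → z < p → (p : ℤ) ∣ g.eval (t0 : ℤ) → ¬ p ∣ w := by
    intro p hp hzp h1 h2
    rw [← hge] at h1
    exact sc_not_dvd3 hp h2 ht0.2.1 (hlc p hp hzp) h1
  have hdisj : Disjoint s.primeFactors v.primeFactors := by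
    rw [disjoint_left]
    intro p hp hp'
    have h1 := Nat.prime_of_mem_primeFactors hp
    have h2 := (q1_prime h1).1 (by rw [ht0.2.2.1]; exact Nat.dvd_of_mem_primeFactors hp)
    have h3 := (q2_prime h1).1 (by rw [ht0.2.2.2.1]; exact Nat.dvd_of_mem_primeFactors hp')
    exact h2.2.2 h3.2
  have hsw : ∀ p ∈ s.primeFactors, ¬ p ∣ w := by
    intro p hp
    obtain ⟨hp1, hp2, _⟩ := hsz p hp
    exact hnw p hp1 hp2
      ((q1_prime hp1).1 (by rw [ht0.2.2.1]; exact Nat.dvd_of_mem_primeFactors hp)).2.1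
  have hvw : ∀ p ∈ v.primeFactors, ¬ p ∣ w := by
    intro p hp
    obtain ⟨hp1, hp2, _⟩ := hvz p hp
    exact hnw p hp1 hp2 ((dvd_pow_self (p : ℤ) two_ne_zero).trans
      ((q2_prime hp1).1 (by rw [ht0.2.2.2.1]; exact Nat.dvd_of_mem_primeFactors hp)).2)
  have huw : ∀ p ∈ u.primeFactors, ¬ p ∣ w := by
    intro p hp
    obtain ⟨hp1, hp2, _⟩ := huz p hp
    exact hnw p hp1 (hzy.trans hp2)
      ((Int.natCast_dvd_natCast.2 (Nat.dvd_of_mem_primeFactors hp)).trans ht0.2.2.2.2.1)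
  have hdisj2 : Disjoint (s.primeFactors ∪ v.primeFactors) u.primeFactors := by
    rw [disjoint_left]
    intro p hp hp'
    have h1 := (huz p hp').2.1
    rcases mem_union.1 hp with h2 | h2
    · have := (hsz p h2).2.2
      omega
    · have := (hvz p h2).2.2
      omega
  set P := (PS z y).filter (fun p => ¬ p ∣ w) with hP
  have hPs : P ⊆ PS z y := filter_subset _ _
  have hgρ : ∀ p : ℕ, p.Prime → ¬ p ∣ w → rho g p = rho f p := fun p hp hpw => by
    rw [hg, rho_sh hp, rho_sc hp hpw]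
  have hPρ : ∀ p ∈ P, rho g p = rho f p := fun p hp =>
    hgρ p (mem_PS.1 (hPs hp)).2 (mem_filter.1 hp).2
  set T := s.primeFactors ∪ v.primeFactors ∪ u.primeFactors with hT
  set e : ℕ → ℕ := fun p => if p ∈ s.primeFactors ∪ v.primeFactors then 2 else 1 with he
  set τ' : ℕ → ℕ × Bool := fun p =>
    ((((w : ZMod p) * ((ε p).1 : ZMod p)) - (a : ZMod p)).val, (ε p).2) with hτ'
  set Ω : ℕ → Finset ℕ := fun p => if p ∈ s.primeFactors then
    Om g p (τ' p) else
    if p ∈ v.primeFactors then Om2 g p else Zr g p with hΩ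
  have hTp : ∀ p ∈ T, p.Prime := by
    intro p hp
    rw [hT, mem_union, mem_union] at hp
    rcases hp with (hp | hp) | hp
    · exact (hsz p hp).1
    · exact (hvz p hp).1
    · exact (huz p hp).1
  have hTw : ∀ p ∈ T, ¬ p ∣ w := by
    intro p hp
    rw [hT, mem_union, mem_union] at hp
    rcases hp with (hp | hp) | hp
    · exact hsw p hp
    · exact hvw p hp
    · exact huw p hp
  have he1 : ∀ p ∈ T, 1 ≤ e p := by
    intro p _
    simp only [he]
    split_ifs <;> norm_num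
  have hsplit : ∀ F : ℕ → ℝ, ∏ p ∈ T, F p = (∏ p ∈ s.primeFactors, F p) *
      (∏ p ∈ v.primeFactors, F p) * ∏ p ∈ u.primeFactors, F p := by
    intro F
    rw [hT, prod_union hdisj2, prod_union hdisj]
  have hM : (∏ p ∈ T, p ^ e p) ^ 4 ≤ X := by
    refine le_trans ?_ h8
    have h1 : ∏ p ∈ T, p ^ e p ≤ (s * v * u) ^ 2 := by
      have h2 : ∏ p ∈ T, p ^ e p ≤ ∏ p ∈ T, p ^ 2 := by
        refine prod_le_prod' fun p hp => ?_
        refine Nat.pow_le_pow_right (hTp p hp).pos ?_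
        simp only [he]
        split_ifs <;> norm_num
      refine h2.trans ?_
      rw [prod_pow]
      refine Nat.pow_le_pow_left ?_ 2
      rw [hT, prod_union hdisj2, prod_union hdisj,
        Nat.prod_primeFactors_of_squarefree (dv_squarefree hs),
        Nat.prod_primeFactors_of_squarefree (dv_squarefree hv),
        Nat.prod_primeFactors_of_squarefree (dv_squarefree hu)]
    calc (∏ p ∈ T, p ^ e p) ^ 4 ≤ ((s * v * u) ^ 2) ^ 4 := Nat.pow_le_pow_left h1 4
      _ = (s * v * u) ^ 8 := by rw [← pow_mul]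
  have hcnt := h g z hn X y hy hzy hyX P hPs (fun p hp => by
    rw [hPρ p hp]
    exact hρ p (mem_PS.1 (hPs hp)).2 (mem_PS.1 (hPs hp)).1.1) T e Ω hTp he1 hM
  have hmodsq : ∀ (t p : ℕ), ((t % p ^ 2 : ℕ) : ℤ) = (t : ℤ) - (p : ℤ) ^ 2 * (t / p ^ 2 : ℕ) := by
    intro t p
    have := Nat.mod_add_div t (p ^ 2)
    zify at this ⊢
    linarith
  have hdv2 : ∀ (t p : ℕ), (p : ℤ) ^ 2 ∣ (t : ℤ) - ((t % p ^ 2 : ℕ) : ℤ) := by
    intro t p
    rw [hmodsq]
    exact ⟨(t / p ^ 2 : ℕ), by ring⟩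
  have hdv1 : ∀ (t p : ℕ), (p : ℤ) ∣ (t : ℤ) - ((t % p ^ 2 : ℕ) : ℤ) := fun t p =>
    (dvd_pow_self (p : ℤ) two_ne_zero).trans (hdv2 t p)
  have hsub : S ⊆ (Icc 1 X).filter (fun t : ℕ => (∀ p ∈ T, t % p ^ e p ∈ Ω p) ∧
      ∀ p ∈ P, p ∉ T → ¬ (p : ℤ) ∣ g.eval (t : ℤ)) := by
    intro t ht
    rw [hS, mem_filter] at ht
    obtain ⟨ht1, htw, hts, htv, htu, htε⟩ := ht
    rw [mem_filter]
    refine ⟨ht1, fun p hp => ?_, fun p hp hpT hpf => ?_⟩
    · have hpp := hTp p hp
      have hpi : Prime (p : ℤ) := Nat.prime_iff_prime_int.1 hpp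
      by_cases h1 : p ∈ s.primeFactors
      · have e1 : e p = 2 := by
          simp only [he]
          rw [if_pos (mem_union_left _ h1)]
        have e2 : Ω p = Om g p (τ' p) := by
          simp only [hΩ]
          rw [if_pos h1]
        have h2 := (q1_prime hpp).1 (by rw [hts]; exact Nat.dvd_of_mem_primeFactors h1)
        have e3 : τ' p = ty g p t := by
          simp only [hτ']
          rw [← htε p h1, hg, ty_of_ty3 hpp (hTw p hp)]
        rw [e1, e2, Om, mem_filter, mem_range]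
        refine ⟨Nat.mod_lt _ (pow_pos hpp.pos 2), (dvd_congr g (hdv1 t p)).1 h2.2.1,
          fun h3 => h2.2.2 ((dvd_congr g (hdv2 t p)).2 h3), ?_⟩
        rw [e3]
        unfold ty
        refine Prod.ext ?_ ?_
        · show t % p ^ 2 % p = t % p
          exact Nat.mod_mod_of_dvd _ (dvd_pow_self p two_ne_zero)
        · show decide (jacobiSym (g.eval ((t % p ^ 2 : ℕ) : ℤ) / p) p = -1) =
            decide (jacobiSym (g.eval (t : ℤ) / p) p = -1)
          have h3 : g.eval ((t % p ^ 2 : ℕ) : ℤ) / p ≡ g.eval (t : ℤ) / p [ZMOD p] := by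
            rw [Int.modEq_iff_dvd]
            have h4 : (p : ℤ) ^ 2 ∣ g.eval (t : ℤ) - g.eval ((t % p ^ 2 : ℕ) : ℤ) :=
              (hdv2 t p).trans (Polynomial.sub_dvd_eval_sub _ _ g)
            have h5 := (dvd_congr g (hdv1 t p)).1 h2.2.1
            obtain ⟨a, ha⟩ := h2.2.1
            obtain ⟨b, hb⟩ := h5
            rw [ha, hb, Int.mul_ediv_cancel_left _ hpi.ne_zero,
              Int.mul_ediv_cancel_left _ hpi.ne_zero]
            rw [ha, hb, ← mul_sub, pow_two] at h4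
            exact (mul_dvd_mul_iff_left hpi.ne_zero).1 h4
          rw [jacobiSym.mod_left' h3]
      · by_cases h2 : p ∈ v.primeFactors
        · have e1 : e p = 2 := by
            simp only [he]
            rw [if_pos (mem_union_right _ h2)]
          have e2 : Ω p = Om2 g p := by
            simp only [hΩ]
            rw [if_neg h1, if_pos h2]
          have h3 := (q2_prime hpp).1 (by rw [htv]; exact Nat.dvd_of_mem_primeFactors h2)
          rw [e1, e2, Om2, mem_filter, mem_range]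
          exact ⟨Nat.mod_lt _ (pow_pos hpp.pos 2), (dvd_congr g (hdv2 t p)).1 h3.2⟩
        · have e1 : e p = 1 := by
            simp only [he]
            rw [if_neg]
            rw [mem_union]
            rintro (h3 | h3)
            · exact h1 h3
            · exact h2 h3
          have e2 : Ω p = Zr g p := by
            simp only [hΩ]
            rw [if_neg h1, if_neg h2]
          have h3 : p ∈ u.primeFactors := by
            rw [hT, mem_union, mem_union] at hp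
            rcases hp with (hp | hp) | hp
            · exact absurd hp h1
            · exact absurd hp h2
            · exact hp
          have h4 : (p : ℤ) ∣ g.eval (t : ℤ) :=
            (Int.natCast_dvd_natCast.2 (Nat.dvd_of_mem_primeFactors h3)).trans htu
          rw [e1, e2, pow_one, Zr, mem_filter, mem_range]
          refine ⟨Nat.mod_lt _ hpp.pos, (dvd_congr g ?_).1 h4⟩
          have h5 : ((t % p : ℕ) : ℤ) = (t : ℤ) - p * (t / p : ℕ) := by
            have := Nat.mod_add_div t p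
            zify at this ⊢
            linarith
          rw [h5]
          exact ⟨(t / p : ℕ), by ring⟩
    · have hpPS := hPs hp
      have hpp := (mem_PS.1 hpPS).2
      apply hpT
      rw [hT, mem_union, mem_union]
      left
      by_cases h1 : (p : ℤ) ^ 2 ∣ g.eval (t : ℤ)
      · right
        rw [← htv]
        exact Nat.mem_primeFactors.2 ⟨hpp, (q2_prime hpp).2 ⟨hpPS, h1⟩, by rw [htv]; exact hv0⟩
      · left
        rw [← hts]
        exact Nat.mem_primeFactors.2 ⟨hpp, (q1_prime hpp).2 ⟨hpPS, hpf, h1⟩, by rw [hts]; exact hs0⟩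
  have hcard : (S.card : ℝ) ≤ _ := (by exact_mod_cast card_le_card hsub : (S.card : ℝ) ≤ _).trans hcnt
  refine hcard.trans ?_
  -- the products
  have hfac : ∀ p : ℕ, p.Prime → z < p → 0 < 1 - (rho f p : ℝ) / p := by
    intro p hp hz
    have := (rho_half hn hρ hp hz).2.2
    linarith
  have hPS : (∏ p ∈ s.primeFactors, (1 - (rho f p : ℝ) / p)) *
      (∏ p ∈ v.primeFactors, (1 - (rho f p : ℝ) / p)) *
      ∏ p ∈ P.filter (fun p => p ∉ T), (1 - (rho f p : ℝ) / p) =
      ∏ p ∈ P, (1 - (rho f p : ℝ) / p) := by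
    rw [← prod_union hdisj]
    have h1 : s.primeFactors ∪ v.primeFactors = P.filter (fun p => ¬ p ∉ T) := by
      ext p
      rw [mem_filter, not_not, hT]
      constructor
      · intro hp
        refine ⟨?_, mem_union_left _ hp⟩
        rw [hP, mem_filter]
        rcases mem_union.1 hp with h2 | h2
        · exact ⟨mem_PS.2 ⟨(hsz p h2).2, (hsz p h2).1⟩, hsw p h2⟩
        · exact ⟨mem_PS.2 ⟨(hvz p h2).2, (hvz p h2).1⟩, hvw p h2⟩
      · rintro ⟨h2, h3⟩
        rcases mem_union.1 h3 with h4 | h4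
        · exact h4
        · exfalso
          have h5 := (huz p h4).2.1
          have h6 := (mem_PS.1 (hPs h2)).1.2
          omega
    rw [h1, mul_comm]
    exact prod_filter_mul_prod_filter_not _ _ _
  have hPw : ∏ p ∈ P, (1 - (rho f p : ℝ) / p) ≤
      1 / Lam (fun p => (rho f p : ℝ) / p) z y * hw n z w := by
    have h1 := prod_le_K (f := f) (y := y) hn hρ
    have h2 : (∏ p ∈ P, (1 - (rho f p : ℝ) / p)) *
        ∏ p ∈ (PS z y).filter (fun p => ¬ ¬ p ∣ w), (1 - (rho f p : ℝ) / p) =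
        ∏ p ∈ PS z y, (1 - (rho f p : ℝ) / p) :=
      prod_filter_mul_prod_filter_not _ _ _
    have h3 : 1 ≤ (∏ p ∈ (PS z y).filter (fun p => ¬ ¬ p ∣ w), (1 - (rho f p : ℝ) / p)) *
        hw n z w := by
      have h4 : 1 ≤ (∏ p ∈ (PS z y).filter (fun p => ¬ ¬ p ∣ w), (1 - (rho f p : ℝ) / p)) *
          ∏ p ∈ (PS z y).filter (fun p => ¬ ¬ p ∣ w), (1 + 2 * (n : ℝ) / p) := by
        rw [← prod_mul_distrib]
        refine one_le_prodR fun p hp => ?_
        have h5 := mem_PS.1 (mem_filter.1 hp).1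
        obtain ⟨h6, h7, h8⟩ := rho_half hn hρ h5.2 h5.1.1
        have h9 : (rho f p : ℝ) / p ≤ n / p := div_le_div_of_nonneg_right h7 h6.le
        have h10 : (0 : ℝ) ≤ rho f p / p := by positivity
        have h11 : (n : ℝ) / p ≤ 1 / 2 := by
          have h12 : (2 : ℝ) * n ≤ p := by exact_mod_cast (by omega : 2 * n ≤ p)
          rw [div_le_div_iff₀ h6 (by norm_num)]
          linarith
        have h13 : 2 * (n : ℝ) / p = 2 * (n / p) := by ring
        rw [h13]
        have h14 : (0 : ℝ) ≤ n / p := by positivity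
        nlinarith
      refine h4.trans ?_
      refine mul_le_mul_of_nonneg_left ?_ (prod_nonneg fun p hp => ?_)
      · unfold hw
        refine prod_le_subR ?_ ?_
        · intro p hp
          rw [mem_filter, not_not] at hp
          have h5 := mem_PS.1 hp.1
          rw [mem_filter, Nat.mem_primeFactors]
          exact ⟨⟨h5.2, hp.2, by omega⟩, h5.1.1⟩
        · intro p _
          have : (0 : ℝ) ≤ 2 * (n : ℝ) / p := by positivity
          linarith
      · have h5 := mem_PS.1 (mem_filter.1 hp).1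
        exact (hfac p h5.2 h5.1.1).le
    have h5 : 0 ≤ ∏ p ∈ P, (1 - (rho f p : ℝ) / p) := prod_nonneg fun p hp => by
      have h5 := mem_PS.1 (hPs hp)
      exact (hfac p h5.2 h5.1.1).le
    calc ∏ p ∈ P, (1 - (rho f p : ℝ) / p) ≤ (∏ p ∈ P, (1 - (rho f p : ℝ) / p)) *
          ((∏ p ∈ (PS z y).filter (fun p => ¬ ¬ p ∣ w), (1 - (rho f p : ℝ) / p)) * hw n z w) :=
          le_mul_of_one_le_right h5 h3
      _ = (∏ p ∈ PS z y, (1 - (rho f p : ℝ) / p)) * hw n z w := by rw [← mul_assoc, h2]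
      _ ≤ _ := mul_le_mul_of_nonneg_right h1 hhw.le
  have hSp : ∀ p : ℕ, p.Prime → z < p → ¬ p ∣ w → Sp g p := fun p hp hzp hpw =>
    Sp_sh (Sp_sc (Sp_of hf hp hzp) hp hpw) a
  have hS1 : ∏ p ∈ s.primeFactors, ((Ω p).card : ℝ) / (p : ℝ) ^ e p ≤
      (∏ p ∈ s.primeFactors, Wt2 f p) * ∏ p ∈ s.primeFactors, (1 - (rho f p : ℝ) / p) := by
    rw [← prod_mul_distrib]
    refine prod_le_prod (fun p _ => by positivity) fun p hp => ?_
    obtain ⟨hp1, hp2, _⟩ := hsz p hp
    obtain ⟨h0, h1, h2⟩ := rho_half hn hρ hp1 hp2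
    have e1 : e p = 2 := by
      simp only [he]
      rw [if_pos (mem_union_left _ hp)]
    have e2 : Ω p = Om g p (τ' p) := by
      simp only [hΩ]
      rw [if_pos hp]
    rw [e1, e2]
    have h3 : 2 * (Om g p (τ' p)).card ≤ p - 1 :=
      card_OmS (hSp p hp1 hp2 (hsw p hp)) hp1 (by omega) _
    have h4 : (2 : ℝ) * (Om g p (τ' p)).card ≤ p := by
      exact_mod_cast (by omega : 2 * (Om g p (τ' p)).card ≤ p)
    have h5 : 0 < (p : ℝ) - rho f p := by
      have := hfac p hp1 hp2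
      rw [sub_pos, div_lt_one h0] at this
      linarith
    have h6 : Wt2 f p * (1 - (rho f p : ℝ) / p) = 1 / (2 * p) := by
      unfold Wt2
      field_simp
    rw [h6, div_le_div_iff₀ (by positivity) (by positivity)]
    nlinarith
  have hV1 : ∏ p ∈ v.primeFactors, ((Ω p).card : ℝ) / (p : ℝ) ^ e p ≤
      bw (2 * n) 2 v * ∏ p ∈ v.primeFactors, (1 - (rho f p : ℝ) / p) := by
    have h1 : bw (2 * n) 2 v = ∏ p ∈ v.primeFactors, (2 * (n : ℝ)) / (p : ℝ) ^ 2 := by
      rw [bw_eq (A := 2 * (n : ℝ)) 2 (dv_squarefree hv)]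
    rw [h1, ← prod_mul_distrib]
    refine prod_le_prod (fun p _ => by positivity) fun p hp => ?_
    obtain ⟨hp1, hp2, _⟩ := hvz p hp
    obtain ⟨h0, h1, h2⟩ := rho_half hn hρ hp1 hp2
    have hns : p ∉ s.primeFactors := fun h => disjoint_left.1 hdisj h hp
    have e1 : e p = 2 := by
      simp only [he]
      rw [if_pos (mem_union_right _ hp)]
    have e2 : Ω p = Om2 g p := by
      simp only [hΩ]
      rw [if_neg hns, if_pos hp]
    rw [e1, e2]
    have h3 : ((Om2 g p).card : ℝ) ≤ n := by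
      have h4 := card_Om2S (hSp p hp1 hp2 (hvw p hp)) hp1
      rw [hgρ p hp1 (hvw p hp)] at h4
      exact le_trans (by exact_mod_cast h4) h1
    have h4 : (n : ℝ) ≤ 2 * n * (1 - (rho f p : ℝ) / p) := by nlinarith [Nat.cast_nonneg (α := ℝ) n]
    calc ((Om2 g p).card : ℝ) / (p : ℝ) ^ 2 ≤ (2 * n * (1 - (rho f p : ℝ) / p)) / (p : ℝ) ^ 2 := by
          gcongr
          exact h3.trans h4
      _ = _ := by ring
  have hU1 : ∏ p ∈ u.primeFactors, ((Ω p).card : ℝ) / (p : ℝ) ^ e p ≤ bw n 1 u := by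
    have h1 : bw n 1 u = ∏ p ∈ u.primeFactors, (n : ℝ) / (p : ℝ) ^ 1 := by
      rw [bw_eq (A := (n : ℝ)) 1 (dv_squarefree hu)]
    rw [h1]
    refine prod_le_prod (fun p _ => by positivity) fun p hp => ?_
    obtain ⟨hp1, hp2, _⟩ := huz p hp
    obtain ⟨h0, h1, h2⟩ := rho_half hn hρ hp1 (hzy.trans hp2)
    have hns : p ∉ s.primeFactors ∪ v.primeFactors := fun h => disjoint_left.1 hdisj2 h hp
    have hns1 : p ∉ s.primeFactors := fun h => hns (mem_union_left _ h)
    have hns2 : p ∉ v.primeFactors := fun h => hns (mem_union_right _ h)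
    have e1 : e p = 1 := by
      simp only [he]
      rw [if_neg hns]
    have e2 : Ω p = Zr g p := by
      simp only [hΩ]
      rw [if_neg hns1, if_neg hns2]
    rw [e1, e2]
    have h3 : ((Zr g p).card : ℝ) ≤ n := by
      have h4 : (Zr g p).card = rho f p := hgρ p hp1 (huw p hp)
      rw [h4]
      exact h1
    gcongr
  have hs1 : 0 ≤ ∏ p ∈ s.primeFactors, (1 - (rho f p : ℝ) / p) :=
    prod_nonneg fun p hp => (hfac p (hsz p hp).1 (hsz p hp).2.1).le
  have hv1 : 0 ≤ ∏ p ∈ v.primeFactors, (1 - (rho f p : ℝ) / p) :=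
    prod_nonneg fun p hp => (hfac p (hvz p hp).1 (hvz p hp).2.1).le
  have hPeq : ∏ p ∈ P.filter (fun p => p ∉ T), (1 - (rho g p : ℝ) / p) =
      ∏ p ∈ P.filter (fun p => p ∉ T), (1 - (rho f p : ℝ) / p) :=
    prod_congr rfl fun p hp => by rw [hPρ p (mem_filter.1 hp).1]
  have hPT : 0 ≤ ∏ p ∈ P.filter (fun p => p ∉ T), (1 - (rho f p : ℝ) / p) :=
    prod_nonneg fun p hp => by
      have h1 := mem_PS.1 (hPs (mem_filter.1 hp).1)
      exact (hfac p h1.2 h1.1.1).le
  have hW0 : 0 ≤ ∏ p ∈ s.primeFactors, Wt2 f p := prod_nonneg hWpos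
  have hb2 : 0 ≤ bw (2 * n) 2 v := by unfold bw; positivity
  have hb1 : 0 ≤ bw n 1 u := by unfold bw; positivity
  rw [hPeq]
  calc C * X * (∏ p ∈ T, ((Ω p).card : ℝ) / (p : ℝ) ^ e p) *
        ∏ p ∈ P.filter (fun p => p ∉ T), (1 - (rho f p : ℝ) / p)
      ≤ C * X * (((∏ p ∈ s.primeFactors, Wt2 f p) *
          ∏ p ∈ s.primeFactors, (1 - (rho f p : ℝ) / p)) *
          (bw (2 * n) 2 v * ∏ p ∈ v.primeFactors, (1 - (rho f p : ℝ) / p)) * bw n 1 u) *
        ∏ p ∈ P.filter (fun p => p ∉ T), (1 - (rho f p : ℝ) / p) := by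
        rw [hsplit]
        refine mul_le_mul_of_nonneg_right (mul_le_mul_of_nonneg_left ?_ (by positivity)) hPT
        refine mul_le_mul (mul_le_mul hS1 hV1 (prod_nonneg fun _ _ => by positivity)
          (by positivity)) hU1 (prod_nonneg fun _ _ => by positivity) (by positivity)
    _ = C * X * (∏ p ∈ s.primeFactors, Wt2 f p) * bw (2 * n) 2 v * bw n 1 u *
          ∏ p ∈ P, (1 - (rho f p : ℝ) / p) := by
        rw [← hPS]
        ring
    _ ≤ C * X * (∏ p ∈ s.primeFactors, Wt2 f p) * bw (2 * n) 2 v * bw n 1 u *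
          (1 / Lam (fun p => (rho f p : ℝ) / p) z y * hw n z w) := by
        refine mul_le_mul_of_nonneg_left hPw (by positivity)
    _ = _ := by ring

end Pool.Agent.H64.QM
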