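import Mathlib
import Pool.Agent.H64.PM.PMF
import Pool.Agent.H64.QM.S6
import Pool.Agent.H64.QM.U1

/-!
# The bound for the rank: general form
-/

set_option autoImplicit false

namespace Pool.Agent.H64.QM

open Finset Pool.Agent.W262.RK Pool.Agent.W762.RK2 Polynomial
open Pool.Agent.H64.PM (Zr rho dvd_congr ty Smp fT clq kpq LcQ nsq badQ XC_LcQ kpq_ne q1 q2 q1_mem
  q1_prime locHQ)

variable {A B D : ℤ[X]} {z w : ℕ}

/-- the local hypotheses hold -/
lemma locHQ3 (hab : A.natDegree = B.natDegree) (hac : (A - B).natDegree = A.natDegree) {p : ℕ} (hp : p.Prime) (hpw : ¬ p ∣ w) {t x : ℤ}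
    (htx : (p : ℤ) ∣ t - w * x)
    (hev : Even (A.natDegree + D.natDegree) ∨ (¬ (p : ℤ) ∣ A.eval x ∧ ¬ (p : ℤ) ∣ B.eval x ∧
      ¬ (p : ℤ) ∣ (A - B).eval x))
    (h1 : (p : ℤ) ∣ (sc (fT A B D) w).eval t) (h2 : ¬ (p : ℤ) ^ 2 ∣ (sc (fT A B D) w).eval t)
    {neg : Bool} (hneg : neg = decide (jacobiSym ((sc (fT A B D) w).eval t / p) p = -1)) :
    LocH (clq A B p x) (kpq A B D p x) neg p ((sc A w * sc D w).eval t)
      ((sc B w * sc D w).eval t) := by
  have hpi : Prime (p : ℤ) := Nat.prime_iff_prime_int.1 hp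
  have hp0 : (p : ℤ) ≠ 0 := hpi.ne_zero
  have hpwi : ¬ (p : ℤ) ∣ (w : ℤ) := fun h => hpw (Int.natCast_dvd_natCast.1 h)
  have hpwk : ∀ k : ℕ, ¬ (p : ℤ) ∣ (w : ℤ) ^ k := fun k h => hpwi (hpi.dvd_of_dvd_pow h)
  set d := A.natDegree with hdd
  have hBd : B.natDegree = d := hab.symm
  have hCd : (A - B).natDegree = d := hac
  -- the values
  obtain ⟨a, ha⟩ : ∃ a, a = (sc A w).eval t := ⟨_, rfl⟩
  obtain ⟨b, hb⟩ : ∃ b, b = (sc B w).eval t := ⟨_, rfl⟩
  obtain ⟨c, hc⟩ : ∃ c, c = (sc (A - B) w).eval t := ⟨_, rfl⟩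
  obtain ⟨e, he⟩ : ∃ e, e = (sc D w).eval t := ⟨_, rfl⟩
  have hcab : a - b = c := by
    rw [ha, hb, hc, sc_sub A B w hab hac, eval_sub]
  have ca : a ≡ (w : ℤ) ^ d * A.eval x [ZMOD p] := by
    rw [ha]
    exact sc_congr A htx
  have cb : b ≡ (w : ℤ) ^ d * B.eval x [ZMOD p] := by
    rw [hb, ← hBd]
    exact sc_congr B htx
  have cc : c ≡ (w : ℤ) ^ d * (A - B).eval x [ZMOD p] := by
    rw [hc, ← hCd]
    exact sc_congr (A - B) htx
  have ce : e ≡ (w : ℤ) ^ D.natDegree * D.eval x [ZMOD p] := by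
    rw [he]
    exact sc_congr D htx
  have hdv : ∀ {k : ℕ} {u v : ℤ}, u ≡ (w : ℤ) ^ k * v [ZMOD p] → ((p : ℤ) ∣ v ↔ (p : ℤ) ∣ u) := by
    intro k u v h
    have h3 : (p : ℤ) ∣ (w : ℤ) ^ k * v - u := h.dvd
    constructor
    · intro h4
      exact (dvd_sub_right (h4.mul_left _)).1 h3
    · intro h4
      have h5 : (p : ℤ) ∣ (w : ℤ) ^ k * v := (dvd_sub_left h4).1 h3
      exact (hpi.dvd_or_dvd h5).resolve_left (hpwk k)
  have hA := hdv ca
  have hB := hdv cb
  have hC := hdv cc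
  have hE := hdv ce
  have hfe : (sc (fT A B D) w).eval t = a * (b * (c * e)) := by
    unfold fT
    rw [sc_mul, sc_mul, sc_mul, eval_mul, eval_mul, eval_mul, ← ha, ← hb, ← hc, ← he]
    ring
  have hAD : (sc A w * sc D w).eval t = a * e := by rw [eval_mul, ha, he]
  have hBD : (sc B w * sc D w).eval t = b * e := by rw [eval_mul, hb, he]
  rw [hfe] at h1 h2 hneg
  rw [hAD, hBD]
  have hfe1 : a * (b * (c * e)) = b * (a * (c * e)) := by ring
  have hfe2 : a * (b * (c * e)) = c * (a * (b * e)) := by ring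
  have hfe3 : a * (b * (c * e)) = e * (a * (b * c)) := by ring
  have hAB : a * e - b * e = c * e := by rw [← hcab]; ring
  have hsqw : Even (d + D.natDegree) → ∃ k : ℕ, ∀ v : ℤ,
      (w : ℤ) ^ d * v * ((w : ℤ) ^ D.natDegree) = ((w : ℤ) ^ k) ^ 2 * v := by
    rintro ⟨k, hk⟩
    refine ⟨k, fun v => ?_⟩
    have h3 : (w : ℤ) ^ d * (w : ℤ) ^ D.natDegree = ((w : ℤ) ^ k) ^ 2 := by
      rw [← pow_add, hk, ← pow_mul]
      congr 1
      ring
    rw [← h3]
    ring
  have hx1 : Even (d + D.natDegree) → ∃ k : ℕ,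
      b * e ≡ ((w : ℤ) ^ k) ^ 2 * (B * D).eval x [ZMOD p] := by
    intro h
    obtain ⟨k, hk⟩ := hsqw h
    refine ⟨k, (cb.mul ce).trans (congrArg (fun u => u % (p : ℤ)) ?_)⟩
    rw [eval_mul, ← hk]
    ring
  have hx2 : Even (d + D.natDegree) → ∃ k : ℕ,
      a * e ≡ ((w : ℤ) ^ k) ^ 2 * (A * D).eval x [ZMOD p] := by
    intro h
    obtain ⟨k, hk⟩ := hsqw h
    refine ⟨k, (ca.mul ce).trans (congrArg (fun u => u % (p : ℤ)) ?_)⟩
    rw [eval_mul, ← hk]
    ring
  unfold clq kpq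
  by_cases a0 : (p : ℤ) ∣ A.eval x
  · rw [if_pos a0, if_pos a0]
    have a1 := hA.1 a0
    have n1 := nsq h2 a1
    have nB : ¬ (p : ℤ) ∣ b * e := by
      intro h
      apply n1
      have : b * (c * e) = c * (b * e) := by ring
      rw [this]
      exact h.mul_left _
    unfold LocH
    rw [if_pos rfl]
    refine ⟨a1.mul_right _, ?_, nB, ?_⟩
    · intro h
      apply h2
      have : a * (b * (c * e)) = a * e * (b * c) := by ring
      rw [this]
      exact h.mul_right _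
    · show jacobiSym (-((B * D).eval x) * -(b * e)) p = 1
      rw [neg_mul_neg]
      obtain ⟨k, hk⟩ := hx1 (hev.resolve_right fun h => h.1 a0)
      exact jac_sq hp hk nB
  rw [if_neg a0, if_neg a0]
  by_cases b0 : (p : ℤ) ∣ B.eval x
  · rw [if_pos b0, if_pos b0]
    have a1 := hB.1 b0
    have n1 := nsq (hfe1 ▸ h2) a1
    have nA : ¬ (p : ℤ) ∣ a * e := by
      intro h
      apply n1
      have : a * (c * e) = c * (a * e) := by ring
      rw [this]
      exact h.mul_left _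
    unfold LocH
    rw [if_neg (by decide), if_pos rfl]
    refine ⟨a1.mul_right _, ?_, nA, ?_⟩
    · intro h
      apply h2
      have : a * (b * (c * e)) = b * e * (a * c) := by ring
      rw [this]
      exact h.mul_right _
    · show jacobiSym (-((A * D).eval x) * -(a * e)) p = 1
      rw [neg_mul_neg]
      obtain ⟨k, hk⟩ := hx2 (hev.resolve_right fun h => h.2.1 b0)
      exact jac_sq hp hk nA
  rw [if_neg b0, if_neg b0]
  by_cases c0 : (p : ℤ) ∣ (A - B).eval x
  · rw [if_pos c0, if_pos c0]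
    have a1 := hC.1 c0
    have n1 := nsq (hfe2 ▸ h2) a1
    have nA : ¬ (p : ℤ) ∣ a * e := by
      intro h
      apply n1
      have : a * (b * e) = b * (a * e) := by ring
      rw [this]
      exact h.mul_left _
    unfold LocH
    rw [if_neg (by decide), if_neg (by decide), if_pos rfl, hAB]
    refine ⟨a1.mul_right _, ?_, nA, ?_⟩
    · intro h
      apply h2
      have : a * (b * (c * e)) = c * e * (a * b) := by ring
      rw [this]
      exact h.mul_right _
    · obtain ⟨k, hk⟩ := hx2 (hev.resolve_right fun h => h.2.2 c0)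
      exact jac_sq hp hk nA
  rw [if_neg c0, if_neg c0]
  have nA : ¬ (p : ℤ) ∣ a := fun h => a0 (hA.2 h)
  have nB : ¬ (p : ℤ) ∣ b := fun h => b0 (hB.2 h)
  have nC : ¬ (p : ℤ) ∣ c := fun h => c0 (hC.2 h)
  have hD : (p : ℤ) ∣ e := by
    rcases hpi.dvd_or_dvd h1 with h | h
    · exact absurd h nA
    · rcases hpi.dvd_or_dvd h with h | h
      · exact absurd h nB
      · exact (hpi.dvd_or_dvd h).resolve_left nC
  obtain ⟨q, hq⟩ := hD
  have eq : a * (b * (c * e)) / p = q * (a * (b * c)) := by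
    rw [hfe3, hq, mul_assoc, Int.mul_ediv_cancel_left _ hp0]
  have e0 : a * e / p = q * a := by
    rw [hq]
    have : a * ((p : ℤ) * q) = p * (q * a) := by ring
    rw [this, Int.mul_ediv_cancel_left _ hp0]
  have e1 : b * e / p = q * b := by
    rw [hq]
    have : b * ((p : ℤ) * q) = p * (q * b) := by ring
    rw [this, Int.mul_ediv_cancel_left _ hp0]
  have e2 : c * e / p = q * c := by
    rw [hq]
    have : c * ((p : ℤ) * q) = p * (q * c) := by ring
    rw [this, Int.mul_ediv_cancel_left _ hp0]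
  have hJ : jacobiSym (a * (b * (c * e)) / p) p = if neg = true then -1 else 1 := by
    by_cases h3 : jacobiSym (a * (b * (c * e)) / p) p = -1
    · rw [hneg, h3]
      rfl
    · have h4 : neg = false := by
        rw [hneg]
        exact decide_eq_false h3
      rw [h4, if_neg (by decide)]
      have h5 : (a * (b * (c * e)) / p).gcd p = 1 := by
        rw [← Int.isCoprime_iff_gcd_eq_one]
        refine IsCoprime.symm ((Prime.coprime_iff_not_dvd hpi).2 fun h8 => h2 ?_)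
        obtain ⟨r, hr⟩ := h1
        rw [hr, Int.mul_ediv_cancel_left _ hp0] at h8
        rw [hr, pow_two]
        exact mul_dvd_mul_left _ h8
      exact (jacobiSym.eq_one_or_neg_one h5).resolve_right h3
  have hnsq : ∀ u v : ℤ, a * (b * (c * e)) = u * v → ¬ (p : ℤ) ^ 2 ∣ u := by
    intro u v huv h
    apply h2
    rw [huv]
    exact h.mul_right _
  unfold LocH
  rw [if_neg (by decide), if_neg (by decide), if_neg (by decide), hAB, e0, e1, e2]
  refine ⟨?_, ?_, ?_, ?_, ?_, ?_, ?_, ?_⟩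
  · rw [hq]
    exact ⟨a * q, by ring⟩
  · rw [hq]
    exact ⟨b * q, by ring⟩
  · exact hnsq _ (b * c) (by ring)
  · exact hnsq _ (a * c) (by ring)
  · exact hnsq _ (a * b) (by ring)
  · rw [← hJ, eq]
    refine jac_mul_sq hp (u := (w : ℤ) ^ d) ?_ (hpwk d)
    show q * (a * (b * c)) ≡ ((w : ℤ) ^ d) ^ 2 * (((B * (A - B)).eval x) * (q * a)) [ZMOD p]
    have h3 := (cb.mul cc).mul_left (q * a)
    rw [eval_mul]
    have e3 : q * (a * (b * c)) = q * a * (b * c) := by ring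
    rw [e3]
    exact h3.trans (congrArg (fun u => u % (p : ℤ)) (by ring))
  · rw [← hJ, eq]
    refine jac_mul_sq hp (u := (w : ℤ) ^ d) ?_ (hpwk d)
    show q * (a * (b * c)) ≡ ((w : ℤ) ^ d) ^ 2 * (((A * (A - B)).eval x) * (q * b)) [ZMOD p]
    have h3 := (ca.mul cc).mul_left (q * b)
    rw [eval_mul]
    have e3 : q * (a * (b * c)) = q * b * (a * c) := by ring
    rw [e3]
    exact h3.trans (congrArg (fun u => u % (p : ℤ)) (by ring))
  · rw [← hJ, eq]
    refine jac_mul_sq hp (u := (w : ℤ) ^ d) ?_ (hpwk d)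
    show q * (a * (b * c)) ≡ ((w : ℤ) ^ d) ^ 2 * (((A * B).eval x) * (q * c)) [ZMOD p]
    have h3 := (ca.mul cb).mul_left (q * c)
    rw [eval_mul]
    have e3 : q * (a * (b * c)) = q * c * (a * b) := by ring
    rw [e3]
    exact h3.trans (congrArg (fun u => u % (p : ℤ)) (by ring))

/-- the hypotheses on the curve at the pair `(m, w)` -/
structure Cv (A B D : ℤ[X]) (z w : ℕ) (m a b : ℤ) : Prop where
  ne : (sc (fT A B D) w).eval m ≠ 0 → a ≠ 0 ∧ b ≠ 0 ∧ a - b ≠ 0
  dv : ∀ q : ℕ, q.Prime → (q : ℤ) ∣ a * b * (a - b) → (q : ℤ) ∣ (sc (fT A B D) w).eval m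
  lo : ∀ p : ℕ, p.Prime → z < p → ¬ p ∣ w → (p : ℤ) ∣ (sc (fT A B D) w).eval m →
    ¬ (p : ℤ) ^ 2 ∣ (sc (fT A B D) w).eval m →
    LocH (clq A B p ((ty3 (fT A B D) w p m).1 : ℤ)) (kpq A B D p ((ty3 (fT A B D) w p m).1 : ℤ))
      (ty3 (fT A B D) w p m).2 p a b

/-- the rank is bounded by the local count -/
lemma rankQ3 {y X k M : ℕ} {m a b : ℤ} (hcv : Cv A B D z w m a b) (hf : Smp (fT A B D) z)
    (hz2 : 2 ≤ z) (hy : 1 ≤ y) (hM1 : 1 ≤ M)
    (hlc : ∀ p : ℕ, p.Prime → z < p → ¬ (p : ℤ) ∣ (fT A B D).leadingCoeff)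
    (htw : Int.gcd m w = 1) (h0 : (sc (fT A B D) w).eval m ≠ 0)
    (hb : ((sc (fT A B D) w).eval m).natAbs ≤ X ^ M)
    (hk : X < (y + 1) ^ k) :
    2 ^ Module.finrank ℤ (EAB a b).toAffine.Point ≤
      4 ^ (z + 2) * (4 ^ M) ^ k *
        4 ^ (q2 z y ((sc (fT A B D) w).eval m)).primeFactors.card *
        NL (q1 z y ((sc (fT A B D) w).eval m))
          (fun p => LcQ A B D p (ty3 (fT A B D) w p m)) := by
  obtain ⟨ha0, hb0, hab0⟩ := hcv.ne h0
  set N := (sc (fT A B D) w).eval m with hN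
  set s := q1 z y N with hs
  have hmem : s ∈ (PP z y).divisors := q1_mem z y N
  have hodd : ∀ p : ℕ, p.Prime → p ∣ s → z < p ∧ p ≠ 2 := by
    intro p hp h
    have h1 := (dv_prime hmem hp h).1
    omega
  have hdd := Pool.Agent.W214.RK2.desc4 s (fun p => LcQ A B D p (ty3 (fT A B D) w p m)) a b ha0 hb0
    (fun h => hab0 (by rw [h, sub_self]))
    (by
      rw [← Nat.not_even_iff_odd, even_iff_two_dvd]
      intro h
      exact (hodd 2 Nat.prime_two h).2 rfl)
    (dv_squarefree hmem)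
    (fun p hp hpd => XC_LcQ hf hz2 hp (hodd p hp hpd).1 _)
    (fun p hp hpd x x' hx' hcurve e1 e2 he1 he2 hsq1 hsq2 => by
      have hpp : p.Prime := Fact.out
      have hjs := (q1_prime hpp).1 hpd
      have hzp := (hodd p hpp hpd).1
      have hpw : ¬ p ∣ w := fun h => sc_not_dvd3 hpp h htw (hlc p hpp hzp) hjs.2.1
      exact Pool.Agent.W342.RK2.locl (clq A B p ((ty3 (fT A B D) w p m).1 : ℤ))
        (kpq A B D p ((ty3 (fT A B D) w p m).1 : ℤ)) (ty3 (fT A B D) w p m).2 p _ _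
        (hodd p hpp hpd).2 (kpq_ne hf hpp hzp _)
        (hcv.lo p hpp hzp hpw hjs.2.1 hjs.2.2) x x' hx' hcurve e1 e2 he1 he2
        hsq1 hsq2)
  refine hdd.trans (Nat.mul_le_mul_right _ ?_)
  have hc := badQ (z := z) (y := y) (K := k) hz2 hy hM1 h0 hb hk hcv.dv
  have e1 : 2 * a * b * (a - b) = 2 * (a * b * (a - b)) := by ring
  rw [e1]
  rw [← hs] at hc
  calc 4 ^ (((2 * (a * b * (a - b))).natAbs.primeFactors.filter (fun q => ¬ q ∣ s)).card + 2)
      ≤ 4 ^ ((z + 2) + M * k + (q2 z y N).primeFactors.card) :=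
        Nat.pow_le_pow_right (by norm_num) (by omega)
    _ = _ := by
        rw [pow_add, pow_add]
        congr 2
        rw [← pow_mul]

/-- divisors -/
lemma dv_aux {N A0 B0 D0 : ℤ} (hN : N = A0 * B0 * (A0 - B0) * D0) {q : ℕ} (hq : q.Prime)
    (h : (q : ℤ) ∣ (A0 * D0) * (B0 * D0) * (A0 * D0 - B0 * D0)) : (q : ℤ) ∣ N := by
  have hqi : Prime (q : ℤ) := Nat.prime_iff_prime_int.1 hq
  have e : (A0 * D0) * (B0 * D0) * (A0 * D0 - B0 * D0) = (A0 * B0 * (A0 - B0)) * D0 ^ 3 := by ring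
  rw [e] at h
  rw [hN]
  rcases hqi.dvd_or_dvd h with h1 | h1
  · exact h1.mul_right _
  · exact (hqi.dvd_of_dvd_pow h1).mul_left _

/-- the curves of a family with good reduction at infinity -/
lemma cv_fam (hab : A.natDegree = B.natDegree) (hac : (A - B).natDegree = A.natDegree)
    (hev : Even (A.natDegree + D.natDegree)) (m : ℤ) :
    Cv A B D z w m ((sc A w).eval m * (sc D w).eval m) ((sc B w).eval m * (sc D w).eval m) := by
  have hfT : sc (fT A B D) w = fT (sc A w) (sc B w) (sc D w) := by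
    unfold fT
    rw [sc_mul, sc_mul, sc_mul, sc_sub A B w hab hac]
  have hNe : (sc (fT A B D) w).eval m = (sc A w).eval m * (sc B w).eval m *
      ((sc A w).eval m - (sc B w).eval m) * (sc D w).eval m := by
    rw [hfT]
    unfold fT
    simp only [eval_mul, eval_sub]
  refine ⟨fun h0 => ?_, fun q hq h => dv_aux hNe hq h, fun p hp hz hpw h1 h2 => ?_⟩
  · rw [hNe] at h0
    have hD := right_ne_zero_of_mul h0
    have hC := right_ne_zero_of_mul (left_ne_zero_of_mul h0)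
    have hA := left_ne_zero_of_mul (left_ne_zero_of_mul (left_ne_zero_of_mul h0))
    have hB := right_ne_zero_of_mul (left_ne_zero_of_mul (left_ne_zero_of_mul h0))
    refine ⟨mul_ne_zero hA hD, mul_ne_zero hB hD, ?_⟩
    rw [← sub_mul]
    exact mul_ne_zero hC hD
  · have h3 := locHQ3 hab hac hp hpw (ty3_dvd (f := fT A B D) (m := m) hp hpw) (Or.inl hev) h1 h2
      (neg := (ty3 (fT A B D) w p m).2) rfl
    rw [eval_mul, eval_mul] at h3
    exact h3

/-- the twists of one curve -/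
lemma cv_twist {a b : ℤ} {D : ℤ[X]} (hz : ∀ p : ℕ, p.Prime → z < p → ¬ (p : ℤ) ∣ a ∧
    ¬ (p : ℤ) ∣ b ∧ ¬ (p : ℤ) ∣ a - b) (hab : a ≠ 0 ∧ b ≠ 0 ∧ a - b ≠ 0) (m : ℤ) :
    Cv (C a) (C b) D z w m (a * (sc D w).eval m) (b * (sc D w).eval m) := by
  have h1 : (C a : ℤ[X]).natDegree = (C b : ℤ[X]).natDegree := by rw [natDegree_C, natDegree_C]
  have h2 : (C a - C b : ℤ[X]).natDegree = (C a : ℤ[X]).natDegree := by
    rw [← C_sub, natDegree_C, natDegree_C]
  have hsC : ∀ c : ℤ, sc (C c) w = C c := fun c => scaleRoots_C _ _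
  have hNe : (sc (fT (C a) (C b) D) w).eval m = a * b * (a - b) * (sc D w).eval m := by
    unfold fT
    rw [sc_mul, sc_mul, sc_mul, ← C_sub, hsC, hsC, hsC]
    simp only [eval_mul, eval_C]
  refine ⟨fun h0 => ?_, fun q hq h => dv_aux hNe hq h, fun p hp hzp hpw h3 h4 => ?_⟩
  · rw [hNe] at h0
    have hD := right_ne_zero_of_mul h0
    refine ⟨mul_ne_zero hab.1 hD, mul_ne_zero hab.2.1 hD, ?_⟩
    rw [← sub_mul]
    exact mul_ne_zero hab.2.2 hD
  · have h5 := locHQ3 (A := C a) (B := C b) h1 h2 hp hpw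
      (ty3_dvd (f := fT (C a) (C b) D) (m := m) hp hpw)
      (Or.inr (by
        rw [← C_sub, eval_C, eval_C, eval_C]
        exact hz p hp hzp)) h3 h4
      (neg := (ty3 (fT (C a) (C b) D) w p m).2) rfl
    rw [eval_mul, eval_mul, hsC, hsC, eval_C, eval_C] at h5
    exact h5

lemma sc_one (f : ℤ[X]) : sc f 1 = f := by
  unfold sc
  rw [Nat.cast_one]
  exact scaleRoots_one f

/-- integral parameters -/
lemma cv_one (m : ℤ) : Cv A B D z 1 m ((A * D).eval m) ((B * D).eval m) := by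
  have hNe : (sc (fT A B D) 1).eval m = A.eval m * B.eval m *
      (A.eval m - B.eval m) * D.eval m := by
    rw [sc_one]
    unfold fT
    simp only [eval_mul, eval_sub]
  rw [eval_mul, eval_mul]
  refine ⟨fun h0 => ?_, fun q hq h => dv_aux hNe hq h, fun p hp hz hpw h1 h2 => ?_⟩
  · rw [hNe] at h0
    have hD := right_ne_zero_of_mul h0
    have hC := right_ne_zero_of_mul (left_ne_zero_of_mul h0)
    have hA := left_ne_zero_of_mul (left_ne_zero_of_mul (left_ne_zero_of_mul h0))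
    have hB := right_ne_zero_of_mul (left_ne_zero_of_mul (left_ne_zero_of_mul h0))
    refine ⟨mul_ne_zero hA hD, mul_ne_zero hB hD, ?_⟩
    rw [← sub_mul]
    exact mul_ne_zero hC hD
  · have h3 := ty3_dvd (f := fT A B D) (m := m) hp hpw
    rw [Nat.cast_one, one_mul] at h3
    rw [sc_one] at h1 h2
    have h4 := locHQ hp h3 h1 h2 (neg := (ty3 (fT A B D) 1 p m).2) (by
      unfold ty3
      rw [sc_one])
    rw [eval_mul, eval_mul] at h4
    exact h4

end Pool.Agent.H64.QM
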