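import Mathlib
import Pool.Agent.H64.PM.PMF
import Pool.Agent.H64.QM.S7

/-!
# All moments: twists of one curve by the values of a polynomial at rational numbers
-/

set_option autoImplicit false

namespace Pool.Agent.H64.QM

open Finset Pool.Agent.W262.RK Polynomial
open Pool.Agent.H64.PM
open Pool.Agent.H64.MM (Tw rk rk_scale)

lemma sc_C (a : ℤ) (w : ℕ) : sc (C a) w = C a := scaleRoots_C _ _

/-- integral version -/
theorem pm2_int (k : ℕ) (a b : ℤ) (ha : a ≠ 0) (hb : b ≠ 0) (hab : a - b ≠ 0) (D : ℤ[X])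
    (hD : Squarefree (D.map (Int.castRingHom ℚ))) (hd : 0 < D.natDegree)
    (hev : Even D.natDegree) :
    ∃ C0 : ℝ, 0 ≤ C0 ∧ ∀ X : ℕ, 1 ≤ X →
      ∑ q ∈ (JJ X).filter (fun q : ℕ × ℕ => (sc D q.2).eval (q.1 : ℤ) ≠ 0),
      ((2 : ℝ) ^ Module.finrank ℤ (EAB (a * (sc D q.2).eval (q.1 : ℤ))
        (b * (sc D q.2).eval (q.1 : ℤ))).toAffine.Point) ^ k ≤ C0 * (X : ℝ) ^ 2 := by
  classical
  set f := fT (C a) (C b) D with hf
  have hD0 : D ≠ 0 := by
    rintro rfl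
    simp at hd
  have hfe : f = C (a * b * (a - b)) * D := by
    rw [hf]
    unfold fT
    simp only [C_mul, C_sub]
  have hc0 : a * b * (a - b) ≠ 0 := mul_ne_zero (mul_ne_zero ha hb) hab
  have hf0 : f ≠ 0 := by
    rw [hfe]
    exact mul_ne_zero (C_ne_zero.2 hc0) hD0
  have hsq : Squarefree (f.map (Int.castRingHom ℚ)) := by
    rw [hfe, Polynomial.map_mul, Polynomial.map_C]
    have hu : IsUnit (C ((Int.castRingHom ℚ) (a * b * (a - b)))) := by
      rw [isUnit_C, isUnit_iff_ne_zero]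
      have h1 : ((a * b * (a - b) : ℤ) : ℚ) ≠ 0 := by exact_mod_cast hc0
      exact h1
    have hass : Associated (D.map (Int.castRingHom ℚ))
        (C ((Int.castRingHom ℚ) (a * b * (a - b))) * D.map (Int.castRingHom ℚ)) :=
      (associated_isUnit_mul_left_iff hu).2 (Associated.refl _) |>.symm
    exact hass.squarefree_iff.1 hD
  have hDH : DH (C a) (C b) D := by
    refine ⟨?_, ?_, ?_⟩
    · rw [natDegree_C, natDegree_C]
    · rw [← C_sub, natDegree_C, natDegree_C]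
    · rw [natDegree_C, zero_add]
      exact hev
  obtain ⟨z1, hz1⟩ := smp_of f hsq
  obtain ⟨z2, hz2⟩ := Pool.Agent.H474R2.PG.rho_le f hf0
  set n := f.natDegree + 1 with hn
  have hρ : ∀ p : ℕ, p.Prime → z2 < p → rho f p ≤ n := fun p hp hzp =>
    (hz2 p hp hzp).trans (Nat.le_succ _)
  -- an irreducible factor
  obtain ⟨h, hh, hhd, hhD⟩ : ∃ h : ℤ[X], Irreducible h ∧ 0 < h.natDegree ∧ h ∣ D := by
    by_contra hcon
    push Not at hcon
    have key : ∀ g : ℤ[X], g ≠ 0 → g ∣ D → g.natDegree = 0 := by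
      intro g
      refine WfDvdMonoid.induction_on_irreducible (motive := fun g => g ≠ 0 → g ∣ D →
        g.natDegree = 0) g ?_ ?_ ?_
      · intro h0
        exact absurd rfl h0
      · intro u hu _ _
        exact natDegree_eq_zero_of_isUnit hu
      · intro g i hg0 hi ih _ hd
        have h1 : i ∣ D := (Dvd.intro _ rfl).trans hd
        have h2 : g ∣ D := (Dvd.intro_left _ rfl).trans hd
        have h3 : i.natDegree = 0 := by
          by_contra h4
          exact hcon i hi (Nat.pos_of_ne_zero h4) h1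
        rw [natDegree_mul hi.ne_zero hg0, h3, ih hg0 h2]
    have := key D hD0 (dvd_refl D)
    omega
  obtain ⟨z3, hz3⟩ := avg_pm k a b ha hb hab D n (by omega) z2 hρ h hh hhd hhD
  set z := z1 + z2 + z3 + (2 * n + 2) + f.leadingCoeff.natAbs with hz
  have hlc : ∀ p : ℕ, p.Prime → z < p → ¬ (p : ℤ) ∣ f.leadingCoeff := by
    intro p hp hzp h
    have := Nat.le_of_dvd (Int.natAbs_pos.2 (leadingCoeff_ne_zero.2 hf0)) (Int.natCast_dvd.1 h)
    omega
  obtain ⟨C', hC'⟩ := hz3 z (by omega)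
  obtain ⟨C0, hC00, hC0⟩ := mainq2 k (C a) (C b) D hDH n z (by omega) (by omega)
    (fun p hp hzp => hρ p hp (by omega)) (fun p hp hzp => hz1 p hp (by omega)) hlc C' hC'
  refine ⟨C0, hC00, fun X hX => le_trans (le_of_eq ?_) (hC0 X hX)⟩
  have hsc : ∀ w : ℕ, sc f w = C (a * b * (a - b)) * sc D w := by
    intro w
    rw [hfe, sc_mul, sc_C]
  have h1 : (JJ X).filter (fun q : ℕ × ℕ => (sc D q.2).eval (q.1 : ℤ) ≠ 0) =
      (JJ X).filter (fun q : ℕ × ℕ => (sc (fT (C a) (C b) D) q.2).eval (q.1 : ℤ) ≠ 0) := by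
    refine filter_congr fun t _ => ?_
    rw [← hf, hsc, eval_mul, eval_C]
    exact ⟨fun h => mul_ne_zero hc0 h, fun h => right_ne_zero_of_mul h⟩
  rw [h1]
  refine sum_congr rfl fun t _ => ?_
  rw [eval_mul, eval_mul, sc_C, sc_C, eval_C, eval_C]

/-- integral squarefree part, with the degree -/
lemma int_part2 (D : ℚ[X]) (hD : D ≠ 0) (hev : Even D.natDegree) :
    ∃ (S : ℤ[X]) (q : ℚ) (r : ℚ[X]), q ≠ 0 ∧
    Squarefree (S.map (Int.castRingHom ℚ)) ∧ Even S.natDegree ∧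
    ∀ t : ℚ, D.eval t = q * (S.map (Int.castRingHom ℚ)).eval t * (r.eval t) ^ 2 := by
  obtain ⟨S, q, r, hq, hS, h⟩ := int_part D hD
  refine ⟨S, q, r, hq, hS, ?_, h⟩
  have h1 : D = C q * S.map (Int.castRingHom ℚ) * r ^ 2 := by
    apply Polynomial.funext
    intro t
    rw [h, eval_mul, eval_mul, eval_C, eval_pow]
  have hS0 : S.map (Int.castRingHom ℚ) ≠ 0 := hS.ne_zero
  have hr0 : r ≠ 0 := by
    rintro rfl
    apply hD
    rw [h1]
    ring
  have h2 : D.natDegree = S.natDegree + 2 * r.natDegree := by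
    rw [h1, natDegree_mul (mul_ne_zero (C_ne_zero.2 hq) hS0) (pow_ne_zero 2 hr0),
      natDegree_C_mul hq, natDegree_pow,
      natDegree_map_eq_of_injective Int.cast_injective]
  rw [h2] at hev
  have h3 : Even (2 * r.natDegree) := even_two_mul _
  exact (Nat.even_add.1 hev).2 h3

/-- positive `t` -/
theorem pm2_one (k : ℕ) (a b : ℚ) (ha : a ≠ 0) (hb : b ≠ 0) (hab : a ≠ b)
    (D : ℚ[X]) (hD : D ≠ 0) (hev : Even D.natDegree) : ∃ C0 : ℝ, 0 ≤ C0 ∧ ∀ X : ℕ, 1 ≤ X →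
      ∑ t ∈ (JJ X).filter (fun t : ℕ × ℕ => D.eval ((t.1 : ℚ) / t.2) ≠ 0),
        ((2 : ℝ) ^ rk (Tw a b (D.eval ((t.1 : ℚ) / t.2)))) ^ k ≤ C0 * (X : ℝ) ^ 2 := by
  classical
  obtain ⟨S, q, r, hq, hS, hSev, hDe⟩ := int_part2 D hD hev
  set x : ℚ := a * q with hx
  set y : ℚ := b * q with hy
  have hx0 : x ≠ 0 := mul_ne_zero ha hq
  have hy0 : y ≠ 0 := mul_ne_zero hb hq
  have hxy : x ≠ y := fun h => hab (mul_right_cancel₀ hq h)
  set N : ℚ := (x.den : ℚ) * y.den with hN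
  have hxd : (x.den : ℚ) ≠ 0 := by exact_mod_cast x.den_ne_zero
  have hyd : (y.den : ℚ) ≠ 0 := by exact_mod_cast y.den_ne_zero
  have hN0 : N ≠ 0 := mul_ne_zero hxd hyd
  set A : ℤ := x.num * x.den * y.den ^ 2 with hA
  set B : ℤ := y.num * y.den * x.den ^ 2 with hB
  have hAx : (A : ℚ) = x * N ^ 2 := by
    rw [hA, hN]
    push_cast
    have h1 := Rat.mul_den_eq_num x
    linear_combination (-(x.den : ℚ) * y.den ^ 2) * h1
  have hBy : (B : ℚ) = y * N ^ 2 := by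
    rw [hB, hN]
    push_cast
    have h1 := Rat.mul_den_eq_num y
    linear_combination (-(y.den : ℚ) * x.den ^ 2) * h1
  have hA0 : A ≠ 0 := by
    intro h
    have : (A : ℚ) = 0 := by exact_mod_cast h
    rw [hAx] at this
    exact mul_ne_zero hx0 (pow_ne_zero _ hN0) this
  have hB0 : B ≠ 0 := by
    intro h
    have : (B : ℚ) = 0 := by exact_mod_cast h
    rw [hBy] at this
    exact mul_ne_zero hy0 (pow_ne_zero _ hN0) this
  have hAB : A - B ≠ 0 := by
    intro h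
    have h1 : (A : ℚ) = B := by exact_mod_cast (sub_eq_zero.1 h)
    rw [hAx, hBy] at h1
    exact hxy (mul_right_cancel₀ (pow_ne_zero _ hN0) h1)
  obtain ⟨d, hd⟩ := hSev
  have hSe : ∀ m w : ℕ, w ≠ 0 → (((sc S w).eval (m : ℤ) : ℤ) : ℚ) =
      ((w : ℚ) ^ d) ^ 2 * (S.map (Int.castRingHom ℚ)).eval ((m : ℚ) / w) := by
    intro m w hw
    rw [sc_eval_rat S w hw, ← pow_mul, hd]
    congr 2
    · ring
  have hwne : ∀ X : ℕ, ∀ t ∈ JJ X, t.2 ≠ 0 := by
    intro X t ht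
    have := (mem_JJ.1 ht).1.2.1
    omega
  have hne : ∀ X : ℕ, ∀ t ∈ JJ X, D.eval ((t.1 : ℚ) / t.2) ≠ 0 →
      (sc S t.2).eval (t.1 : ℤ) ≠ 0 ∧ r.eval ((t.1 : ℚ) / t.2) ≠ 0 := by
    intro X t htJ ht
    rw [hDe] at ht
    have hw := hwne X t htJ
    have hwq : (t.2 : ℚ) ≠ 0 := by exact_mod_cast hw
    constructor
    · intro h
      have h1 := hSe t.1 t.2 hw
      rw [h, Int.cast_zero] at h1
      have h2 := (mul_eq_zero.1 h1.symm).resolve_left (pow_ne_zero _ (pow_ne_zero _ hwq))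
      exact ht (by rw [h2]; ring)
    · intro h
      exact ht (by rw [h]; ring)
  have hrk : ∀ X : ℕ, ∀ t ∈ JJ X, D.eval ((t.1 : ℚ) / t.2) ≠ 0 →
      rk (Tw a b (D.eval ((t.1 : ℚ) / t.2))) =
      Module.finrank ℤ (EAB (A * (sc S t.2).eval (t.1 : ℤ))
        (B * (sc S t.2).eval (t.1 : ℤ))).toAffine.Point := by
    intro X t htJ ht
    obtain ⟨hG0, hGe⟩ := hne X t htJ ht
    have hw := hwne X t htJ
    have hwq : (t.2 : ℚ) ≠ 0 := by exact_mod_cast hw
    refine rk_scale _ _ a b _ (r.eval ((t.1 : ℚ) / t.2) / (N * (t.2 : ℚ) ^ d))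
      (div_ne_zero hGe (mul_ne_zero hN0 (pow_ne_zero _ hwq))) ?_ ?_
    · rw [hDe]
      push_cast
      rw [hAx, hSe _ _ hw, hx]
      field_simp
    · rw [hDe]
      push_cast
      rw [hBy, hSe _ _ hw, hy]
      field_simp
  rcases Nat.eq_zero_or_pos S.natDegree with hdeg | hdeg
  · -- constant squarefree part
    obtain ⟨c, hc⟩ : ∃ c : ℤ, S = C c := ⟨_, eq_C_of_natDegree_eq_zero hdeg⟩
    refine ⟨((2 : ℝ) ^ Module.finrank ℤ (EAB (A * c) (B * c)).toAffine.Point) ^ k, by positivity,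
      fun X hX => ?_⟩
    have h1 : ∀ t ∈ (JJ X).filter (fun t : ℕ × ℕ => D.eval ((t.1 : ℚ) / t.2) ≠ 0),
        ((2 : ℝ) ^ rk (Tw a b (D.eval ((t.1 : ℚ) / t.2)))) ^ k ≤
        ((2 : ℝ) ^ Module.finrank ℤ (EAB (A * c) (B * c)).toAffine.Point) ^ k := by
      intro t ht
      rw [hrk X t (mem_filter.1 ht).1 (mem_filter.1 ht).2, hc, sc_C, eval_C]
    refine (sum_le_card_nsmul _ _ _ h1).trans ?_
    rw [nsmul_eq_mul, mul_comm]
    refine mul_le_mul_of_nonneg_left ?_ (by positivity)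
    have h2 : ((JJ X).filter (fun t : ℕ × ℕ => D.eval ((t.1 : ℚ) / t.2) ≠ 0)).card ≤ X * X := by
      refine (card_filter_le _ _).trans ((card_filter_le _ _).trans ?_)
      rw [card_product, Nat.card_Icc, Nat.add_sub_cancel]
    have h3 : (((JJ X).filter (fun t : ℕ × ℕ => D.eval ((t.1 : ℚ) / t.2) ≠ 0)).card : ℝ) ≤
        ((X * X : ℕ) : ℝ) := by exact_mod_cast h2
    refine h3.trans (le_of_eq ?_)
    push_cast
    ring
  · obtain ⟨C0, hC00, hC0⟩ := pm2_int k A B hA0 hB0 hAB S hS hdeg ⟨d, hd⟩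
    refine ⟨C0, hC00, fun X hX => ?_⟩
    refine le_trans ?_ (hC0 X hX)
    calc ∑ t ∈ (JJ X).filter (fun t : ℕ × ℕ => D.eval ((t.1 : ℚ) / t.2) ≠ 0),
          ((2 : ℝ) ^ rk (Tw a b (D.eval ((t.1 : ℚ) / t.2)))) ^ k
        = ∑ t ∈ (JJ X).filter (fun t : ℕ × ℕ => D.eval ((t.1 : ℚ) / t.2) ≠ 0),
            ((2 : ℝ) ^ Module.finrank ℤ (EAB (A * (sc S t.2).eval (t.1 : ℤ))
              (B * (sc S t.2).eval (t.1 : ℤ))).toAffine.Point) ^ k := by
          refine sum_congr rfl fun t ht => ?_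
          rw [hrk X t (mem_filter.1 ht).1 (mem_filter.1 ht).2]
      _ ≤ _ := by
          refine sum_le_sum_of_subset_of_nonneg ?_ fun _ _ _ => by positivity
          intro t ht
          rw [mem_filter] at ht ⊢
          exact ⟨ht.1, (hne X t ht.1 ht.2).1⟩

end Pool.Agent.H64.QM
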