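import Mathlib
import Pool.Agent.H64.QM.S8

/-!
# All moments: twists of one curve by the values of an arbitrary polynomial at the rational numbers
-/

set_option autoImplicit false

namespace Pool.Agent.H64.QM

open Finset Pool.Agent.W262.RK Polynomial
open Pool.Agent.H64.PM
open Pool.Agent.H64.MM (Tw rk rk_scale)

/-- the rational numbers `m / w` with `|m| ≤ X` and `1 ≤ w ≤ X` -/
noncomputable def rats (X : ℕ) : Finset ℚ :=
  ((Icc (-(X : ℤ)) X) ×ˢ (Icc 1 X)).image (fun q : ℤ × ℕ => (q.1 : ℚ) / q.2)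

lemma na_pos {m : ℤ} (h : 0 < m) : ((m.natAbs : ℕ) : ℚ) = (m : ℚ) := by
  have h1 : ((m.natAbs : ℕ) : ℤ) = m := by omega
  calc ((m.natAbs : ℕ) : ℚ) = (((m.natAbs : ℕ) : ℤ) : ℚ) := (Int.cast_natCast _).symm
    _ = m := by rw [h1]

lemma na_neg {m : ℤ} (h : m < 0) : ((m.natAbs : ℕ) : ℚ) = -(m : ℚ) := by
  have h1 : ((m.natAbs : ℕ) : ℤ) = -m := by omega
  calc ((m.natAbs : ℕ) : ℚ) = (((m.natAbs : ℕ) : ℤ) : ℚ) := (Int.cast_natCast _).symm
    _ = ((-m : ℤ) : ℚ) := by rw [h1]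
    _ = _ := Int.cast_neg _

lemma mem_rats {X : ℕ} {t : ℚ} : t ∈ rats X ↔ t.num.natAbs ≤ X ∧ t.den ≤ X := by
  unfold rats
  rw [mem_image]
  constructor
  · rintro ⟨⟨m, w⟩, hq, rfl⟩
    rw [mem_product, mem_Icc, mem_Icc] at hq
    obtain ⟨⟨h1, h2⟩, h3, h4⟩ := hq
    simp only at h1 h2 h3 h4 ⊢
    have hw0 : (w : ℤ) ≠ 0 := by omega
    have e1 : ((m : ℚ) / w) = Rat.divInt m (w : ℤ) := by
      rw [Rat.divInt_eq_div]
      push_cast
      rfl
    rw [e1]
    constructor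
    · by_cases hm : m = 0
      · subst hm
        simp
      · have h5 := Int.le_of_dvd (Int.natCast_pos.2 (Int.natAbs_pos.2 hm))
          (Int.dvd_natAbs.2 (Rat.num_dvd m hw0))
        have h6 := Int.natAbs_dvd_natAbs.2 (Rat.num_dvd m hw0)
        have h7 := Nat.le_of_dvd (Int.natAbs_pos.2 hm) h6
        omega
    · have h5 := Int.le_of_dvd (by omega) (Rat.den_dvd m (w : ℤ))
      omega
  · rintro ⟨h1, h2⟩
    refine ⟨(t.num, t.den), ?_, Rat.num_div_den t⟩
    rw [mem_product, mem_Icc, mem_Icc]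
    have := t.den_pos
    simp only
    omega

lemma sum_image_le' {τ σ : Type} [DecidableEq σ] {S : Finset τ} {g : τ → σ}
    {φ : σ → ℝ} (hφ : ∀ t, 0 ≤ φ t) : ∑ t ∈ S.image g, φ t ≤ ∑ q ∈ S, φ (g q) := by
  classical
  rw [← sum_fiberwise_of_maps_to (g := g) (t := S.image g) fun q hq => mem_image_of_mem g hq]
  refine sum_le_sum fun t ht => ?_
  obtain ⟨q, hq, rfl⟩ := mem_image.1 ht
  exact single_le_sum (f := fun i => φ (g i)) (fun i _ => hφ _)
    (mem_filter.2 ⟨hq, rfl⟩)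

lemma sum_rats_le {φ : ℚ → ℝ} (hφ : ∀ t, 0 ≤ φ t) (X : ℕ) : ∑ t ∈ rats X, φ t ≤
    φ 0 + ∑ q ∈ JJ X, φ ((q.1 : ℚ) / q.2) + ∑ q ∈ JJ X, φ (-((q.1 : ℚ) / q.2)) := by
  classical
  have hsub : rats X ⊆ ({0} ∪ (JJ X).image (fun q : ℕ × ℕ => (q.1 : ℚ) / q.2)) ∪
      (JJ X).image (fun q : ℕ × ℕ => -((q.1 : ℚ) / q.2)) := by
    intro t ht
    rw [mem_rats] at ht
    have hden := t.den_pos
    have hcop := t.reduced
    rw [mem_union, mem_union, mem_singleton, mem_image, mem_image]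
    rcases lt_trichotomy t 0 with h | h | h
    · right
      have hn : t.num < 0 := Rat.num_neg.2 h
      refine ⟨(t.num.natAbs, t.den), mem_JJ.2 ⟨⟨⟨by simp only; omega, ht.1⟩, hden, ht.2⟩, hcop⟩, ?_⟩
      have e1 : ((t.num.natAbs : ℕ) : ℚ) = -(t.num : ℚ) := na_neg hn
      show -(((t.num.natAbs : ℕ) : ℚ) / t.den) = t
      rw [e1, neg_div, neg_neg, Rat.num_div_den]
    · left; left
      exact h
    · left; right
      have hn : 0 < t.num := Rat.num_pos.2 h
      refine ⟨(t.num.natAbs, t.den), mem_JJ.2 ⟨⟨⟨by simp only; omega, ht.1⟩, hden, ht.2⟩, hcop⟩, ?_⟩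
      have e1 : ((t.num.natAbs : ℕ) : ℚ) = (t.num : ℚ) := na_pos hn
      show ((t.num.natAbs : ℕ) : ℚ) / t.den = t
      rw [e1, Rat.num_div_den]
  have hun : ∀ S T : Finset ℚ, ∑ t ∈ S ∪ T, φ t ≤ ∑ t ∈ S, φ t + ∑ t ∈ T, φ t := by
    intro S T
    rw [← sum_union_inter]
    exact le_add_of_nonneg_right (sum_nonneg fun t _ => hφ t)
  refine (sum_le_sum_of_subset_of_nonneg hsub fun t _ _ => hφ t).trans ?_
  refine (hun _ _).trans (add_le_add ((hun _ _).trans (add_le_add ?_ ?_)) ?_)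
  · rw [sum_singleton]
  · exact sum_image_le' hφ
  · exact sum_image_le' hφ

/-- scaling by a square does not change the rank -/
lemma rk_sq (a b d u : ℚ) (hu : u ≠ 0) : rk (Tw a b (d * u ^ 2)) = rk (Tw a b d) := by
  set x : ℚ := a * d with hx
  set y : ℚ := b * d with hy
  set N : ℚ := (x.den : ℚ) * y.den with hN
  have hxd : (x.den : ℚ) ≠ 0 := by exact_mod_cast x.den_ne_zero
  have hyd : (y.den : ℚ) ≠ 0 := by exact_mod_cast y.den_ne_zero
  have hN0 : N ≠ 0 := mul_ne_zero hxd hyd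
  set A : ℤ := x.num * x.den * y.den ^ 2 with hA
  set B : ℤ := y.num * y.den * x.den ^ 2 with hB
  have hAx : (A : ℚ) = x * N ^ 2 := by
    rw [hA, hN]
    push_cast
    have h1 := Rat.mul_den_eq_num x
    linear_combination (-(x.den : ℚ) * y.den ^ 2) * h1
  have hBy : (B : ℚ) = y * N ^ 2 := by
    rw [hB, hN]
    push_cast
    have h1 := Rat.mul_den_eq_num y
    linear_combination (-(y.den : ℚ) * x.den ^ 2) * h1
  rw [rk_scale A B a b d (1 / N) (by positivity) (by rw [hAx]; field_simp; rw [hx])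
    (by rw [hBy]; field_simp; rw [hy]),
    rk_scale A B a b (d * u ^ 2) (u / N) (div_ne_zero hu hN0) (by rw [hAx]; field_simp; rw [hx])
    (by rw [hBy]; field_simp; rw [hy])]

/-- the function that is summed -/
noncomputable def gk (k : ℕ) (a b : ℚ) (D : ℚ[X]) (t : ℚ) : ℝ :=
  if D.eval t ≠ 0 then ((2 : ℝ) ^ rk (Tw a b (D.eval t))) ^ k else 0

lemma gk_nonneg (k : ℕ) (a b : ℚ) (D : ℚ[X]) (t : ℚ) : 0 ≤ gk k a b D t := by
  unfold gk
  split_ifs
  · positivity
  · exact le_rfl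

/-- even degree -/
theorem pm2_even (k : ℕ) (a b : ℚ) (ha : a ≠ 0) (hb : b ≠ 0) (hab : a ≠ b)
    (D : ℚ[X]) (hD : D ≠ 0) (hev : Even D.natDegree) : ∃ C0 : ℝ, 0 ≤ C0 ∧ ∀ X : ℕ, 1 ≤ X →
      ∑ t ∈ rats X, gk k a b D t ≤ C0 * (X : ℝ) ^ 2 := by
  classical
  obtain ⟨C1, hC10, hC1⟩ := pm2_one k a b ha hb hab D hD hev
  have hcomp : ∀ t : ℚ, (D.comp (-X)).eval t = D.eval (-t) := by
    intro t
    rw [eval_comp]
    simp
  have hD' : D.comp (-X) ≠ 0 := by
    intro h
    apply hD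
    have h1 : (D.comp (-X)).comp (-X) = D := by
      rw [comp_assoc]
      simp
    rw [← h1, h, zero_comp]
  obtain ⟨C2, hC20, hC2⟩ := pm2_one k a b ha hb hab (D.comp (-X)) hD' (by
    rw [natDegree_comp, natDegree_neg, natDegree_X, mul_one]
    exact hev)
  refine ⟨C1 + C2 + gk k a b D 0, add_nonneg (add_nonneg hC10 hC20) (gk_nonneg _ _ _ _ _),
    fun X hX => ?_⟩
  have hXr : (1 : ℝ) ≤ X := by exact_mod_cast hX
  have h0 := gk_nonneg k a b D 0
  refine (sum_rats_le (gk_nonneg k a b D) X).trans ?_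
  have e1 : ∑ q ∈ JJ X, gk k a b D ((q.1 : ℚ) / q.2) ≤ C1 * (X : ℝ) ^ 2 := by
    refine le_trans (le_of_eq ?_) (hC1 X hX)
    rw [sum_filter]
    rfl
  have e2 : ∑ q ∈ JJ X, gk k a b D (-((q.1 : ℚ) / q.2)) ≤ C2 * (X : ℝ) ^ 2 := by
    refine le_trans (le_of_eq ?_) (hC2 X hX)
    rw [sum_filter]
    refine sum_congr rfl fun q _ => ?_
    unfold gk
    rw [hcomp]
  have h3 : (1 : ℝ) ≤ (X : ℝ) ^ 2 := one_le_pow₀ hXr
  nlinarith

/-- the height of `1 / (t - n)` -/
lemma inv_mem_rats {X n : ℕ} {t : ℚ} (ht : t ∈ rats X) (h : t ≠ n) :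
    (t - n)⁻¹ ∈ rats ((1 + n) * X) := by
  rw [mem_rats] at ht
  have hden := t.den_pos
  have hdq : (t.den : ℚ) ≠ 0 := by exact_mod_cast hden.ne'
  obtain ⟨m, hm⟩ : ∃ m : ℤ, m = t.num - n * t.den := ⟨_, rfl⟩
  have e0 : t - n = m / t.den := by
    rw [hm]
    push_cast
    rw [sub_div, Rat.num_div_den, mul_div_assoc, div_self hdq, mul_one]
  have hm0 : m ≠ 0 := by
    intro h0
    rw [h0, Int.cast_zero, zero_div] at e0
    exact h (sub_eq_zero.1 e0)
  have hmq : (m : ℚ) ≠ 0 := by exact_mod_cast hm0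
  have hb : m.natAbs ≤ (1 + n) * X := by
    have h1 : m.natAbs ≤ t.num.natAbs + (n * t.den : ℕ) := by
      rw [hm]
      have := Int.natAbs_sub_le t.num ((n : ℤ) * t.den)
      rw [Int.natAbs_mul, Int.natAbs_natCast, Int.natAbs_natCast] at this
      exact this
    have h2 : n * t.den ≤ n * X := Nat.mul_le_mul_left _ ht.2
    rw [add_mul, one_mul]
    omega
  have hX' : t.den ≤ (1 + n) * X := ht.2.trans (Nat.le_mul_of_pos_left _ (by omega))
  unfold rats
  rw [mem_image]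
  rcases lt_or_gt_of_ne hm0 with hneg | hpos
  · refine ⟨(-(t.den : ℤ), m.natAbs), ?_, ?_⟩
    · rw [mem_product, mem_Icc, mem_Icc]
      simp only
      push_cast
      refine ⟨⟨by zify at hX'; linarith, by
        have : (0 : ℤ) ≤ (1 + n) * X := by positivity
        have h3 : (0 : ℤ) < t.den := by exact_mod_cast hden
        linarith⟩, by omega, hb⟩
    · simp only
      have e1 : ((m.natAbs : ℕ) : ℚ) = -(m : ℚ) := na_neg hneg
      rw [e1, e0, inv_div]
      push_cast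
      rw [neg_div_neg_eq]
  · refine ⟨((t.den : ℤ), m.natAbs), ?_, ?_⟩
    · rw [mem_product, mem_Icc, mem_Icc]
      simp only
      push_cast
      refine ⟨⟨by
        have : (0 : ℤ) ≤ (1 + n) * X := by positivity
        have h3 : (0 : ℤ) < t.den := by exact_mod_cast hden
        linarith, by zify at hX'; linarith⟩, by omega, hb⟩
    · simp only
      have e1 : ((m.natAbs : ℕ) : ℚ) = (m : ℚ) := na_pos hpos
      rw [e1, e0, inv_div]
      push_cast
      rfl

/-- the polynomial in the coordinate `1 / (t - n)` -/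
noncomputable def mob (e n : ℕ) (D : ℚ[X]) : ℚ[X] := reflect e (D.comp (X + C (n : ℚ)))

lemma mob_eval {e n : ℕ} {D : ℚ[X]} (he : D.natDegree ≤ e) {t : ℚ} (ht : t ≠ n) :
    (mob e n D).eval ((t - n)⁻¹) * (t - n) ^ e = D.eval t := by
  have h0 : t - n ≠ 0 := sub_ne_zero.2 ht
  have : Invertible (t - (n : ℚ)) := invertibleOfNonzero h0
  have h1 := eval₂_reflect_mul_pow (RingHom.id ℚ) (t - (n : ℚ)) e (D.comp (X + C (n : ℚ))) (by
    rw [natDegree_comp, natDegree_X_add_C, mul_one]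
    exact he)
  rw [invOf_eq_inv] at h1
  unfold mob
  have h2 : eval₂ (RingHom.id ℚ) (t - (n : ℚ)) (D.comp (X + C (n : ℚ))) = D.eval t := by
    rw [eval₂_id, eval_comp]
    simp
  rw [h2, eval₂_id] at h1
  exact h1

lemma mob_natDegree {e n : ℕ} {D : ℚ[X]} (he : D.natDegree ≤ e) (h : D.eval (n : ℚ) ≠ 0) :
    (mob e n D).natDegree = e := by
  apply le_antisymm
  · unfold mob
    refine natDegree_reflect_le.trans ?_
    rw [natDegree_comp, natDegree_X_add_C, mul_one]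
    exact max_le le_rfl he
  · apply le_natDegree_of_ne_zero
    unfold mob
    rw [coeff_reflect, revAt_le le_rfl, Nat.sub_self, coeff_zero_eq_eval_zero, eval_comp]
    simpa using h

lemma exists_nonroot (D : ℚ[X]) (hD : D ≠ 0) : ∃ n : ℕ, D.eval (n : ℚ) ≠ 0 := by
  by_contra hcon
  push Not at hcon
  apply hD
  apply Polynomial.eq_zero_of_infinite_isRoot
  refine Set.infinite_of_injective_forall_mem (f := fun n : ℕ => (n : ℚ)) Nat.cast_injective ?_
  intro n
  exact hcon n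

/-- **All moments over the rational numbers of bounded height.** -/
theorem pm2_all (k : ℕ) (a b : ℚ) (ha : a ≠ 0) (hb : b ≠ 0) (hab : a ≠ b)
    (D : ℚ[X]) (hD : D ≠ 0) : ∃ C0 : ℝ, 0 ≤ C0 ∧ ∀ X : ℕ, 1 ≤ X →
      ∑ t ∈ rats X, gk k a b D t ≤ C0 * (X : ℝ) ^ 2 := by
  classical
  obtain ⟨n, hn⟩ := exists_nonroot D hD
  set e := 2 * D.natDegree with he
  have hDe : D.natDegree ≤ e := by omega
  have hM := mob_natDegree hDe hn
  have hM0 : mob e n D ≠ 0 ∨ e = 0 := by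
    rcases Nat.eq_zero_or_pos e with h | h
    · exact Or.inr h
    · left
      intro h0
      rw [h0, natDegree_zero] at hM
      omega
  have hMne : mob e n D ≠ 0 := by
    rcases hM0 with h | h
    · exact h
    · intro h0
      unfold mob at h0
      rw [reflect_eq_zero_iff] at h0
      have h1 := congrArg (fun G : ℚ[X] => G.eval 0) h0
      simp only [eval_comp, eval_add, eval_X, eval_C, zero_add, eval_zero] at h1
      exact hn h1
  obtain ⟨C1, hC10, hC1⟩ := pm2_even k a b ha hb hab (mob e n D) hMne (by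
    rw [hM, he]
    exact even_two_mul _)
  have hg : ∀ t : ℚ, t ≠ n → gk k a b D t = gk k a b (mob e n D) ((t - n)⁻¹) := by
    intro t ht
    have h0 : t - n ≠ 0 := sub_ne_zero.2 ht
    have h1 := mob_eval hDe ht
    have h2 : (t - (n : ℚ)) ^ e = ((t - (n : ℚ)) ^ D.natDegree) ^ 2 := by
      rw [he, ← pow_mul, mul_comm]
    unfold gk
    by_cases h3 : D.eval t = 0
    · have h4 : (mob e n D).eval ((t - n)⁻¹) = 0 := by
        rw [h3] at h1
        exact (mul_eq_zero.1 h1).resolve_right (pow_ne_zero _ h0)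
      rw [if_neg (by simpa using h3), if_neg (by simpa using h4)]
    · have h4 : (mob e n D).eval ((t - n)⁻¹) ≠ 0 := by
        intro h4
        rw [h4, zero_mul] at h1
        exact h3 h1.symm
      rw [if_pos h3, if_pos h4, ← h1, h2, rk_sq _ _ _ _ (pow_ne_zero _ h0)]
  refine ⟨C1 * (1 + n) ^ 2 + gk k a b D n, add_nonneg (by positivity) (gk_nonneg _ _ _ _ _),
    fun X hX => ?_⟩
  have hXr : (1 : ℝ) ≤ X := by exact_mod_cast hX
  have h0 := gk_nonneg k a b D n
  have h1 : ∑ t ∈ rats X, gk k a b D t ≤ gk k a b D n +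
      ∑ t ∈ (rats X).filter (fun t : ℚ => t ≠ n), gk k a b D t := by
    rw [← sum_filter_add_sum_filter_not (rats X) (fun t => t = (n : ℚ))]
    refine add_le_add ?_ le_rfl
    have h2 : (rats X).filter (fun t => t = (n : ℚ)) ⊆ {(n : ℚ)} := by
      intro t ht
      rw [mem_singleton]
      exact (mem_filter.1 ht).2
    refine (sum_le_sum_of_subset_of_nonneg h2 fun t _ _ => gk_nonneg _ _ _ _ _).trans ?_
    rw [sum_singleton]
  have h2 : ∑ t ∈ (rats X).filter (fun t : ℚ => t ≠ n), gk k a b D t ≤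
      ∑ x ∈ rats ((1 + n) * X), gk k a b (mob e n D) x := by
    have h3 : ∑ t ∈ (rats X).filter (fun t : ℚ => t ≠ n), gk k a b D t =
        ∑ t ∈ (rats X).filter (fun t : ℚ => t ≠ n), gk k a b (mob e n D) ((t - n)⁻¹) :=
      sum_congr rfl fun t ht => hg t (mem_filter.1 ht).2
    rw [h3, ← sum_image (f := fun x => gk k a b (mob e n D) x) (g := fun t : ℚ => (t - n)⁻¹)
      (fun t _ t' _ h => by simpa using h)]
    refine sum_le_sum_of_subset_of_nonneg ?_ fun t _ _ => gk_nonneg _ _ _ _ _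
    intro x hx
    obtain ⟨t, ht, rfl⟩ := mem_image.1 hx
    rw [mem_filter] at ht
    exact inv_mem_rats ht.1 ht.2
  have h3 := hC1 ((1 + n) * X) (Nat.mul_pos (by omega) hX)
  push_cast at h3
  have h4 : (1 : ℝ) ≤ (X : ℝ) ^ 2 := one_le_pow₀ hXr
  nlinarith

end Pool.Agent.H64.QM
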