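import Mathlib
import Pool.Agent.H64.PM.FMF
import Pool.Agent.H64.QM.S9

/-!
# The average of `2 ^ rank` in general families with full 2-torsion over the rational numbers
-/

set_option autoImplicit false

namespace Pool.Agent.H64.QM

open Finset Pool.Agent.W262.RK Polynomial UniqueFactorizationMonoid
open Pool.Agent.H64.PM
open Pool.Agent.H64.MM (Tw rk rk_scale)

/-- integral version -/
theorem fam2_int (A B D : ℤ[X]) (hDH : DH A B D) (hf0 : fT A B D ≠ 0) (z1 m : ℕ) (hm : 1 ≤ m)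
    (hsm : Smp (fT A B D) z1) (hM : MH A B D m) :
    ∃ C0 : ℝ, 0 ≤ C0 ∧ ∀ X : ℕ, 1 ≤ X →
      ∑ q ∈ (JJ X).filter (fun q : ℕ × ℕ => (sc (fT A B D) q.2).eval (q.1 : ℤ) ≠ 0),
      (2 : ℝ) ^ Module.finrank ℤ (EAB ((sc A q.2 * sc D q.2).eval (q.1 : ℤ))
        ((sc B q.2 * sc D q.2).eval (q.1 : ℤ))).toAffine.Point ≤ C0 * (X : ℝ) ^ 2 := by
  classical
  obtain ⟨z2, hz2⟩ := Pool.Agent.H474R2.PG.rho_le (fT A B D) hf0
  set n := (fT A B D).natDegree + 1 with hn
  have hρ : ∀ p : ℕ, p.Prime → z1 + z2 < p → rho (fT A B D) p ≤ n := fun p hp hzp =>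
    (hz2 p hp (by omega)).trans (Nat.le_succ _)
  obtain ⟨z3, hz3⟩ := avg_fam A B D n (z1 + z2) m hm hρ (fun p hp hzp => hsm p hp (by omega)) hM
  set z := z1 + z2 + z3 + (2 * n + 2) + (fT A B D).leadingCoeff.natAbs with hz
  have hlc : ∀ p : ℕ, p.Prime → z < p → ¬ (p : ℤ) ∣ (fT A B D).leadingCoeff := by
    intro p hp hzp h
    have := Nat.le_of_dvd (Int.natAbs_pos.2 (leadingCoeff_ne_zero.2 hf0)) (Int.natCast_dvd.1 h)
    omega
  obtain ⟨C', hC'⟩ := hz3 z (by omega)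
  obtain ⟨C0, hC00, hC0⟩ := mainq2 1 A B D hDH n z (by omega) (by omega)
    (fun p hp hzp => hρ p hp (by omega)) (fun p hp hzp => hsm p hp (by omega)) hlc C' hC'
  refine ⟨C0, hC00, fun X hX => ?_⟩
  have h1 := hC0 X hX
  simp only [pow_one] at h1
  exact h1

lemma ng_natDegree (G : ℤ[X]) : (ng G).natDegree = G.natDegree := by
  unfold ng
  rw [natDegree_comp, natDegree_neg, natDegree_X, mul_one]

lemma DH_ng {A B D : ℤ[X]} (h : DH A B D) : DH (ng A) (ng B) (ng D) := by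
  refine ⟨?_, ?_, ?_⟩
  · rw [ng_natDegree, ng_natDegree]
    exact h.ab
  · rw [← ng_sub, ng_natDegree, ng_natDegree]
    exact h.ac
  · rw [ng_natDegree, ng_natDegree]
    exact h.ev

/-- the value of the form at `m / w` -/
lemma sc_val {G : ℤ[X]} {H : ℚ[X]} {c : ℚ} (h : G.map (Int.castRingHom ℚ) = C c * H) {m w : ℕ}
    (hw : w ≠ 0) : (((sc G w).eval (m : ℤ) : ℤ) : ℚ) =
      (w : ℚ) ^ G.natDegree * (c * H.eval ((m : ℚ) / w)) := by
  rw [sc_eval_rat G w hw, h, eval_mul, eval_C]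
  rfl

lemma sc_val_neg {G : ℤ[X]} {H : ℚ[X]} {c : ℚ} (h : G.map (Int.castRingHom ℚ) = C c * H) {m w : ℕ}
    (hw : w ≠ 0) : (((sc (ng G) w).eval (m : ℤ) : ℤ) : ℚ) =
      (w : ℚ) ^ G.natDegree * (c * H.eval (-((m : ℚ) / w))) := by
  rw [sc_eval_rat (ng G) w hw, ng_natDegree]
  congr 1
  unfold ng
  rw [Polynomial.map_comp, Polynomial.map_neg, Polynomial.map_X, eval_comp, eval_neg, eval_X, h,
    eval_mul, eval_C]
  rfl

/-- the function that is summed -/
noncomputable def gf (A B D : ℚ[X]) (t : ℚ) : ℝ :=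
  if (A * B * (A - B) * D).eval t ≠ 0 then
    (2 : ℝ) ^ rk (Tw (A.eval t) (B.eval t) (D.eval t)) else 0

lemma gf_nonneg (A B D : ℚ[X]) (t : ℚ) : 0 ≤ gf A B D t := by
  unfold gf
  split_ifs
  · positivity
  · exact le_rfl

set_option maxHeartbeats 1000000 in
/-- rational version -/
theorem fam2_all (A B D : ℚ[X]) (hsq : Squarefree (A * B * (A - B))) (hD : D ≠ 0)
    (hco : IsCoprime D (A * B * (A - B)))
    (h1 : Multiset.card (normalizedFactors A) = Multiset.card (normalizedFactors B))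
    (h2 : Multiset.card (normalizedFactors B) = Multiset.card (normalizedFactors (A - B)))
    (hd1 : A.natDegree = B.natDegree) (hd2 : (A - B).natDegree = A.natDegree)
    (hev : Even (A.natDegree + D.natDegree)) :
    ∃ C0 : ℝ, 0 ≤ C0 ∧ ∀ X : ℕ, 1 ≤ X → ∑ t ∈ rats X, gf A B D t ≤ C0 * (X : ℝ) ^ 2 := by
  classical
  have hABC0 : A * B * (A - B) ≠ 0 := hsq.ne_zero
  have hA0 : A ≠ 0 := left_ne_zero_of_mul (left_ne_zero_of_mul hABC0)
  have hB0 : B ≠ 0 := right_ne_zero_of_mul (left_ne_zero_of_mul hABC0)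
  have hAB0 : A - B ≠ 0 := right_ne_zero_of_mul hABC0
  rcases Nat.eq_zero_or_pos (Multiset.card (normalizedFactors A)) with hc | hc
  · -- constant polynomials
    have hunit : ∀ G : ℚ[X], G ≠ 0 → Multiset.card (normalizedFactors G) = 0 →
        ∃ c : ℚ, c ≠ 0 ∧ G = C c := by
      intro G hG h
      have h3 : IsUnit G := by
        have h4 := prod_normalizedFactors hG
        rw [Multiset.card_eq_zero.1 h, Multiset.prod_zero] at h4
        exact (associated_one_iff_isUnit).1 h4.symm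
      obtain ⟨c, hc, hc2⟩ := Polynomial.isUnit_iff.1 h3
      exact ⟨c, hc.ne_zero, hc2.symm⟩
    obtain ⟨a, ha, rfl⟩ := hunit A hA0 hc
    obtain ⟨b, hb, rfl⟩ := hunit B hB0 (by rw [← h1]; exact hc)
    have hab : a ≠ b := by
      rintro rfl
      exact hAB0 (sub_self _)
    obtain ⟨C0, hC00, hC0⟩ := pm2_all 1 a b ha hb hab D hD
    refine ⟨C0, hC00, fun X hX => le_trans (le_of_eq ?_) (hC0 X hX)⟩
    refine sum_congr rfl fun t _ => ?_
    unfold gf gk
    rw [eval_C, eval_C, pow_one]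
    have h3 : (C a * C b * (C a - C b) * D).eval t ≠ 0 ↔ D.eval t ≠ 0 := by
      simp only [eval_mul, eval_sub, eval_C]
      exact ⟨fun h => right_ne_zero_of_mul h, fun h => mul_ne_zero
        (mul_ne_zero (mul_ne_zero ha hb) (sub_ne_zero.2 hab)) h⟩
    by_cases h4 : D.eval t ≠ 0
    · rw [if_pos h4, if_pos (h3.2 h4)]
    · rw [if_neg h4, if_neg (fun h => h4 (h3.1 h))]
  -- clearing the denominators
  obtain ⟨s, r, hs, hDs⟩ := sqf_part D hD
  have hs0 : s ≠ 0 := hs.ne_zero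
  have hr0 : r ≠ 0 := by
    rintro rfl
    exact hD (by rw [hDs]; ring)
  have hclear : ∀ q : ℚ[X], ∃ (N : ℤ) (Q : ℤ[X]), N ≠ 0 ∧
      Q.map (Int.castRingHom ℚ) = C (N : ℚ) * q := by
    intro q
    obtain ⟨b, hbM, hb⟩ := IsLocalization.integerNormalization_spec (nonZeroDivisors ℤ) q
    refine ⟨b, IsLocalization.integerNormalization (nonZeroDivisors ℤ) q,
      nonZeroDivisors.ne_zero hbM, ?_⟩
    have h1 : (algebraMap ℤ ℚ) = Int.castRingHom ℚ := rfl
    rw [← h1, hb]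
    ext i
    simp
  obtain ⟨N1, QA, hN1, hQA⟩ := hclear A
  obtain ⟨N2, QB, hN2, hQB⟩ := hclear B
  obtain ⟨N3, QS, hN3, hQS⟩ := hclear s
  have hN1q : (N1 : ℚ) ≠ 0 := by exact_mod_cast hN1
  have hN2q : (N2 : ℚ) ≠ 0 := by exact_mod_cast hN2
  have hN3q : (N3 : ℚ) ≠ 0 := by exact_mod_cast hN3
  set N : ℤ := N1 * N2 with hN
  have hNq : (N : ℚ) ≠ 0 := by
    rw [hN]
    push_cast
    exact mul_ne_zero hN1q hN2q
  set A1 : ℤ[X] := C (N1 * N2 ^ 2) * QA with hA1
  set B1 : ℤ[X] := C (N1 ^ 2 * N2) * QB with hB1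
  set D1 : ℤ[X] := C N3 * QS with hD1
  have hcast : ∀ c : ℤ, (Int.castRingHom ℚ) c = (c : ℚ) := fun c => rfl
  have hA1m : A1.map (Int.castRingHom ℚ) = C ((N : ℚ) ^ 2) * A := by
    rw [hA1, Polynomial.map_mul, map_C, hQA, hcast, ← mul_assoc, ← C_mul, hN]
    congr 2
    push_cast
    ring
  have hB1m : B1.map (Int.castRingHom ℚ) = C ((N : ℚ) ^ 2) * B := by
    rw [hB1, Polynomial.map_mul, map_C, hQB, hcast, ← mul_assoc, ← C_mul, hN]
    congr 2
    push_cast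
    ring
  have hC1m : (A1 - B1).map (Int.castRingHom ℚ) = C ((N : ℚ) ^ 2) * (A - B) := by
    rw [Polynomial.map_sub, hA1m, hB1m]
    ring
  have hD1m : D1.map (Int.castRingHom ℚ) = C ((N3 : ℚ) ^ 2) * s := by
    rw [hD1, Polynomial.map_mul, map_C, hQS, hcast, ← mul_assoc, ← C_mul]
    congr 2
    ring
  have hfm : (fT A1 B1 D1).map (Int.castRingHom ℚ) =
      C ((N : ℚ) ^ 6 * (N3 : ℚ) ^ 2) * (A * B * (A - B) * s) := by
    unfold fT
    rw [Polynomial.map_mul, Polynomial.map_mul, Polynomial.map_mul, hA1m, hB1m, hC1m, hD1m]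
    simp only [C_mul, C_pow]
    ring
  have hc0 : (N : ℚ) ^ 6 * (N3 : ℚ) ^ 2 ≠ 0 := mul_ne_zero (pow_ne_zero _ hNq) (pow_ne_zero _ hN3q)
  -- the degrees
  have hdeg : ∀ (G1 : ℤ[X]) (G : ℚ[X]) (c : ℚ), c ≠ 0 → G1.map (Int.castRingHom ℚ) = C c * G →
      G1.natDegree = G.natDegree := by
    intro G1 G c hc h
    rw [← natDegree_map_eq_of_injective (f := Int.castRingHom ℚ) Int.cast_injective G1, h,
      natDegree_C_mul hc]
  have hN2' : (N : ℚ) ^ 2 ≠ 0 := pow_ne_zero _ hNq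
  have hN3' : (N3 : ℚ) ^ 2 ≠ 0 := pow_ne_zero _ hN3q
  have dA := hdeg A1 A _ hN2' hA1m
  have dB := hdeg B1 B _ hN2' hB1m
  have dC := hdeg (A1 - B1) (A - B) _ hN2' hC1m
  have dD := hdeg D1 s _ hN3' hD1m
  have hDH : DH A1 B1 D1 := by
    refine ⟨by rw [dA, dB, hd1], by rw [dC, dA, hd2], ?_⟩
    rw [dA, dD]
    have h3 : D.natDegree = s.natDegree + 2 * r.natDegree := by
      rw [hDs, natDegree_mul hs0 (pow_ne_zero 2 hr0), natDegree_pow]
    rw [h3, ← add_assoc] at hev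
    exact (Nat.even_add.1 hev).2 (even_two_mul _)
  obtain ⟨κ, hκ⟩ := hDH.ev
  have hsqs : Squarefree (A * B * (A - B) * s) := by
    have hco' : IsCoprime (A * B * (A - B)) s := by
      rw [hDs] at hco
      exact (IsCoprime.of_mul_left_left hco).symm
    exact (squarefree_mul_iff).2 ⟨hco'.isRelPrime, hsq, hs⟩
  have hsqf : Squarefree ((fT A1 B1 D1).map (Int.castRingHom ℚ)) := by
    rw [hfm]
    have hu : IsUnit (C ((N : ℚ) ^ 6 * (N3 : ℚ) ^ 2)) := by
      rw [isUnit_C, isUnit_iff_ne_zero]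
      exact hc0
    have hass : Associated (A * B * (A - B) * s)
        (C ((N : ℚ) ^ 6 * (N3 : ℚ) ^ 2) * (A * B * (A - B) * s)) :=
      (associated_isUnit_mul_left_iff hu).2 (Associated.refl _) |>.symm
    exact hass.squarefree_iff.1 hsqs
  have hf0 : fT A1 B1 D1 ≠ 0 := by
    intro h
    rw [h, Polynomial.map_zero] at hsqf
    exact hsqf.ne_zero rfl
  obtain ⟨z1, hz1⟩ := smp_of _ hsqf
  set m := Multiset.card (normalizedFactors A) with hm
  have hnf : ∀ (G : ℚ[X]) (G1 : ℤ[X]), G ≠ 0 → G1.map (Int.castRingHom ℚ) = C ((N : ℚ) ^ 2) * G →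
      nf G1 = Multiset.card (normalizedFactors G) := by
    intro G G1 hG h
    unfold nf
    have hu : IsUnit (C ((N : ℚ) ^ 2)) := by
      rw [isUnit_C, isUnit_iff_ne_zero]
      exact pow_ne_zero _ hNq
    rw [h, normalizedFactors_mul hu.ne_zero hG, normalizedFactors_of_isUnit hu, zero_add]
  have hMH : MH A1 B1 D1 m := by
    intro c hc3 z
    have hmem : ∃ G : ℚ[X], G ≠ 0 ∧ (Fc A1 B1 D1 c).map (Int.castRingHom ℚ) = C ((N : ℚ) ^ 2) * G ∧
        Multiset.card (normalizedFactors G) = m := by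
      unfold Fc
      split_ifs with c0 c1 c2
      · exact ⟨A, hA0, hA1m, rfl⟩
      · exact ⟨B, hB0, hB1m, h1.symm⟩
      · exact ⟨A - B, hAB0, hC1m, (h1.trans h2).symm⟩
      · exfalso
        revert c0 c1 c2 hc3
        revert c
        decide
    obtain ⟨G, hG0, hG, hGm⟩ := hmem
    have hne : Fc A1 B1 D1 c ≠ 0 := by
      intro h
      rw [h, Polynomial.map_zero] at hG
      exact mul_ne_zero (C_ne_zero.2 (pow_ne_zero 2 hNq)) hG0 hG.symm
    have hsqc : Squarefree ((Fc A1 B1 D1 c).map (Int.castRingHom ℚ)) := by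
      obtain ⟨E, hE⟩ := Fc_dvd (A := A1) (B := B1) (D := D1) c
      rw [hE, Polynomial.map_mul] at hsqf
      exact hsqf.squarefree_of_dvd (Dvd.intro _ rfl)
    obtain ⟨C0, hC0⟩ := mert_two _ hne hsqc z
    refine ⟨C0, fun y hy => ?_⟩
    have := hC0 y hy
    rwa [hnf G _ hG0 hG, hGm] at this
  obtain ⟨C1, hC10, hC1⟩ := fam2_int A1 B1 D1 hDH hf0 z1 m hc hz1 hMH
  obtain ⟨C2, hC20, hC2⟩ := fam2_int (ng A1) (ng B1) (ng D1) (DH_ng hDH) (by
    rw [ng_fT]
    intro h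
    apply hf0
    rw [← ng_ng (fT A1 B1 D1), h]
    unfold ng
    exact zero_comp) z1 m hc (by rw [ng_fT]; exact Smp_ng hz1) (MH_ng hMH)
  -- the comparison of the ranks
  have hcmp : ∀ (t W : ℚ) (a b f : ℤ), W ≠ 0 →
      (a : ℚ) = W ^ 2 * (((N : ℚ) ^ 2 * A.eval t) * ((N3 : ℚ) ^ 2 * s.eval t)) →
      (b : ℚ) = W ^ 2 * (((N : ℚ) ^ 2 * B.eval t) * ((N3 : ℚ) ^ 2 * s.eval t)) →
      (f = 0 → (A * B * (A - B) * s).eval t = 0) →
      gf A B D t ≤ if f ≠ 0 then (2 : ℝ) ^ Module.finrank ℤ (EAB a b).toAffine.Point else 0 := by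
    intro t W a b f hW ha hb hfz
    unfold gf
    split_ifs with ht hf1 hf1
    · apply le_of_eq
      congr 1
      have hDt : D.eval t = s.eval t * (r.eval t) ^ 2 := by
        rw [hDs, eval_mul, eval_pow]
      have hr : r.eval t ≠ 0 := by
        intro h
        apply ht
        rw [eval_mul, hDt, h]
        ring
      refine rk_scale _ _ _ _ _ (r.eval t / (W * N * N3))
        (div_ne_zero hr (mul_ne_zero (mul_ne_zero hW hNq) hN3q)) ?_ ?_
      · rw [ha, hDt]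
        field_simp
      · rw [hb, hDt]
        field_simp
    · exfalso
      apply ht
      have h3 := hfz (by simpa using hf1)
      have hDt : D.eval t = s.eval t * (r.eval t) ^ 2 := by
        rw [hDs, eval_mul, eval_pow]
      rw [eval_mul, hDt, ← mul_assoc, ← eval_mul, h3, zero_mul]
    · positivity
    · exact le_rfl
  refine ⟨C1 + C2 + gf A B D 0, add_nonneg (add_nonneg hC10 hC20) (gf_nonneg _ _ _ _),
    fun X hX => ?_⟩
  have hXr : (1 : ℝ) ≤ X := by exact_mod_cast hX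
  have h0 := gf_nonneg A B D 0
  refine (sum_rats_le (gf_nonneg A B D) X).trans ?_
  have hwk : ∀ (w : ℚ) (u v : ℚ), w ^ A1.natDegree * u * (w ^ D1.natDegree * v) =
      (w ^ κ) ^ 2 * (u * v) := by
    intro w u v
    have h3 : w ^ A1.natDegree * w ^ D1.natDegree = (w ^ κ) ^ 2 := by
      rw [← pow_add, hκ, ← pow_mul]
      congr 1
      ring
    rw [← h3]
    ring
  have hBA : B1.natDegree = A1.natDegree := hDH.ab.symm
  have e1 : ∑ q ∈ JJ X, gf A B D ((q.1 : ℚ) / q.2) ≤ C1 * (X : ℝ) ^ 2 := by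
    refine le_trans ?_ (hC1 X hX)
    rw [sum_filter]
    refine sum_le_sum fun q hq => ?_
    have hw : q.2 ≠ 0 := by
      have := (mem_JJ.1 hq).1.2.1
      omega
    have hwq : (q.2 : ℚ) ≠ 0 := by exact_mod_cast hw
    refine hcmp _ ((q.2 : ℚ) ^ κ) _ _ _ (pow_ne_zero _ hwq) ?_ ?_ ?_
    · rw [eval_mul]
      push_cast
      rw [sc_val hA1m hw, sc_val hD1m hw, hwk]
    · rw [eval_mul]
      push_cast
      rw [sc_val hB1m hw, sc_val hD1m hw, hBA, hwk]
    · intro h3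
      have h4 := sc_val hfm (m := q.1) hw
      rw [h3, Int.cast_zero] at h4
      exact (mul_eq_zero.1 ((mul_eq_zero.1 h4.symm).resolve_left (pow_ne_zero _ hwq))).resolve_left
        hc0
  have e2 : ∑ q ∈ JJ X, gf A B D (-((q.1 : ℚ) / q.2)) ≤ C2 * (X : ℝ) ^ 2 := by
    refine le_trans ?_ (hC2 X hX)
    rw [sum_filter]
    refine sum_le_sum fun q hq => ?_
    have hw : q.2 ≠ 0 := by
      have := (mem_JJ.1 hq).1.2.1
      omega
    have hwq : (q.2 : ℚ) ≠ 0 := by exact_mod_cast hw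
    refine hcmp _ ((q.2 : ℚ) ^ κ) _ _ _ (pow_ne_zero _ hwq) ?_ ?_ ?_
    · rw [eval_mul]
      push_cast
      rw [sc_val_neg hA1m hw, sc_val_neg hD1m hw, hwk]
    · rw [eval_mul]
      push_cast
      rw [sc_val_neg hB1m hw, sc_val_neg hD1m hw, hBA, hwk]
    · intro h3
      rw [ng_fT] at h3
      have h4 := sc_val_neg hfm (m := q.1) hw
      rw [h3, Int.cast_zero] at h4
      exact (mul_eq_zero.1 ((mul_eq_zero.1 h4.symm).resolve_left (pow_ne_zero _ hwq))).resolve_left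
        hc0
  have h3 : (1 : ℝ) ≤ (X : ℝ) ^ 2 := one_le_pow₀ hXr
  nlinarith

end Pool.Agent.H64.QM
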