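import Mathlib
import Pool.Agent.H64.QM.S9
import Pool.Agent.H64.QM.U4

/-!
# All moments in short boxes: twists of one curve by the values of the binary form of a polynomial
-/

set_option autoImplicit false

namespace Pool.Agent.H64.QM

open Finset Pool.Agent.W262.RK Polynomial
open Pool.Agent.H64.PM
open Pool.Agent.H64.MM (Tw rk rk_scale)

/-- integral version -/
theorem pm3_int (k : ℕ) (a b : ℤ) (ha : a ≠ 0) (hb : b ≠ 0) (hab : a - b ≠ 0) (D : ℤ[X])
    (hD : Squarefree (D.map (Int.castRingHom ℚ))) (hd : 0 < D.natDegree) (κ0 : ℕ) :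
    ∃ C0 : ℝ, 0 ≤ C0 ∧ ∀ (a0 : ℤ) (H W : ℕ), 1 ≤ H → 1 ≤ W → a0.natAbs + H + W ≤ H ^ κ0 →
      ∑ q ∈ BX a0 H W, (if (sc D q.2).eval (q.1 + a0 : ℤ) ≠ 0 then
      ((2 : ℝ) ^ Module.finrank ℤ (EAB (a * (sc D q.2).eval (q.1 + a0 : ℤ))
        (b * (sc D q.2).eval (q.1 + a0 : ℤ))).toAffine.Point) ^ k else 0) ≤ C0 * H * W := by
  classical
  set f := fT (C a) (C b) D with hf
  have hD0 : D ≠ 0 := by
    rintro rfl
    simp at hd
  have hfe : f = C (a * b * (a - b)) * D := by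
    rw [hf]
    unfold fT
    simp only [C_mul, C_sub]
  have hc0 : a * b * (a - b) ≠ 0 := mul_ne_zero (mul_ne_zero ha hb) hab
  have hf0 : f ≠ 0 := by
    rw [hfe]
    exact mul_ne_zero (C_ne_zero.2 hc0) hD0
  have hsq : Squarefree (f.map (Int.castRingHom ℚ)) := by
    rw [hfe, Polynomial.map_mul, Polynomial.map_C]
    have hu : IsUnit (C ((Int.castRingHom ℚ) (a * b * (a - b)))) := by
      rw [isUnit_C, isUnit_iff_ne_zero]
      have h1 : ((a * b * (a - b) : ℤ) : ℚ) ≠ 0 := by exact_mod_cast hc0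
      exact h1
    have hass : Associated (D.map (Int.castRingHom ℚ))
        (C ((Int.castRingHom ℚ) (a * b * (a - b))) * D.map (Int.castRingHom ℚ)) :=
      (associated_isUnit_mul_left_iff hu).2 (Associated.refl _) |>.symm
    exact hass.squarefree_iff.1 hD
  obtain ⟨z1, hz1⟩ := smp_of f hsq
  obtain ⟨z2, hz2⟩ := Pool.Agent.H474R2.PG.rho_le f hf0
  set n := f.natDegree + 1 with hn
  have hρ : ∀ p : ℕ, p.Prime → z2 < p → rho f p ≤ n := fun p hp hzp =>
    (hz2 p hp hzp).trans (Nat.le_succ _)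
  -- an irreducible factor
  obtain ⟨h, hh, hhd, hhD⟩ : ∃ h : ℤ[X], Irreducible h ∧ 0 < h.natDegree ∧ h ∣ D := by
    by_contra hcon
    push Not at hcon
    have key : ∀ g : ℤ[X], g ≠ 0 → g ∣ D → g.natDegree = 0 := by
      intro g
      refine WfDvdMonoid.induction_on_irreducible (motive := fun g => g ≠ 0 → g ∣ D →
        g.natDegree = 0) g ?_ ?_ ?_
      · intro h0
        exact absurd rfl h0
      · intro u hu _ _
        exact natDegree_eq_zero_of_isUnit hu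
      · intro g i hg0 hi ih _ hd
        have h1 : i ∣ D := (Dvd.intro _ rfl).trans hd
        have h2 : g ∣ D := (Dvd.intro_left _ rfl).trans hd
        have h3 : i.natDegree = 0 := by
          by_contra h4
          exact hcon i hi (Nat.pos_of_ne_zero h4) h1
        rw [natDegree_mul hi.ne_zero hg0, h3, ih hg0 h2]
    have := key D hD0 (dvd_refl D)
    omega
  obtain ⟨z3, hz3⟩ := avg_pm k a b ha hb hab D n (by omega) z2 hρ h hh hhd hhD
  set z := z1 + z2 + z3 + (2 * n + 2) + f.leadingCoeff.natAbs + a.natAbs + b.natAbs +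
    (a - b).natAbs with hz
  have hnd : ∀ c : ℤ, c ≠ 0 → c.natAbs ≤ z → ∀ p : ℕ, p.Prime → z < p → ¬ (p : ℤ) ∣ c := by
    intro c hc hcz p _ hzp h1
    have := Nat.le_of_dvd (Int.natAbs_pos.2 hc) (Int.natCast_dvd.1 h1)
    omega
  have hlc : ∀ p : ℕ, p.Prime → z < p → ¬ (p : ℤ) ∣ f.leadingCoeff :=
    hnd _ (leadingCoeff_ne_zero.2 hf0) (by omega)
  obtain ⟨C', hC'⟩ := hz3 z (by omega)
  obtain ⟨C0, hC00, hC0⟩ := mainq3 k (C a) (C b) D n z (by omega) (by omega)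
    (fun p hp hzp => hρ p hp (by omega)) (fun p hp hzp => hz1 p hp (by omega)) hlc C' hC'
    Set.univ (fun m w => a * (sc D w).eval m) (fun m w => b * (sc D w).eval m)
    (fun w _ m => cv_twist (fun p hp hzp => ⟨hnd a ha (by omega) p hp hzp,
      hnd b hb (by omega) p hp hzp, hnd (a - b) hab (by omega) p hp hzp⟩) ⟨ha, hb, hab⟩ m) κ0
  refine ⟨C0, hC00, fun a0 H W hH hW hbox => le_trans (le_of_eq ?_)
    (hC0 a0 H W hH hW hbox fun w _ => Set.mem_univ w)⟩
  have hsc : ∀ w : ℕ, sc f w = C (a * b * (a - b)) * sc D w := by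
    intro w
    rw [hfe, sc_mul, sc_C]
  refine sum_congr rfl fun q _ => ?_
  unfold rf
  have h1 : (sc (fT (C a) (C b) D) q.2).eval (q.1 + a0 : ℤ) ≠ 0 ↔
      (sc D q.2).eval (q.1 + a0 : ℤ) ≠ 0 := by
    rw [← hf, hsc, eval_mul, eval_C]
    exact ⟨fun h => right_ne_zero_of_mul h, fun h => mul_ne_zero hc0 h⟩
  by_cases h2 : (sc D q.2).eval (q.1 + a0 : ℤ) ≠ 0
  · rw [if_pos h2, if_pos (h1.2 h2)]
  · rw [if_neg h2, if_neg (fun h => h2 (h1.1 h))]

/-- the binary form of the polynomial `D` -/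
noncomputable def bf (D : ℚ[X]) (m : ℤ) (w : ℕ) : ℚ := (w : ℚ) ^ D.natDegree * D.eval ((m : ℚ) / w)

/-- the function that is summed -/
noncomputable def gb (k : ℕ) (a b : ℚ) (D : ℚ[X]) (m : ℤ) (w : ℕ) : ℝ :=
  if bf D m w ≠ 0 then ((2 : ℝ) ^ rk (Tw a b (bf D m w))) ^ k else 0

lemma gb_nonneg (k : ℕ) (a b : ℚ) (D : ℚ[X]) (m : ℤ) (w : ℕ) : 0 ≤ gb k a b D m w := by
  unfold gb
  split_ifs
  · positivity
  · exact le_rfl

lemma card_BX_le (a0 : ℤ) (H W : ℕ) : ((BX a0 H W).card : ℝ) ≤ (H : ℝ) * W := by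
  have h2 : (BX a0 H W).card ≤ H * W := by
    refine (card_filter_le _ _).trans ?_
    rw [card_product, Nat.card_Icc, Nat.card_Icc, Nat.add_sub_cancel, Nat.add_sub_cancel]
  exact_mod_cast h2

/-- rational version -/
theorem pm3_one (k : ℕ) (a b : ℚ) (ha : a ≠ 0) (hb : b ≠ 0) (hab : a ≠ b)
    (D : ℚ[X]) (hD : D ≠ 0) (κ0 : ℕ) : ∃ C0 : ℝ, 0 ≤ C0 ∧
      ∀ (a0 : ℤ) (H W : ℕ), 1 ≤ H → 1 ≤ W → a0.natAbs + H + W ≤ H ^ κ0 →
      ∑ q ∈ BX a0 H W, gb k a b D (q.1 + a0) q.2 ≤ C0 * H * W := by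
  classical
  obtain ⟨S, q, r, hq, hS, hDe⟩ := int_part D hD
  have hDpol : D = C q * S.map (Int.castRingHom ℚ) * r ^ 2 := by
    apply Polynomial.funext
    intro t
    rw [hDe, eval_mul, eval_mul, eval_C, eval_pow]
  have hS0 : S.map (Int.castRingHom ℚ) ≠ 0 := hS.ne_zero
  have hr0 : r ≠ 0 := by
    rintro rfl
    apply hD
    rw [hDpol]
    ring
  have hdeg : D.natDegree = S.natDegree + 2 * r.natDegree := by
    rw [hDpol, natDegree_mul (mul_ne_zero (C_ne_zero.2 hq) hS0) (pow_ne_zero 2 hr0),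
      natDegree_C_mul hq, natDegree_pow,
      natDegree_map_eq_of_injective Int.cast_injective]
  set x : ℚ := a * q with hx
  set y : ℚ := b * q with hy
  have hx0 : x ≠ 0 := mul_ne_zero ha hq
  have hy0 : y ≠ 0 := mul_ne_zero hb hq
  have hxy : x ≠ y := fun h => hab (mul_right_cancel₀ hq h)
  set N : ℚ := (x.den : ℚ) * y.den with hN
  have hxd : (x.den : ℚ) ≠ 0 := by exact_mod_cast x.den_ne_zero
  have hyd : (y.den : ℚ) ≠ 0 := by exact_mod_cast y.den_ne_zero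
  have hN0 : N ≠ 0 := mul_ne_zero hxd hyd
  set A : ℤ := x.num * x.den * y.den ^ 2 with hA
  set B : ℤ := y.num * y.den * x.den ^ 2 with hB
  have hAx : (A : ℚ) = x * N ^ 2 := by
    rw [hA, hN]
    push_cast
    have h1 := Rat.mul_den_eq_num x
    linear_combination (-(x.den : ℚ) * y.den ^ 2) * h1
  have hBy : (B : ℚ) = y * N ^ 2 := by
    rw [hB, hN]
    push_cast
    have h1 := Rat.mul_den_eq_num y
    linear_combination (-(y.den : ℚ) * x.den ^ 2) * h1
  have hA0 : A ≠ 0 := by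
    intro h
    have : (A : ℚ) = 0 := by exact_mod_cast h
    rw [hAx] at this
    exact mul_ne_zero hx0 (pow_ne_zero _ hN0) this
  have hB0 : B ≠ 0 := by
    intro h
    have : (B : ℚ) = 0 := by exact_mod_cast h
    rw [hBy] at this
    exact mul_ne_zero hy0 (pow_ne_zero _ hN0) this
  have hAB : A - B ≠ 0 := by
    intro h
    have h1 : (A : ℚ) = B := by exact_mod_cast (sub_eq_zero.1 h)
    rw [hAx, hBy] at h1
    exact hxy (mul_right_cancel₀ (pow_ne_zero _ hN0) h1)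
  have hbf : ∀ (m : ℤ) (w : ℕ), w ≠ 0 → bf D m w = q * (((sc S w).eval m : ℤ) : ℚ) *
      ((w : ℚ) ^ r.natDegree * r.eval ((m : ℚ) / w)) ^ 2 := by
    intro m w hw
    unfold bf
    rw [hDe, sc_eval_rat S w hw, hdeg, pow_add, pow_mul']
    ring
  have hwne : ∀ (a0 : ℤ) (H W : ℕ), ∀ t ∈ BX a0 H W, t.2 ≠ 0 := by
    intro a0 H W t ht
    have := (mem_BX.1 ht).1.2.1
    omega
  have hne : ∀ (m : ℤ) (w : ℕ), w ≠ 0 → bf D m w ≠ 0 →
      (sc S w).eval m ≠ 0 ∧ (w : ℚ) ^ r.natDegree * r.eval ((m : ℚ) / w) ≠ 0 := by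
    intro m w hw ht
    rw [hbf m w hw] at ht
    constructor
    · intro h
      exact ht (by rw [h]; simp)
    · intro h
      exact ht (by rw [h]; ring)
  have hrk : ∀ (m : ℤ) (w : ℕ), w ≠ 0 → bf D m w ≠ 0 →
      rk (Tw a b (bf D m w)) =
      Module.finrank ℤ (EAB (A * (sc S w).eval m) (B * (sc S w).eval m)).toAffine.Point := by
    intro m w hw ht
    obtain ⟨hG0, hGe⟩ := hne m w hw ht
    refine rk_scale _ _ a b _ (((w : ℚ) ^ r.natDegree * r.eval ((m : ℚ) / w)) / N)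
      (div_ne_zero hGe hN0) ?_ ?_
    · rw [hbf m w hw]
      push_cast
      rw [hAx, hx]
      field_simp
    · rw [hbf m w hw]
      push_cast
      rw [hBy, hy]
      field_simp
  rcases Nat.eq_zero_or_pos S.natDegree with hdeg0 | hdeg0
  · -- constant squarefree part
    obtain ⟨c, hc⟩ : ∃ c : ℤ, S = C c := ⟨_, eq_C_of_natDegree_eq_zero hdeg0⟩
    refine ⟨((2 : ℝ) ^ Module.finrank ℤ (EAB (A * c) (B * c)).toAffine.Point) ^ k, by positivity,
      fun a0 H W hH hW _ => ?_⟩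
    have h1 : ∀ t ∈ BX a0 H W, gb k a b D (t.1 + a0) t.2 ≤
        ((2 : ℝ) ^ Module.finrank ℤ (EAB (A * c) (B * c)).toAffine.Point) ^ k := by
      intro t ht
      unfold gb
      split_ifs with h2
      · rw [hrk _ _ (hwne a0 H W t ht) h2, hc, sc_C, eval_C]
      · positivity
    refine (sum_le_card_nsmul _ _ _ h1).trans ?_
    rw [nsmul_eq_mul]
    have h2 := card_BX_le a0 H W
    have h3 : (0 : ℝ) ≤
        ((2 : ℝ) ^ Module.finrank ℤ (EAB (A * c) (B * c)).toAffine.Point) ^ k := by positivity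
    nlinarith [mul_le_mul_of_nonneg_right h2 h3]
  · obtain ⟨C0, hC00, hC0⟩ := pm3_int k A B hA0 hB0 hAB S hS hdeg0 κ0
    refine ⟨C0, hC00, fun a0 H W hH hW hbox => ?_⟩
    refine le_trans ?_ (hC0 a0 H W hH hW hbox)
    refine sum_le_sum fun t ht => ?_
    have hw := hwne a0 H W t ht
    unfold gb
    split_ifs with h1 h2 h2
    · rw [hrk _ _ hw h1]
    · exact absurd (hne _ _ hw h1).1 h2
    · positivity
    · exact le_rfl

end Pool.Agent.H64.QM
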