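import Mathlib
import Pool.Agent.H64.QM.T1
import Pool.Agent.H64.QM.U5

/-!
# The average of `2 ^ rank` in general families with full 2-torsion: short boxes
-/

set_option autoImplicit false

namespace Pool.Agent.H64.QM

open Finset Pool.Agent.W262.RK Polynomial UniqueFactorizationMonoid
open Pool.Agent.H64.PM
open Pool.Agent.H64.MM (Tw rk rk_scale)

/-- integral version -/
theorem fam3_int (A B D : ℤ[X]) (hf0 : fT A B D ≠ 0) (z1 m : ℕ) (hm : 1 ≤ m)
    (hsm : Smp (fT A B D) z1) (hM : MH A B D m) (κ0 : ℕ)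
    (Wset : Set ℕ) (av bv : ℤ → ℕ → ℤ)
    (hcv : ∀ z : ℕ, ∀ w ∈ Wset, ∀ m : ℤ, Cv A B D z w m (av m w) (bv m w)) :
    ∃ C0 : ℝ, 0 ≤ C0 ∧ ∀ (a : ℤ) (H W : ℕ), 1 ≤ H → 1 ≤ W → a.natAbs + H + W ≤ H ^ κ0 →
      (∀ w ∈ Icc 1 W, w ∈ Wset) →
      ∑ q ∈ BX a H W, rf 1 A B D av bv (q.1 + a) q.2 ≤ C0 * H * W := by
  classical
  obtain ⟨z2, hz2⟩ := Pool.Agent.H474R2.PG.rho_le (fT A B D) hf0
  set n := (fT A B D).natDegree + 1 with hn
  have hρ : ∀ p : ℕ, p.Prime → z1 + z2 < p → rho (fT A B D) p ≤ n := fun p hp hzp =>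
    (hz2 p hp (by omega)).trans (Nat.le_succ _)
  obtain ⟨z3, hz3⟩ := avg_fam A B D n (z1 + z2) m hm hρ (fun p hp hzp => hsm p hp (by omega)) hM
  set z := z1 + z2 + z3 + (2 * n + 2) + (fT A B D).leadingCoeff.natAbs with hz
  have hlc : ∀ p : ℕ, p.Prime → z < p → ¬ (p : ℤ) ∣ (fT A B D).leadingCoeff := by
    intro p hp hzp h
    have := Nat.le_of_dvd (Int.natAbs_pos.2 (leadingCoeff_ne_zero.2 hf0)) (Int.natCast_dvd.1 h)
    omega
  obtain ⟨C', hC'⟩ := hz3 z (by omega)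
  exact mainq3 1 A B D n z (by omega) (by omega)
    (fun p hp hzp => hρ p hp (by omega)) (fun p hp hzp => hsm p hp (by omega)) hlc C' hC'
    Wset av bv (hcv z) κ0

/-- the value of the form at `m / w` -/
lemma sc_valz {G : ℤ[X]} {H : ℚ[X]} {c : ℚ} (h : G.map (Int.castRingHom ℚ) = C c * H) {m : ℤ}
    {w : ℕ} (hw : w ≠ 0) : (((sc G w).eval m : ℤ) : ℚ) =
      (w : ℚ) ^ G.natDegree * (c * H.eval ((m : ℚ) / w)) := by
  rw [sc_eval_rat G w hw, h, eval_mul, eval_C]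

set_option maxHeartbeats 1000000 in
/-- rational version -/
theorem fam3_all (A B D : ℚ[X]) (hsq : Squarefree (A * B * (A - B))) (hD : D ≠ 0)
    (hco : IsCoprime D (A * B * (A - B)))
    (h1 : Multiset.card (normalizedFactors A) = Multiset.card (normalizedFactors B))
    (h2 : Multiset.card (normalizedFactors B) = Multiset.card (normalizedFactors (A - B)))
    (κ0 : ℕ) :
    ∃ C0 : ℝ, 0 ≤ C0 ∧ ∀ (a0 : ℤ) (H W : ℕ), 1 ≤ H → 1 ≤ W → a0.natAbs + H + W ≤ H ^ κ0 →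
      (1 < W → A.natDegree = B.natDegree ∧ (A - B).natDegree = A.natDegree ∧
        Even (A.natDegree + D.natDegree)) →
      ∑ q ∈ BX a0 H W, gf A B D (((q.1 + a0 : ℤ) : ℚ) / q.2) ≤ C0 * H * W := by
  classical
  have hABC0 : A * B * (A - B) ≠ 0 := hsq.ne_zero
  have hA0 : A ≠ 0 := left_ne_zero_of_mul (left_ne_zero_of_mul hABC0)
  have hB0 : B ≠ 0 := right_ne_zero_of_mul (left_ne_zero_of_mul hABC0)
  have hAB0 : A - B ≠ 0 := right_ne_zero_of_mul hABC0
  rcases Nat.eq_zero_or_pos (Multiset.card (normalizedFactors A)) with hc | hc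
  · -- constant polynomials
    have hunit : ∀ G : ℚ[X], G ≠ 0 → Multiset.card (normalizedFactors G) = 0 →
        ∃ c : ℚ, c ≠ 0 ∧ G = C c := by
      intro G hG h
      have h3 : IsUnit G := by
        have h4 := prod_normalizedFactors hG
        rw [Multiset.card_eq_zero.1 h, Multiset.prod_zero] at h4
        exact (associated_one_iff_isUnit).1 h4.symm
      obtain ⟨c, hc, hc2⟩ := Polynomial.isUnit_iff.1 h3
      exact ⟨c, hc.ne_zero, hc2.symm⟩
    obtain ⟨a, ha, rfl⟩ := hunit A hA0 hc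
    obtain ⟨b, hb, rfl⟩ := hunit B hB0 (by rw [← h1]; exact hc)
    have hab : a ≠ b := by
      rintro rfl
      exact hAB0 (sub_self _)
    obtain ⟨C0, hC00, hC0⟩ := pm3_one 1 a b ha hb hab D hD κ0
    refine ⟨C0, hC00, fun a0 H W hH hW hbox hdeg => le_trans (le_of_eq ?_)
      (hC0 a0 H W hH hW hbox)⟩
    refine sum_congr rfl fun q hq => ?_
    have hq2 := (mem_BX.1 hq).1.2
    have hw : q.2 ≠ 0 := by omega
    have hwq : (q.2 : ℚ) ≠ 0 := by exact_mod_cast hw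
    unfold gf gb bf
    rw [eval_C, eval_C, pow_one]
    have h3 : (C a * C b * (C a - C b) * D).eval (((q.1 + a0 : ℤ) : ℚ) / q.2) ≠ 0 ↔
        (q.2 : ℚ) ^ D.natDegree * D.eval (((q.1 + a0 : ℤ) : ℚ) / q.2) ≠ 0 := by
      simp only [eval_mul, eval_sub, eval_C]
      exact ⟨fun h => mul_ne_zero (pow_ne_zero _ hwq) (right_ne_zero_of_mul h),
        fun h => mul_ne_zero (mul_ne_zero (mul_ne_zero ha hb) (sub_ne_zero.2 hab))
          (right_ne_zero_of_mul h)⟩
    have h4 : rk (Tw a b ((q.2 : ℚ) ^ D.natDegree * D.eval (((q.1 + a0 : ℤ) : ℚ) / q.2))) =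
        rk (Tw a b (D.eval (((q.1 + a0 : ℤ) : ℚ) / q.2))) := by
      rcases Nat.lt_or_ge 1 W with hW1 | hW1
      · obtain ⟨_, _, k, hk⟩ := hdeg hW1
        rw [natDegree_C, zero_add] at hk
        have h5 : (q.2 : ℚ) ^ D.natDegree * D.eval (((q.1 + a0 : ℤ) : ℚ) / q.2) =
            D.eval (((q.1 + a0 : ℤ) : ℚ) / q.2) * ((q.2 : ℚ) ^ k) ^ 2 := by
          rw [hk, ← pow_mul, mul_comm]
          congr 2
          ring
        rw [h5, rk_sq _ _ _ _ (pow_ne_zero _ hwq)]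
      · have h5 : q.2 = 1 := by omega
        rw [h5, Nat.cast_one, one_pow, one_mul]
    by_cases h5 : (q.2 : ℚ) ^ D.natDegree * D.eval (((q.1 + a0 : ℤ) : ℚ) / q.2) ≠ 0
    · rw [if_pos (h3.2 h5), if_pos h5, h4]
    · rw [if_neg (fun h => h5 (h3.1 h)), if_neg h5]
  -- clearing the denominators
  obtain ⟨s, r, hs, hDs⟩ := sqf_part D hD
  have hs0 : s ≠ 0 := hs.ne_zero
  have hr0 : r ≠ 0 := by
    rintro rfl
    exact hD (by rw [hDs]; ring)
  have hclear : ∀ q : ℚ[X], ∃ (N : ℤ) (Q : ℤ[X]), N ≠ 0 ∧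
      Q.map (Int.castRingHom ℚ) = C (N : ℚ) * q := by
    intro q
    obtain ⟨b, hbM, hb⟩ := IsLocalization.integerNormalization_spec (nonZeroDivisors ℤ) q
    refine ⟨b, IsLocalization.integerNormalization (nonZeroDivisors ℤ) q,
      nonZeroDivisors.ne_zero hbM, ?_⟩
    have h1 : (algebraMap ℤ ℚ) = Int.castRingHom ℚ := rfl
    rw [← h1, hb]
    ext i
    simp
  obtain ⟨N1, QA, hN1, hQA⟩ := hclear A
  obtain ⟨N2, QB, hN2, hQB⟩ := hclear B
  obtain ⟨N3, QS, hN3, hQS⟩ := hclear s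
  have hN1q : (N1 : ℚ) ≠ 0 := by exact_mod_cast hN1
  have hN2q : (N2 : ℚ) ≠ 0 := by exact_mod_cast hN2
  have hN3q : (N3 : ℚ) ≠ 0 := by exact_mod_cast hN3
  set N : ℤ := N1 * N2 with hN
  have hNq : (N : ℚ) ≠ 0 := by
    rw [hN]
    push_cast
    exact mul_ne_zero hN1q hN2q
  set A1 : ℤ[X] := C (N1 * N2 ^ 2) * QA with hA1
  set B1 : ℤ[X] := C (N1 ^ 2 * N2) * QB with hB1
  set D1 : ℤ[X] := C N3 * QS with hD1
  have hcast : ∀ c : ℤ, (Int.castRingHom ℚ) c = (c : ℚ) := fun c => rfl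
  have hA1m : A1.map (Int.castRingHom ℚ) = C ((N : ℚ) ^ 2) * A := by
    rw [hA1, Polynomial.map_mul, map_C, hQA, hcast, ← mul_assoc, ← C_mul, hN]
    congr 2
    push_cast
    ring
  have hB1m : B1.map (Int.castRingHom ℚ) = C ((N : ℚ) ^ 2) * B := by
    rw [hB1, Polynomial.map_mul, map_C, hQB, hcast, ← mul_assoc, ← C_mul, hN]
    congr 2
    push_cast
    ring
  have hC1m : (A1 - B1).map (Int.castRingHom ℚ) = C ((N : ℚ) ^ 2) * (A - B) := by
    rw [Polynomial.map_sub, hA1m, hB1m]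
    ring
  have hD1m : D1.map (Int.castRingHom ℚ) = C ((N3 : ℚ) ^ 2) * s := by
    rw [hD1, Polynomial.map_mul, map_C, hQS, hcast, ← mul_assoc, ← C_mul]
    congr 2
    ring
  have hfm : (fT A1 B1 D1).map (Int.castRingHom ℚ) =
      C ((N : ℚ) ^ 6 * (N3 : ℚ) ^ 2) * (A * B * (A - B) * s) := by
    unfold fT
    rw [Polynomial.map_mul, Polynomial.map_mul, Polynomial.map_mul, hA1m, hB1m, hC1m, hD1m]
    simp only [C_mul, C_pow]
    ring
  have hc0 : (N : ℚ) ^ 6 * (N3 : ℚ) ^ 2 ≠ 0 := mul_ne_zero (pow_ne_zero _ hNq) (pow_ne_zero _ hN3q)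
  have hsqs : Squarefree (A * B * (A - B) * s) := by
    have hco' : IsCoprime (A * B * (A - B)) s := by
      rw [hDs] at hco
      exact (IsCoprime.of_mul_left_left hco).symm
    exact (squarefree_mul_iff).2 ⟨hco'.isRelPrime, hsq, hs⟩
  have hsqf : Squarefree ((fT A1 B1 D1).map (Int.castRingHom ℚ)) := by
    rw [hfm]
    have hu : IsUnit (C ((N : ℚ) ^ 6 * (N3 : ℚ) ^ 2)) := by
      rw [isUnit_C, isUnit_iff_ne_zero]
      exact hc0
    have hass : Associated (A * B * (A - B) * s)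
        (C ((N : ℚ) ^ 6 * (N3 : ℚ) ^ 2) * (A * B * (A - B) * s)) :=
      (associated_isUnit_mul_left_iff hu).2 (Associated.refl _) |>.symm
    exact hass.squarefree_iff.1 hsqs
  have hf0 : fT A1 B1 D1 ≠ 0 := by
    intro h
    rw [h, Polynomial.map_zero] at hsqf
    exact hsqf.ne_zero rfl
  obtain ⟨z1, hz1⟩ := smp_of _ hsqf
  set m := Multiset.card (normalizedFactors A) with hm
  have hnf : ∀ (G : ℚ[X]) (G1 : ℤ[X]), G ≠ 0 → G1.map (Int.castRingHom ℚ) = C ((N : ℚ) ^ 2) * G →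
      nf G1 = Multiset.card (normalizedFactors G) := by
    intro G G1 hG h
    unfold nf
    have hu : IsUnit (C ((N : ℚ) ^ 2)) := by
      rw [isUnit_C, isUnit_iff_ne_zero]
      exact pow_ne_zero _ hNq
    rw [h, normalizedFactors_mul hu.ne_zero hG, normalizedFactors_of_isUnit hu, zero_add]
  have hMH : MH A1 B1 D1 m := by
    intro c hc3 z
    have hmem : ∃ G : ℚ[X], G ≠ 0 ∧ (Fc A1 B1 D1 c).map (Int.castRingHom ℚ) = C ((N : ℚ) ^ 2) * G ∧
        Multiset.card (normalizedFactors G) = m := by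
      unfold Fc
      split_ifs with c0 c1 c2
      · exact ⟨A, hA0, hA1m, rfl⟩
      · exact ⟨B, hB0, hB1m, h1.symm⟩
      · exact ⟨A - B, hAB0, hC1m, (h1.trans h2).symm⟩
      · exfalso
        revert c0 c1 c2 hc3
        revert c
        decide
    obtain ⟨G, hG0, hG, hGm⟩ := hmem
    have hne : Fc A1 B1 D1 c ≠ 0 := by
      intro h
      rw [h, Polynomial.map_zero] at hG
      exact mul_ne_zero (C_ne_zero.2 (pow_ne_zero 2 hNq)) hG0 hG.symm
    have hsqc : Squarefree ((Fc A1 B1 D1 c).map (Int.castRingHom ℚ)) := by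
      obtain ⟨E, hE⟩ := Fc_dvd (A := A1) (B := B1) (D := D1) c
      rw [hE, Polynomial.map_mul] at hsqf
      exact hsqf.squarefree_of_dvd (Dvd.intro _ rfl)
    obtain ⟨C0, hC0⟩ := mert_two _ hne hsqc z
    refine ⟨C0, fun y hy => ?_⟩
    have := hC0 y hy
    rwa [hnf G _ hG0 hG, hGm] at this
  -- the comparison of the ranks
  have hcmp : ∀ (t W : ℚ) (a b f : ℤ), W ≠ 0 →
      (a : ℚ) = W ^ 2 * (((N : ℚ) ^ 2 * A.eval t) * ((N3 : ℚ) ^ 2 * s.eval t)) →
      (b : ℚ) = W ^ 2 * (((N : ℚ) ^ 2 * B.eval t) * ((N3 : ℚ) ^ 2 * s.eval t)) →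
      (f = 0 → (A * B * (A - B) * s).eval t = 0) →
      gf A B D t ≤ if f ≠ 0 then ((2 : ℝ) ^ Module.finrank ℤ (EAB a b).toAffine.Point) ^ 1
        else 0 := by
    intro t W a b f hW ha hb hfz
    unfold gf
    rw [pow_one]
    split_ifs with ht hf1 hf1
    · apply le_of_eq
      congr 1
      have hDt : D.eval t = s.eval t * (r.eval t) ^ 2 := by
        rw [hDs, eval_mul, eval_pow]
      have hr : r.eval t ≠ 0 := by
        intro h
        apply ht
        rw [eval_mul, hDt, h]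
        ring
      refine rk_scale _ _ _ _ _ (r.eval t / (W * N * N3))
        (div_ne_zero hr (mul_ne_zero (mul_ne_zero hW hNq) hN3q)) ?_ ?_
      · rw [ha, hDt]
        field_simp
      · rw [hb, hDt]
        field_simp
    · exfalso
      apply ht
      have h3 := hfz (by simpa using hf1)
      have hDt : D.eval t = s.eval t * (r.eval t) ^ 2 := by
        rw [hDs, eval_mul, eval_pow]
      rw [eval_mul, hDt, ← mul_assoc, ← eval_mul, h3, zero_mul]
    · positivity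
    · exact le_rfl
  -- integers
  obtain ⟨C1, hC10, hC1⟩ := fam3_int A1 B1 D1 hf0 z1 m hc hz1 hMH κ0 {1}
    (fun m _ => (A1 * D1).eval m) (fun m _ => (B1 * D1).eval m)
    (fun z w hw m => by
      rw [Set.mem_singleton_iff.1 hw]
      exact cv_one m)
  -- good fibre at infinity
  have hC2 : ∃ C2 : ℝ, 0 ≤ C2 ∧ (A.natDegree = B.natDegree ∧ (A - B).natDegree = A.natDegree ∧
        Even (A.natDegree + D.natDegree) →
      ∀ (a0 : ℤ) (H W : ℕ), 1 ≤ H → 1 ≤ W → a0.natAbs + H + W ≤ H ^ κ0 →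
      ∑ q ∈ BX a0 H W, gf A B D (((q.1 + a0 : ℤ) : ℚ) / q.2) ≤ C2 * H * W) := by
    by_cases hdg : A.natDegree = B.natDegree ∧ (A - B).natDegree = A.natDegree ∧
        Even (A.natDegree + D.natDegree)
    swap
    · exact ⟨0, le_rfl, fun h => absurd h hdg⟩
    obtain ⟨hd1, hd2, hev⟩ := hdg
    have hdeg : ∀ (G1 : ℤ[X]) (G : ℚ[X]) (c : ℚ), c ≠ 0 → G1.map (Int.castRingHom ℚ) = C c * G →
        G1.natDegree = G.natDegree := by
      intro G1 G c hc h
      rw [← natDegree_map_eq_of_injective (f := Int.castRingHom ℚ) Int.cast_injective G1, h,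
        natDegree_C_mul hc]
    have hN2' : (N : ℚ) ^ 2 ≠ 0 := pow_ne_zero _ hNq
    have hN3' : (N3 : ℚ) ^ 2 ≠ 0 := pow_ne_zero _ hN3q
    have dA := hdeg A1 A _ hN2' hA1m
    have dB := hdeg B1 B _ hN2' hB1m
    have dC := hdeg (A1 - B1) (A - B) _ hN2' hC1m
    have dD := hdeg D1 s _ hN3' hD1m
    have hDH : DH A1 B1 D1 := by
      refine ⟨by rw [dA, dB, hd1], by rw [dC, dA, hd2], ?_⟩
      rw [dA, dD]
      have h3 : D.natDegree = s.natDegree + 2 * r.natDegree := by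
        rw [hDs, natDegree_mul hs0 (pow_ne_zero 2 hr0), natDegree_pow]
      rw [h3, ← add_assoc] at hev
      exact (Nat.even_add.1 hev).2 (even_two_mul _)
    obtain ⟨κ, hκ⟩ := hDH.ev
    obtain ⟨C2, hC20, hC2⟩ := fam3_int A1 B1 D1 hf0 z1 m hc hz1 hMH κ0 Set.univ
      (fun m w => (sc A1 w).eval m * (sc D1 w).eval m)
      (fun m w => (sc B1 w).eval m * (sc D1 w).eval m)
      (fun z w _ m => cv_fam hDH.ab hDH.ac hDH.ev m)
    refine ⟨C2, hC20, fun _ a0 H W hH hW hbox => ?_⟩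
    refine le_trans ?_ (hC2 a0 H W hH hW hbox fun w _ => Set.mem_univ w)
    have hwk : ∀ (w : ℚ) (u v : ℚ), w ^ A1.natDegree * u * (w ^ D1.natDegree * v) =
        (w ^ κ) ^ 2 * (u * v) := by
      intro w u v
      have h3 : w ^ A1.natDegree * w ^ D1.natDegree = (w ^ κ) ^ 2 := by
        rw [← pow_add, hκ, ← pow_mul]
        congr 1
        ring
      rw [← h3]
      ring
    have hBA : B1.natDegree = A1.natDegree := hDH.ab.symm
    refine sum_le_sum fun q hq => ?_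
    have hw : q.2 ≠ 0 := by
      have := (mem_BX.1 hq).1.2.1
      omega
    have hwq : (q.2 : ℚ) ≠ 0 := by exact_mod_cast hw
    unfold rf
    refine hcmp _ ((q.2 : ℚ) ^ κ) _ _ _ (pow_ne_zero _ hwq) ?_ ?_ ?_
    · push_cast [Int.cast_mul]
      rw [sc_valz hA1m hw, sc_valz hD1m hw, hwk]
      push_cast
      ring
    · push_cast [Int.cast_mul]
      rw [sc_valz hB1m hw, sc_valz hD1m hw, hBA, hwk]
      push_cast
      ring
    · intro h3
      have h4 := sc_valz hfm (m := (q.1 : ℤ) + a0) hw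
      rw [h3, Int.cast_zero] at h4
      exact (mul_eq_zero.1 ((mul_eq_zero.1 h4.symm).resolve_left (pow_ne_zero _ hwq))).resolve_left
        hc0
  obtain ⟨C2, hC20, hC2⟩ := hC2
  refine ⟨C1 + C2, add_nonneg hC10 hC20, fun a0 H W hH hW hbox hdeg => ?_⟩
  have hHr : (0 : ℝ) ≤ H := Nat.cast_nonneg _
  have hWr : (0 : ℝ) ≤ W := Nat.cast_nonneg _
  have hHW : (0 : ℝ) ≤ (H : ℝ) * W := mul_nonneg hHr hWr
  have e1 : (C1 + C2) * (H : ℝ) * W = C1 * ((H : ℝ) * W) + C2 * ((H : ℝ) * W) := by ring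
  have e2 : 0 ≤ C1 * ((H : ℝ) * W) := mul_nonneg hC10 hHW
  have e3 : 0 ≤ C2 * ((H : ℝ) * W) := mul_nonneg hC20 hHW
  rcases Nat.lt_or_ge 1 W with hW1 | hW1
  · have h3 := hC2 (hdeg hW1) a0 H W hH hW hbox
    rw [mul_assoc] at h3
    rw [e1]
    linarith
  · have hWe : W = 1 := by omega
    subst hWe
    have h3 := hC1 a0 H 1 hH hW hbox (fun w hw => by
      rw [mem_Icc] at hw
      rw [Set.mem_singleton_iff]
      omega)
    have e4 : C1 * (H : ℝ) * ((1 : ℕ) : ℝ) = C1 * ((H : ℝ) * ((1 : ℕ) : ℝ)) := mul_assoc _ _ _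
    rw [e4] at h3
    rw [e1]
    refine le_trans (le_trans (sum_le_sum fun q hq => ?_) h3) (by linarith)
    have hw : q.2 = 1 := by
      have := (mem_BX.1 hq).1.2
      omega
    unfold rf
    rw [hw, sc_one, Nat.cast_one, div_one]
    have hev : ∀ {G : ℤ[X]} {H : ℚ[X]} {c : ℚ}, G.map (Int.castRingHom ℚ) = C c * H → ∀ x : ℤ,
        ((G.eval x : ℤ) : ℚ) = c * H.eval (x : ℚ) := by
      intro G H c h x
      have h4 := sc_valz h (m := x) (w := 1) one_ne_zero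
      rw [sc_one, Nat.cast_one, one_pow, one_mul, div_one] at h4
      exact h4
    refine hcmp _ 1 _ _ _ one_ne_zero ?_ ?_ ?_
    · show (((A1 * D1).eval ((q.1 : ℤ) + a0) : ℤ) : ℚ) = _
      rw [eval_mul, Int.cast_mul, hev hA1m, hev hD1m, one_pow, one_mul]
    · show (((B1 * D1).eval ((q.1 : ℤ) + a0) : ℤ) : ℚ) = _
      rw [eval_mul, Int.cast_mul, hev hB1m, hev hD1m, one_pow, one_mul]
    · intro h3
      have h4 := hev hfm ((q.1 : ℤ) + a0)
      rw [h3, Int.cast_zero] at h4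
      exact (mul_eq_zero.1 h4.symm).resolve_left hc0

end Pool.Agent.H64.QM
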