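import Mathlib
import Pool.Agent.H64.QM.U6

/-!
# Boxes
-/

set_option autoImplicit false

namespace Pool.Agent.H64.QM

open Finset

/-- the sizes -/
lemma box_size {θ : ℝ} (hθ : 0 < θ) {u : ℤ} {H W : ℕ} (hW : 1 ≤ W)
    (h : (|(u : ℝ)| + H + W) ^ θ ≤ H) :
    1 ≤ H ∧ u.natAbs + H + W ≤ H ^ (⌈1 / θ⌉₊) := by
  have hWr : (1 : ℝ) ≤ W := by exact_mod_cast hW
  have hu : 0 ≤ |(u : ℝ)| := abs_nonneg _
  have hHr : (0 : ℝ) ≤ H := Nat.cast_nonneg _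
  have h1 : (1 : ℝ) ≤ |(u : ℝ)| + H + W := by linarith
  have h2 : (1 : ℝ) ≤ H := (Real.one_le_rpow h1 hθ.le).trans h
  refine ⟨by exact_mod_cast h2, ?_⟩
  have h3 : |(u : ℝ)| + H + W ≤ (H : ℝ) ^ (1 / θ) := by
    have h4 := Real.rpow_le_rpow (by positivity) h (by positivity : (0 : ℝ) ≤ 1 / θ)
    rw [← Real.rpow_mul (by linarith), mul_one_div_cancel hθ.ne', Real.rpow_one] at h4
    exact h4
  have h5 : (H : ℝ) ^ (1 / θ) ≤ (H : ℝ) ^ (⌈1 / θ⌉₊ : ℝ) :=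
    Real.rpow_le_rpow_of_exponent_le h2 (Nat.le_ceil _)
  rw [Real.rpow_natCast] at h5
  have h6 : ((u.natAbs + H + W : ℕ) : ℝ) ≤ ((H ^ (⌈1 / θ⌉₊) : ℕ) : ℝ) := by
    push_cast
    rw [Nat.cast_natAbs, Int.cast_abs]
    exact h3.trans h5
  exact_mod_cast h6

/-- the pairs of coprime integers in a box -/
noncomputable def bx (u : ℤ) (H W : ℕ) : Finset (ℤ × ℕ) :=
  ((Ioc u (u + H)) ×ˢ (Icc 1 W)).filter (fun q => Int.gcd q.1 q.2 = 1)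

lemma sum_bx (u : ℤ) (H W : ℕ) (φ : ℤ → ℕ → ℝ) :
    ∑ q ∈ bx u H W, φ q.1 q.2 = ∑ q ∈ BX u H W, φ (q.1 + u) q.2 := by
  refine (sum_bij (fun (q : ℕ × ℕ) _ => (((q.1 : ℤ) + u, q.2) : ℤ × ℕ)) ?_ ?_ ?_ ?_).symm
  · intro q hq
    rw [mem_BX] at hq
    unfold bx
    rw [mem_filter, mem_product, mem_Ioc, mem_Icc]
    simp only
    refine ⟨⟨by omega, hq.1.2⟩, hq.2⟩
  · intro q _ q' _ h
    have h3 := Prod.ext_iff.1 h
    simp only [add_left_inj, Nat.cast_inj] at h3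
    exact Prod.ext h3.1 h3.2
  · intro q hq
    unfold bx at hq
    rw [mem_filter, mem_product, mem_Ioc, mem_Icc] at hq
    obtain ⟨⟨h1, h2⟩, h3⟩ := hq
    refine ⟨((q.1 - u).natAbs, q.2), ?_, ?_⟩
    · rw [mem_BX]
      have h4 : (((q.1 - u).natAbs : ℕ) : ℤ) + u = q.1 := by omega
      refine ⟨⟨by simp only; omega, h2⟩, ?_⟩
      simp only
      rw [h4]
      exact h3
    · refine Prod.ext ?_ rfl
      simp only
      omega
  · intro q _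
    rfl

end Pool.Agent.H64.QM
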